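import Pool.Agent.Helper53.SDCoord
import Pool.Agent.Helper1.SD.Defs2
import Pool.Agent.Helper83.SDGlue

set_option autoImplicit false

/-!
Good cones from pairs of dual cones with dual bases.
-/

namespace Pool.Agent.Helper1.SD

open Matrix

theorem exists_goodCone {k d : ℕ} {A B : Set (Fin (d + 1) → ℝ)} (hA : A.Finite) (hB : B.Finite)
    (hC : coneOf A = dualOf B) (hD : coneOf B = dualOf A)
    (ks1 : KS k (coneOf A) (coneOf B)) (ks2 : KS k (coneOf B) (coneOf A))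
    (p q : Fin (d + 1) → (Fin (d + 1) → ℝ))
    (hpq : ∀ i j, q i ⬝ᵥ p j = if i = j then 1 else 0)
    (hp : ∀ i : Fin d, p i.castSucc ∈ coneOf A)
    (hq : ∀ i, q i ∈ B)
    (hb : ∀ b ∈ B, b = q (Fin.last d) ∨ b ⬝ᵥ p (Fin.last d) ≤ 0)
    (h5 : ∀ i : Fin d, ∃ x ∈ A, q i.castSucc ⬝ᵥ x = 0 ∧ 0 < q (Fin.last d) ⬝ᵥ x)
    (h7 : ∃ i : Fin d, ∃ r ∈ A, ∃ y ∈ B, y ⬝ᵥ p (Fin.last d) ≤ 0 ∧
      0 < q i.castSucc ⬝ᵥ r ∧ 0 < y ⬝ᵥ p i.castSucc ∧ r ⬝ᵥ y = 0) :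
    ∃ K : Set (Fin (d + 1) → ℝ), GoodCone k K := by
  obtain ⟨L, L', hLL, hL, hL'⟩ := exists_equivs p q hpq
  have hLL' : ∀ x y, L' x ⬝ᵥ L y = x ⬝ᵥ y := fun x y => by
    rw [dotProduct_comm, hLL, dotProduct_comm]
  have hLp : ∀ j, L (p j) = Pi.single j 1 := by
    intro j
    funext i
    rw [hL, hpq, Pi.single_apply]
  have hLq : ∀ j, L' (q j) = Pi.single j 1 := by
    intro j
    funext i
    rw [hL', hpq, Pi.single_apply]
    by_cases h : i = j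
    · rw [if_pos h, if_pos h.symm]
    · rw [if_neg h, if_neg fun h' => h h'.symm]
  have hqne : ∀ i : Fin d, q i.castSucc ≠ q (Fin.last d) := by
    intro i h
    have h1 := hpq i.castSucc (Fin.last d)
    rw [h, hpq, if_pos rfl, if_neg (Fin.castSucc_lt_last i).ne] at h1
    exact one_ne_zero h1
  refine ⟨_, glue (k := k) (C := L '' coneOf A) (D := L' '' coneOf B) (A := L '' A)
    (B' := L' '' (B \ {q (Fin.last d)})) (hA.image _) ((hB.subset Set.sdiff_subset).image _)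
    (coneOf_image L A).symm ?_ ?_ ?_ ?_ ?_ ?_ ?_ ?_ (ks_image hLL ks1) (ks_image hLL' ks2) ?_⟩
  · rw [← hLq, ← Set.image_insert_eq, Set.insert_sdiff_singleton, Set.insert_eq_of_mem (hq _),
      coneOf_image]
  · rw [dualOf_image hLL', dualOf_coneOf, hC]
  · rw [dualOf_image hLL, dualOf_coneOf, hD]
  · intro i
    rw [← hLp]
    exact ⟨_, hp i, rfl⟩
  · rintro _ ⟨x, hx, rfl⟩ j
    rw [hL, dotProduct_comm]
    rw [hC] at hx
    exact hx _ (hq j)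
  · rintro _ ⟨b, ⟨hbB, hbq⟩, rfl⟩
    rw [hL']
    exact (hb b hbB).resolve_left hbq
  · intro i
    rw [← hLq]
    exact subset_coneOf _ ⟨_, ⟨hq _, hqne i⟩, rfl⟩
  · intro i
    obtain ⟨x, hx, h1, h2⟩ := h5 i
    refine ⟨L x, ⟨x, subset_coneOf _ hx, rfl⟩, ?_, ?_⟩
    · rw [hL]; exact h1
    · rw [hL]; exact h2
  · obtain ⟨i, r, hr, y, hy, h1, h2, h3, h4⟩ := h7
    refine ⟨i, L r, ⟨r, subset_coneOf _ hr, rfl⟩, L' y, ⟨y, subset_coneOf _ hy, rfl⟩, ?_, ?_, ?_, ?_⟩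
    · rw [hL']; exact h1
    · rw [hL]; exact h2
    · rw [hL']; exact h3
    · rw [hLL]; exact h4

end Pool.Agent.Helper1.SD
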