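import Pool.Agent.Helper53.SubMACHINE
import Pool.Agent.Helper80.SubROTHH
import Pool.Agent.Helper41.SubGRID
import Pool.Agent.Helper43.SubAUX

/-!
# Subspace theorem project, module MACHINE: the Roth machine from Roth's lemma
-/

set_option autoImplicit false

namespace Pool.Agent.Helper53.Sub

open Pool.Agent.Helper10.Sub MvPolynomial Finset

variable {ι : Type} [Fintype ι] [DecidableEq ι] {T : Type} [Fintype T] {p : T → ℕ}
  [∀ t, Fact (p t).Prime]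

theorem machine_of_roth1 (hR : Pool.Agent.Helper80.Sub.Roth1Statement)
    (S : Sys ι T p) (hp : Function.Injective p) (hι : 2 ≤ Fintype.card ι)
    (c : ι → ℝ) (c' : T → ι → ℝ) (hc : ∑ i, c i + ∑ t, ∑ i, c' t i < 0)
    (δ C1 : ℝ) (hδ : 0 < δ) :
    {m : ι → ℤ | Prim m ∧ ∃ Q : ℝ, 1 ≤ Q ∧ Q ^ δ ≤ htv m ∧ htv m ≤ Q ^ C1 ∧
      ∃ y : Fin (Fintype.card ι - 1) → ι → ℚ, LinearIndependent ℚ y ∧
        (∀ j, PVec (pprod p) (y j)) ∧ (∀ j, ∑ i, (m i : ℚ) * y j i = 0) ∧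
        (∀ j i, |S.L (y j) i| ≤ Q ^ (c i)) ∧
        (∀ t j i, ‖S.L' t (y j) i‖ ≤ Q ^ (c' t i))}.Finite :=
  machine_of S hp hι
    (fun b ε hε => Pool.Agent.Helper80.Sub.rothH_of_roth1 hR ι hι b ε hε)
    (fun G r hdeg y z hz hne N => Pool.Agent.Helper41.Sub.grid G r hdeg y z hz hne N)
    (fun ε hε => Pool.Agent.Helper43.Sub.aux S (by omega) ε hε)
    c c' hc δ C1 hδ

end Pool.Agent.Helper53.Sub
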