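import Pool.Agent.Helper10.RC.Intr

/-!
# Stable factorisation under `t ↦ t ^ N`
-/

set_option autoImplicit false

namespace Pool.Agent.Helper53.RC

open Pool.Agent.Helper10.RC MvPolynomial NumberField

section
variable {C : Type} [Field C] {n : ℕ}

theorem pw_one (P : Pl C n) : pw P 1 = P := by
  have h : (expand 1 : MvPolynomial (Fin n) C →ₐ[C] MvPolynomial (Fin n) C).toRingHom
      = RingHom.id _ := by
    rw [expand_one]; rfl
  rw [pw, h, Polynomial.map_id]

theorem pw_pw (P : Pl C n) (N N' : ℕ) : pw (pw P N) N' = pw P (N * N') := by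
  have h : ((expand N' : MvPolynomial (Fin n) C →ₐ[C] MvPolynomial (Fin n) C).toRingHom).comp
      (expand N : MvPolynomial (Fin n) C →ₐ[C] MvPolynomial (Fin n) C).toRingHom
      = (expand (N * N') : MvPolynomial (Fin n) C →ₐ[C] MvPolynomial (Fin n) C).toRingHom := by
    refine RingHom.ext fun φ => ?_
    have := (expand_mul (p := N') (R := C) (σ := Fin n) N φ).symm
    rw [mul_comm N' N] at this
    exact this
  rw [pw, pw, pw, Polynomial.map_map, h]

theorem pw_mul (P Q : Pl C n) (N : ℕ) : pw (P * Q) N = pw P N * pw Q N :=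
  Polynomial.map_mul _

theorem pw_prod (ℛ : Multiset (Pl C n)) (N : ℕ) :
    pw ℛ.prod N = (ℛ.map fun R => pw R N).prod := by
  rw [pw, Polynomial.map_multiset_prod]; rfl

theorem pw_monic {P : Pl C n} (hP : P.Monic) (N : ℕ) : (pw P N).Monic := hP.map _

theorem natDegree_pw {P : Pl C n} (hP : P.Monic) (N : ℕ) :
    (pw P N).natDegree = P.natDegree := hP.natDegree_map _

/-- `ℛ` is a factorisation of `P(t ^ N)`. -/
def IsFac (P : Pl C n) (N : ℕ) (ℛ : Multiset (Pl C n)) : Prop :=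
  1 ≤ N ∧ pw P N = ℛ.prod ∧ ∀ R ∈ ℛ, R.Monic ∧ 1 ≤ R.natDegree

theorem IsFac.card_le {P : Pl C n} (hP : P.Monic) {N : ℕ} {ℛ : Multiset (Pl C n)}
    (h : IsFac P N ℛ) : Multiset.card ℛ ≤ P.natDegree := by
  have h1 : P.natDegree = (ℛ.map Polynomial.natDegree).sum := by
    rw [← natDegree_pw hP N, h.2.1]
    exact Polynomial.natDegree_multiset_prod_of_monic _ fun R hR => (h.2.2 R hR).1
  rw [h1]
  have h2 := Multiset.card_nsmul_le_sum (s := ℛ.map Polynomial.natDegree) (a := 1) (by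
    intro x hx
    obtain ⟨R, hR, rfl⟩ := Multiset.mem_map.1 hx
    exact (h.2.2 R hR).2)
  simpa using h2

theorem exists_isFac {P : Pl C n} (hP : P.Monic) : ∃ N ℛ, IsFac P N ℛ := by
  rcases Nat.eq_zero_or_pos P.natDegree with h0 | h0
  · refine ⟨1, 0, le_refl _, ?_, by simp⟩
    rw [pw_one, Multiset.prod_zero]
    exact hP.natDegree_eq_zero.1 h0
  · refine ⟨1, {P}, le_refl _, ?_, ?_⟩
    · rw [pw_one, Multiset.prod_singleton]
    · intro R hR
      rw [Multiset.mem_singleton] at hR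
      subst hR
      exact ⟨hP, h0⟩

theorem stable_factors (P : Pl C n) (hP : P.Monic) :
    ∃ (N : ℕ) (ℛ : Multiset (Pl C n)), 1 ≤ N ∧ pw P N = ℛ.prod ∧
      ∀ R ∈ ℛ, R.Monic ∧ 1 ≤ R.natDegree ∧ ∀ N', 1 ≤ N' → Irreducible (pw R N') := by
  classical
  -- the largest number of factors
  let p : ℕ → Prop := fun c => ∃ N ℛ, IsFac P N ℛ ∧ Multiset.card ℛ = c
  obtain ⟨N₀, ℛ₀, h₀⟩ := exists_isFac hP
  have hp : p (Nat.findGreatest p P.natDegree) :=
    Nat.findGreatest_spec (h₀.card_le hP) ⟨N₀, ℛ₀, h₀, rfl⟩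
  obtain ⟨N, ℛ, hF, hc⟩ := hp
  refine ⟨N, ℛ, hF.1, hF.2.1, fun R hR => ⟨(hF.2.2 R hR).1, (hF.2.2 R hR).2, ?_⟩⟩
  intro N' hN'
  by_contra hirr
  have hRm := (hF.2.2 R hR).1
  have hR1 := (hF.2.2 R hR).2
  have hm : (pw R N').Monic := pw_monic hRm N'
  have hd : (pw R N').natDegree = R.natDegree := natDegree_pw hRm N'
  have hne : pw R N' ≠ 1 := by
    intro h
    rw [h, Polynomial.natDegree_one] at hd
    omega
  rw [hm.irreducible_iff_natDegree'] at hirr
  push Not at hirr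
  obtain ⟨f, g, hf, hg, hfg, hgd⟩ := hirr hne
  rw [Finset.mem_Ioc] at hgd
  have hsum : f.natDegree + g.natDegree = R.natDegree := by
    rw [← hf.natDegree_mul hg, hfg, hd]
  rw [hd] at hgd
  obtain ⟨𝒯, rfl⟩ := Multiset.exists_cons_of_mem hR
  -- the longer factorisation
  have hF' : IsFac P (N * N') (f ::ₘ g ::ₘ 𝒯.map fun R => pw R N') := by
    refine ⟨Nat.mul_pos hF.1 hN', ?_, ?_⟩
    · rw [← pw_pw, hF.2.1, pw_prod, Multiset.map_cons, Multiset.prod_cons, Multiset.prod_cons,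
        Multiset.prod_cons, ← hfg, mul_assoc]
    · intro Q hQ
      rw [Multiset.mem_cons, Multiset.mem_cons, Multiset.mem_map] at hQ
      rcases hQ with rfl | rfl | ⟨Q', hQ', rfl⟩
      · exact ⟨hf, by omega⟩
      · exact ⟨hg, by omega⟩
      · have := hF.2.2 Q' (Multiset.mem_cons_of_mem hQ')
        exact ⟨pw_monic this.1 N', by rw [natDegree_pw this.1]; exact this.2⟩
  have hle := Nat.le_findGreatest (P := p) (hF'.card_le hP) ⟨_, _, hF', rfl⟩
  rw [← hc] at hle
  simp at hle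

end

end Pool.Agent.Helper53.RC
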