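import Mathlib
import Pool.Agent.Helper16.H1b

set_option autoImplicit false
set_option linter.unusedSectionVars false

/-!
# Functions with prescribed zeros away from one place; places where finitely many functions are
regular
-/

namespace Pool.Agent.Helper53.FFDiv

open Pool.Agent.Helper16 Polynomial

variable {k E : Type} [Field k] [Field E] [Algebra k E]

lemma ord_pow (u : Place k E) {x : E} (hx : x ≠ 0) (n : ℕ) : u.ord (x ^ n) = n * u.ord x := by
  induction n with
  | zero => simp [u.ord_one]
  | succ n ih =>
    rw [pow_succ, u.ord_mul (pow_ne_zero n hx) hx, ih]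
    push_cast
    ring

theorem exists_divisor_fun [Finite k]
    (hE : IsFunctionField k E) (ν : Place k E → ℕ) (hν : {u | ν u ≠ 0}.Finite) (u₀ : Place k E) :
    ∃ (M : ℕ) (g : E), 1 ≤ M ∧ g ≠ 0 ∧ ∀ u, u ≠ u₀ → u.ord g = (M : ℤ) * ν u := by
  classical
  have key : ∀ S : Finset (Place k E), ∃ (M : ℕ) (g : E), 1 ≤ M ∧ g ≠ 0 ∧
      ∀ u, u ≠ u₀ → u.ord g = (M : ℤ) * (if u ∈ S then (ν u : ℤ) else 0) := by
    intro S
    induction S using Finset.induction_on with
    | empty =>
      refine ⟨1, 1, le_rfl, one_ne_zero, fun u _ => ?_⟩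
      simp [u.ord_one]
    | insert a S ha ih =>
      obtain ⟨M, g, hM, hg, h⟩ := ih
      by_cases hau : a = u₀
      · refine ⟨M, g, hM, hg, fun u hu => ?_⟩
        rw [h u hu]
        have : u ∈ insert a S ↔ u ∈ S := by
          rw [Finset.mem_insert]
          constructor
          · rintro (h1 | h1)
            · exact absurd (h1.trans hau) hu
            · exact h1
          · exact Or.inr
        simp only [this]
      · obtain ⟨φ, htr, h1, h2, h3⟩ := hE.exists_zero_pole a u₀ hau
        have hφ : φ ≠ 0 := by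
          rintro rfl
          exact htr (isAlgebraic_zero)
        have hpos : 0 < a.ord φ := (a.ord_pos_iff hφ).2 h1
        obtain ⟨e, he⟩ := Int.eq_ofNat_of_zero_le hpos.le
        have he1 : 1 ≤ e := by
          rw [he] at hpos
          exact_mod_cast hpos
        refine ⟨M * e, g ^ e * φ ^ (M * ν a), Nat.mul_pos hM he1,
          mul_ne_zero (pow_ne_zero _ hg) (pow_ne_zero _ hφ), fun u hu => ?_⟩
        rw [u.ord_mul (pow_ne_zero _ hg) (pow_ne_zero _ hφ), ord_pow u hg, ord_pow u hφ, h u hu]
        by_cases hua : u = a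
        · subst hua
          rw [if_neg ha, if_pos (Finset.mem_insert_self _ _), he]
          push_cast
          ring
        · have h4 : u.ord φ = 0 := by
            rw [u.ord_eq_zero_iff hφ]
            rcases lt_trichotomy (u.val φ) 1 with h5 | h5 | h5
            · exact absurd (h2 u h5) hua
            · exact h5
            · exact absurd (h3 u h5) hu
          have h6 : u ∈ insert a S ↔ u ∈ S := by
            rw [Finset.mem_insert]
            exact ⟨fun h7 => h7.resolve_left hua, Or.inr⟩
          rw [h4]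
          simp only [h6]
          push_cast
          ring
  obtain ⟨M, g, hM, hg, h⟩ := key hν.toFinset
  refine ⟨M, g, hM, hg, fun u hu => ?_⟩
  rw [h u hu]
  by_cases h1 : ν u = 0
  · rw [h1]; simp
  · rw [if_pos (by rw [Set.Finite.mem_toFinset]; exact h1)]

lemma exists_transcendental (hE : IsFunctionField k E) : ∃ x : E, Transcendental k x := by
  by_contra hcon
  push Not at hcon
  have halg : Algebra.IsAlgebraic k E := ⟨fun x => by
    have := hcon x
    simpa [Transcendental] using this⟩
  have h1 : Algebra.trdeg k E = 0 := trdeg_eq_zero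
  rw [hE.2] at h1
  exact one_ne_zero h1

/-- A finite set of places can be avoided. -/
theorem exists_place_notMem (hE : IsFunctionField k E) (T : Finset (Place k E)) :
    ∃ u : Place k E, u ∉ T := by
  classical
  obtain ⟨x, hx⟩ := exists_transcendental hE
  obtain ⟨w, hw⟩ := hE.exists_zero x hx
  obtain ⟨g, hg, hpole⟩ := hE.exists_single_pole w
  set q : k[X] := ∏ v ∈ T.erase w, minpoly k (v.res g) with hq
  have hq0 : q ≠ 0 := by
    rw [hq, Finset.prod_ne_zero_iff]
    intro v _
    have := v.finite_resField hE
    exact minpoly.ne_zero (Algebra.IsIntegral.isIntegral _)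
  set p : k[X] := 1 + X * q with hp
  have hpd : 1 ≤ p.natDegree := by
    have h1 : (X * q).natDegree = q.natDegree + 1 := by
      rw [natDegree_X_mul hq0]
    rw [hp, natDegree_add_eq_right_of_natDegree_lt, h1]
    · omega
    · rw [h1, natDegree_one]; omega
  have htr : Transcendental k (aeval g p) := 
    hg.aeval p (by omega) (mem_nonZeroDivisors_of_ne_zero (leadingCoeff_ne_zero.2 (by
      rintro h0
      rw [h0, natDegree_zero] at hpd
      omega)))
  have hmem : ∀ v : Place k E, v ≠ w → g ∈ v.ring := fun v hv => hpole v hv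
  -- the pole of `p(g)` is `w`
  have hp0 : aeval g p ≠ 0 := by
    intro h0
    rw [h0] at htr
    exact htr isAlgebraic_zero
  have htr' : Transcendental k (aeval g p)⁻¹ := by
    intro h
    apply htr
    have := h.inv
    rwa [inv_inv] at this
  obtain ⟨w', hw'⟩ := hE.exists_zero _ htr'
  have h1 : 1 < w'.val (aeval g p) := by
    rw [map_inv₀] at hw'
    have hf0 : w'.val (aeval g p) ≠ 0 := by simpa using hp0
    exact (inv_lt_one₀ (zero_lt_iff.2 hf0)).1 hw'
  have h2 : w' = w := by
    by_contra hne
    have h3 := (w'.res_aeval (hmem w' hne) p).1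
    exact absurd h1 (not_lt.2 h3)
  rw [h2] at h1
  obtain ⟨v, hv⟩ := hE.exists_zero _ htr
  have hvw : v ≠ w := by
    rintro rfl
    exact lt_asymm hv h1
  refine ⟨v, fun hvT => ?_⟩
  have h4 := v.res_aeval (hmem v hvw) p
  have h5 : aeval (v.res g) q = 0 := by
    rw [hq, map_prod]
    exact Finset.prod_eq_zero (Finset.mem_erase.2 ⟨hvw, hvT⟩) (minpoly.aeval _ _)
  have h6 : v.res (aeval g p) = 1 := by
    rw [h4.2, hp, map_add, map_mul, map_one, h5, mul_zero, add_zero]
  have h7 := (v.res_eq_zero_iff h4.1).2 hv
  rw [h7] at h6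
  exact zero_ne_one h6

theorem exists_good_place (hE : IsFunctionField k E) (S : Finset E) :
    ∃ u : Place k E, ∀ s ∈ S, u.val s ≤ 1 := by
  classical
  have h1 : ∀ s : E, ∃ T : Finset (Place k E), ∀ v : Place k E, 1 < v.val s → v ∈ T := by
    intro s
    obtain ⟨T, hT, -⟩ := hE.product_formula s
    refine ⟨T, fun v hv => ?_⟩
    have hs : s ≠ 0 := by
      rintro rfl
      rw [map_zero] at hv
      exact absurd hv (not_lt.2 zero_le_one)
    rw [hT, Ne, v.ord_eq_zero_iff hs]
    exact hv.ne'
  choose T hT using h1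
  obtain ⟨u, hu⟩ := exists_place_notMem hE (S.biUnion T)
  refine ⟨u, fun s hs => ?_⟩
  by_contra hcon
  exact hu (Finset.mem_biUnion.2 ⟨s, hs, hT s u (not_le.1 hcon)⟩)

end Pool.Agent.Helper53.FFDiv
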