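import Pool.Agent.Helper21.LR.Stmts

/-!
# Closeness estimates (Laurent-Roy)
-/

set_option autoImplicit false

namespace Pool.Agent.Helper53.LR

open Pool.Agent.Helper21.LR MvPolynomial

/-! ## elementary -/

theorem ht_pos {ι : Type*} {F : MvPolynomial ι ℤ} (hF : F ≠ 0) : 1 ≤ ht F := by
  obtain ⟨α, hα⟩ := MvPolynomial.support_nonempty.2 hF
  have h1 : (F.coeff α).natAbs ≤ ht F :=
    Finset.le_sup (f := fun α => (F.coeff α).natAbs) hα
  have h2 : 0 < (F.coeff α).natAbs := Int.natAbs_pos.2 (MvPolynomial.mem_support_iff.1 hα)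
  omega

theorem log_ht_nonneg {ι : Type*} {F : MvPolynomial ι ℤ} (hF : F ≠ 0) :
    0 ≤ Real.log (ht F) :=
  Real.log_nonneg (by exact_mod_cast ht_pos hF)

theorem totalDegree_le_sz {ι : Type*} {F : MvPolynomial ι ℤ} (hF : F ≠ 0) :
    (F.totalDegree : ℝ) ≤ sz F := by
  unfold sz
  linarith [log_ht_nonneg hF]

theorem log_ht_le_sz {ι : Type*} {F : MvPolynomial ι ℤ} :
    Real.log (ht F) ≤ sz F := by
  unfold sz
  have : (0 : ℝ) ≤ F.totalDegree := Nat.cast_nonneg _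
  linarith

theorem vanish {m r : ℕ} {ξ : Fin m → ℂ} {F : MvPolynomial (Fin (r+1) × Fin (m+1)) ℤ}
    (hF : IsVar r ξ F) (u : Fin (r+1) × Fin m → ℂ) : aeval (thr ξ u) F = 0 :=
  (hF.chow.2 F).2 dvd_rfl u

theorem sz1 : SSz := by
  intro m r ξ F hF
  have h0 : F ≠ 0 := hF.chow.1
  have hd : 1 ≤ F.totalDegree := by
    by_contra hcon
    have h1 : F.totalDegree = 0 := by omega
    rw [totalDegree_eq_zero_iff_eq_C] at h1
    have h2 := vanish hF 0
    rw [h1, aeval_C] at h2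
    have h3 : F.coeff 0 = 0 := by simpa using h2
    rw [h3, C_0] at h1
    exact h0 h1
  refine ⟨?_, hd, ?_⟩
  · have h1 : trd ξ ≤ (Set.range ξ).encard := Matroid.eRk_le_encard _ _
    have h2 : (Set.range ξ).encard ≤ m := by
      rw [← Set.image_univ]
      refine (Set.encard_image_le _ _).trans ?_
      rw [Set.encard_univ]
      simp
    rw [hF.dim] at h1
    exact_mod_cast h1.trans h2
  · have h1 : (1 : ℝ) ≤ F.totalDegree := by exact_mod_cast hd
    linarith [totalDegree_le_sz h0]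

/-! ## evaluation estimates -/

theorem norm_prod_le {ι : Type*} (s : Multiset ι) (x : ι → ℂ) (R : ℝ) (hR : 0 ≤ R)
    (hx : ∀ i, ‖x i‖ ≤ R) : ‖(s.map x).prod‖ ≤ R ^ (Multiset.card s) := by
  induction s using Multiset.induction_on with
  | empty => simp
  | cons a s ih =>
    rw [Multiset.map_cons, Multiset.prod_cons, norm_mul, Multiset.card_cons, pow_succ']
    exact mul_le_mul (hx a) ih (norm_nonneg _) hR

theorem norm_prod_sub_le {ι : Type*} (s : Multiset ι) (x y : ι → ℂ) (R ε : ℝ) (hR : 1 ≤ R)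
    (hx : ∀ i, ‖x i‖ ≤ R) (hy : ∀ i, ‖y i‖ ≤ R) (hε : ∀ i, ‖x i - y i‖ ≤ ε) (hε0 : 0 ≤ ε) :
    ‖(s.map x).prod - (s.map y).prod‖ ≤
      Multiset.card s * R ^ (Multiset.card s - 1) * ε := by
  have hR0 : 0 ≤ R := by linarith
  induction s using Multiset.induction_on with
  | empty => simp
  | cons a s ih =>
    rw [Multiset.map_cons, Multiset.prod_cons, Multiset.map_cons, Multiset.prod_cons,
      Multiset.card_cons]
    have h1 : x a * (s.map x).prod - y a * (s.map y).prod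
        = x a * ((s.map x).prod - (s.map y).prod) + (x a - y a) * (s.map y).prod := by ring
    rw [h1]
    refine (norm_add_le _ _).trans ?_
    rw [norm_mul, norm_mul]
    have h2 : ‖x a‖ * ‖(s.map x).prod - (s.map y).prod‖ ≤
        R * (Multiset.card s * R ^ (Multiset.card s - 1) * ε) :=
      mul_le_mul (hx a) ih (norm_nonneg _) hR0
    have h3 : ‖x a - y a‖ * ‖(s.map y).prod‖ ≤ ε * R ^ (Multiset.card s) :=
      mul_le_mul (hε a) (norm_prod_le s y R hR0 hy) (norm_nonneg _) hε0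
    refine (add_le_add h2 h3).trans (le_of_eq ?_)
    rcases Nat.eq_zero_or_pos (Multiset.card s) with h0 | h0
    · rw [h0]; simp
    · obtain ⟨k, hk⟩ := Nat.exists_eq_add_of_lt h0
      rw [hk]
      simp only [zero_add, Nat.add_sub_cancel]
      push_cast
      ring

theorem prod_pow_eq {ι : Type*} [Fintype ι] (α : ι →₀ ℕ) (x : ι → ℂ) :
    ∏ i, x i ^ α i = ((Finsupp.toMultiset α).map x).prod := by
  rw [Finsupp.toMultiset_map, Finsupp.prod_toMultiset,
    Finsupp.prod_mapDomain_index (fun _ => pow_zero _) (fun _ _ _ => pow_add _ _ _),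
    Finsupp.prod_fintype _ _ (fun _ => pow_zero _)]

theorem card_toMultiset_le {ι : Type*} {G : MvPolynomial ι ℂ} {α : ι →₀ ℕ} (h : α ∈ G.support)
    {N : ℕ} (hN : G.totalDegree ≤ N) : Multiset.card (Finsupp.toMultiset α) ≤ N := by
  rw [Finsupp.card_toMultiset]
  exact (le_totalDegree h).trans hN

theorem len_nonneg {ι : Type*} (G : MvPolynomial ι ℂ) : 0 ≤ len G :=
  Finset.sum_nonneg fun _ _ => norm_nonneg _

theorem norm_eval_le {ι : Type*} [Fintype ι] (G : MvPolynomial ι ℂ) (x : ι → ℂ) (R : ℝ)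
    (hR : 1 ≤ R) (hx : ∀ i, ‖x i‖ ≤ R) (N : ℕ) (hN : G.totalDegree ≤ N) :
    ‖eval x G‖ ≤ len G * R ^ N := by
  rw [eval_eq', len, Finset.sum_mul]
  refine (norm_sum_le _ _).trans (Finset.sum_le_sum fun α hα => ?_)
  rw [norm_mul, prod_pow_eq]
  refine mul_le_mul_of_nonneg_left ?_ (norm_nonneg _)
  exact (norm_prod_le _ x R (by linarith) hx).trans
    (pow_le_pow_right₀ hR (card_toMultiset_le hα hN))

theorem norm_eval_sub_le {ι : Type*} [Fintype ι] (G : MvPolynomial ι ℂ) (x y : ι → ℂ) (R ε : ℝ)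
    (hR : 1 ≤ R) (hx : ∀ i, ‖x i‖ ≤ R) (hy : ∀ i, ‖y i‖ ≤ R) (hε : ∀ i, ‖x i - y i‖ ≤ ε)
    (hε0 : 0 ≤ ε) (N : ℕ) (hN : G.totalDegree ≤ N) :
    ‖eval x G - eval y G‖ ≤ len G * (N * R ^ (N - 1) * ε) := by
  rw [eval_eq', eval_eq', ← Finset.sum_sub_distrib, len, Finset.sum_mul]
  refine (norm_sum_le _ _).trans (Finset.sum_le_sum fun α hα => ?_)
  rw [← mul_sub, norm_mul, prod_pow_eq, prod_pow_eq]
  refine mul_le_mul_of_nonneg_left ?_ (norm_nonneg _)
  refine (norm_prod_sub_le _ x y R ε hR hx hy hε hε0).trans ?_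
  have h1 := card_toMultiset_le hα hN
  refine mul_le_mul_of_nonneg_right ?_ hε0
  refine mul_le_mul (by exact_mod_cast h1) (pow_le_pow_right₀ hR (by omega)) ?_ (by positivity)
  exact pow_nonneg (by linarith) _

/-! ## integer polynomials as complex polynomials -/

/-- an integer polynomial as a complex polynomial -/
noncomputable def toC {ι : Type*} (F : MvPolynomial ι ℤ) : MvPolynomial ι ℂ :=
  MvPolynomial.map (Int.castRingHom ℂ) F

theorem eval_toC {ι : Type*} (F : MvPolynomial ι ℤ) (x : ι → ℂ) : eval x (toC F) = aeval x F := by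
  rw [toC, eval_map, aeval_def]
  rfl

theorem support_toC {ι : Type*} (F : MvPolynomial ι ℤ) : (toC F).support = F.support := by
  rw [toC, support_map_of_injective]
  exact Int.cast_injective

theorem coeff_toC {ι : Type*} (F : MvPolynomial ι ℤ) (α : ι →₀ ℕ) :
    (toC F).coeff α = ((F.coeff α : ℤ) : ℂ) := by
  rw [toC, coeff_map]; rfl

theorem totalDegree_toC {ι : Type*} (F : MvPolynomial ι ℤ) :
    (toC F).totalDegree = F.totalDegree := by
  rw [totalDegree, totalDegree, support_toC]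

theorem toC_ne_zero {ι : Type*} {F : MvPolynomial ι ℤ} (hF : F ≠ 0) : toC F ≠ 0 := by
  rw [← support_nonempty, support_toC, support_nonempty]
  exact hF

theorem card_support_le {ι : Type*} [Fintype ι] (F : MvPolynomial ι ℤ) :
    F.support.card ≤ (F.totalDegree + 1) ^ Fintype.card ι := by
  classical
  have h : ∀ α : F.support, ∀ i, α.1 i < F.totalDegree + 1 := by
    intro α i
    have h1 := le_totalDegree α.2
    have h2 : α.1 i ≤ α.1.sum fun _ e => e := by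
      rw [Finsupp.sum_fintype _ _ (fun _ => rfl)]
      exact Finset.single_le_sum (f := fun i => α.1 i) (fun _ _ => Nat.zero_le _)
        (Finset.mem_univ i)
    omega
  have h3 := Fintype.card_le_of_injective
    (fun α : F.support => fun i => (⟨α.1 i, h α i⟩ : Fin (F.totalDegree + 1))) (by
      intro α β hab
      apply Subtype.ext
      ext i
      have := congrFun hab i
      simpa using this)
  simpa using h3

theorem len_toC_le {ι : Type*} [Fintype ι] {F : MvPolynomial ι ℤ} (hF : F ≠ 0) {n : ℕ}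
    (hn : Fintype.card ι ≤ n) (hn1 : 1 ≤ n) : len (toC F) ≤ Real.exp (n * sz F) := by
  have h1 : len (toC F) ≤ F.support.card * ht F := by
    rw [len, support_toC]
    have : ∀ α ∈ F.support, ‖(toC F).coeff α‖ ≤ ht F := by
      intro α hα
      rw [coeff_toC, Complex.norm_intCast]
      have h2 : (F.coeff α).natAbs ≤ ht F :=
        Finset.le_sup (f := fun α => (F.coeff α).natAbs) hα
      rw [← Int.cast_abs, Int.abs_eq_natAbs]
      exact_mod_cast h2
    have h2 := Finset.sum_le_card_nsmul _ _ _ this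
    rwa [nsmul_eq_mul] at h2
  have h2 : (F.support.card : ℝ) ≤ Real.exp (n * F.totalDegree) := by
    have h3 : (F.support.card : ℝ) ≤ ((F.totalDegree : ℝ) + 1) ^ Fintype.card ι := by
      exact_mod_cast card_support_le F
    have h4 : ((F.totalDegree : ℝ) + 1) ^ Fintype.card ι ≤ ((F.totalDegree : ℝ) + 1) ^ n :=
      pow_le_pow_right₀ (by linarith [(Nat.cast_nonneg _ : (0 : ℝ) ≤ F.totalDegree)]) hn
    have h5 : ((F.totalDegree : ℝ) + 1) ^ n ≤ (Real.exp F.totalDegree) ^ n :=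
      pow_le_pow_left₀ (by positivity) (Real.add_one_le_exp _) n
    rw [← Real.exp_nat_mul] at h5
    linarith
  have h6 : (ht F : ℝ) = Real.exp (Real.log (ht F)) := by
    rw [Real.exp_log]
    exact_mod_cast ht_pos hF
  have h7 : (F.support.card : ℝ) * ht F ≤ Real.exp (n * F.totalDegree + Real.log (ht F)) := by
    rw [Real.exp_add, ← h6]
    exact mul_le_mul_of_nonneg_right h2 (Nat.cast_nonneg _)
  refine h1.trans (h7.trans (Real.exp_le_exp.2 ?_))
  have h8 : (1 : ℝ) ≤ n := by exact_mod_cast hn1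
  have h9 := log_ht_nonneg hF
  unfold sz
  nlinarith

theorem norm_aeval_le {ι : Type*} [Fintype ι] {F : MvPolynomial ι ℤ} (hF : F ≠ 0) {n : ℕ}
    (hn : Fintype.card ι ≤ n) (hn1 : 1 ≤ n) (x : ι → ℂ) (R : ℝ) (hR : 1 ≤ R)
    (hx : ∀ i, ‖x i‖ ≤ R) : ‖aeval x F‖ ≤ Real.exp ((n + Real.log R) * sz F) := by
  rw [← eval_toC]
  refine (norm_eval_le (toC F) x R hR hx F.totalDegree (totalDegree_toC F).le).trans ?_
  have h1 : R ^ F.totalDegree ≤ Real.exp (Real.log R * sz F) := by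
    have h2 : R ^ F.totalDegree = Real.exp (Real.log R * F.totalDegree) := by
      rw [mul_comm, Real.exp_nat_mul, Real.exp_log (by linarith)]
    rw [h2, Real.exp_le_exp]
    exact mul_le_mul_of_nonneg_left (totalDegree_le_sz hF) (Real.log_nonneg hR)
  rw [add_mul, Real.exp_add]
  exact mul_le_mul (len_toC_le hF hn hn1) h1 (by positivity) (by positivity)

/-! ## tuples of hyperplanes -/

theorem thr_zero {m r : ℕ} (θ : Fin m → ℂ) (u : Fin r × Fin m → ℂ) (i : Fin r) :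
    thr θ u (i, 0) = -∑ j, u (i, j) * θ j := rfl

theorem thr_succ {m r : ℕ} (θ : Fin m → ℂ) (u : Fin r × Fin m → ℂ) (i : Fin r) (j : Fin m) :
    thr θ u (i, j.succ) = u (i, j) := rfl

theorem norm_thr_le {m r : ℕ} (θ : Fin m → ℂ) (u : Fin r × Fin m → ℂ) (hu : ∀ ij, ‖u ij‖ ≤ 1)
    (ij : Fin r × Fin (m+1)) : ‖thr θ u ij‖ ≤ 1 + m * ‖θ‖ := by
  obtain ⟨i, j⟩ := ij
  have h0 : 0 ≤ (m : ℝ) * ‖θ‖ := by positivity
  refine Fin.cases ?_ (fun j => ?_) j
  · rw [thr_zero, norm_neg]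
    have h1 : ‖∑ j, u (i, j) * θ j‖ ≤ ∑ _j : Fin m, ‖θ‖ := by
      refine (norm_sum_le _ _).trans (Finset.sum_le_sum fun j _ => ?_)
      rw [norm_mul]
      have := mul_le_mul (hu (i, j)) (norm_le_pi_norm θ j) (norm_nonneg _) zero_le_one
      rwa [one_mul] at this
    rw [Finset.sum_const, Finset.card_univ, Fintype.card_fin, nsmul_eq_mul] at h1
    linarith
  · rw [thr_succ]
    linarith [hu (i, j)]

theorem norm_thr_sub_le {m r : ℕ} (p θ : Fin m → ℂ) (u : Fin r × Fin m → ℂ)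
    (hu : ∀ ij, ‖u ij‖ ≤ 1) (ij : Fin r × Fin (m+1)) :
    ‖thr p u ij - thr θ u ij‖ ≤ m * ‖p - θ‖ := by
  obtain ⟨i, j⟩ := ij
  refine Fin.cases ?_ (fun j => ?_) j
  · rw [thr_zero, thr_zero]
    have h0 : -∑ j, u (i, j) * p j - -∑ j, u (i, j) * θ j = -∑ j, u (i, j) * (p - θ) j := by
      simp only [Pi.sub_apply, mul_sub, Finset.sum_sub_distrib]
      ring
    rw [h0, norm_neg]
    have h1 : ‖∑ j, u (i, j) * (p - θ) j‖ ≤ ∑ _j : Fin m, ‖p - θ‖ := by
      refine (norm_sum_le _ _).trans (Finset.sum_le_sum fun j _ => ?_)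
      rw [norm_mul]
      have := mul_le_mul (hu (i, j)) (norm_le_pi_norm (p - θ) j) (norm_nonneg _) zero_le_one
      rwa [one_mul] at this
    rw [Finset.sum_const, Finset.card_univ, Fintype.card_fin, nsmul_eq_mul] at h1
    exact h1
  · rw [thr_succ, thr_succ, sub_self, norm_zero]
    positivity

/-! ## vanishing on the variety -/

/-- the Chow form with `u_i0` replaced by `-∑ u_ij x_j`, `x_j` variables -/
noncomputable def sub0 {m r : ℕ} (F : MvPolynomial (Fin r × Fin (m+1)) ℤ) :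
    MvPolynomial (Fin r × Fin m) (MvPolynomial (Fin m) ℤ) :=
  aeval (fun ij : Fin r × Fin (m+1) =>
    Fin.cases (motive := fun _ => MvPolynomial (Fin r × Fin m) (MvPolynomial (Fin m) ℤ))
      (-∑ j : Fin m, X (ij.1, j) * C (X j)) (fun j => X (ij.1, j)) ij.2) F

theorem eval_sub0 {m r : ℕ} (F : MvPolynomial (Fin r × Fin (m+1)) ℤ) (p : Fin m → ℂ)
    (u : Fin r × Fin m → ℂ) :
    eval₂ (aeval p : MvPolynomial (Fin m) ℤ →ₐ[ℤ] ℂ).toRingHom u (sub0 F) = aeval (thr p u) F := by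
  have h : (eval₂Hom (aeval p : MvPolynomial (Fin m) ℤ →ₐ[ℤ] ℂ).toRingHom u).comp
      (aeval (fun ij : Fin r × Fin (m+1) =>
        Fin.cases (motive := fun _ => MvPolynomial (Fin r × Fin m) (MvPolynomial (Fin m) ℤ))
        (-∑ j : Fin m, X (ij.1, j) * C (X j)) (fun j => X (ij.1, j)) ij.2) :
        MvPolynomial (Fin r × Fin (m+1)) ℤ →ₐ[ℤ] _).toRingHom
      = (aeval (thr p u) : MvPolynomial (Fin r × Fin (m+1)) ℤ →ₐ[ℤ] ℂ).toRingHom := by
    apply MvPolynomial.ringHom_ext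
    · intro c
      simp
    · rintro ⟨i, j⟩
      refine Fin.cases ?_ (fun j => ?_) j
      · simp [thr_zero]
      · simp [thr_succ]
  exact RingHom.congr_fun h F

theorem vanish_onV {m r : ℕ} {ξ : Fin m → ℂ} {F : MvPolynomial (Fin r × Fin (m+1)) ℤ}
    (hF : ∀ u : Fin r × Fin m → ℂ, aeval (thr ξ u) F = 0) {p : Fin m → ℂ} (hp : OnV ξ p)
    (u : Fin r × Fin m → ℂ) : aeval (thr p u) F = 0 := by
  have h1 : MvPolynomial.map (aeval ξ : MvPolynomial (Fin m) ℤ →ₐ[ℤ] ℂ).toRingHom (sub0 F) = 0 := by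
    apply MvPolynomial.funext
    intro v
    rw [eval_map, eval_sub0, hF, map_zero]
  have h2 : MvPolynomial.map (aeval p : MvPolynomial (Fin m) ℤ →ₐ[ℤ] ℂ).toRingHom (sub0 F) = 0 := by
    ext α
    rw [coeff_map, coeff_zero]
    apply hp
    have h3 := congrArg (coeff α) h1
    rw [coeff_map, coeff_zero] at h3
    exact h3
  rw [← eval_sub0, ← eval_map, h2, map_zero]

/-! ## a variety with a close point is close -/

theorem close : SClose := by
  intro m θ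
  set R : ℝ := 1 + m * (‖θ‖ + 1) with hR
  have hθ : 0 ≤ ‖θ‖ := norm_nonneg _
  have hm0 : (0 : ℝ) ≤ m := Nat.cast_nonneg _
  have hR1 : 1 ≤ R := by rw [hR]; nlinarith
  have hlog : 0 ≤ Real.log R := Real.log_nonneg hR1
  refine ⟨(m + 1) ^ 2 + Real.log R + 1 + m, by nlinarith, ?_⟩
  intro r ξ F hF p ℓ hp hpθ u hu
  have hF0 : F ≠ 0 := hF.chow.1
  obtain ⟨hrm, hd1, hsz1⟩ := sz1 m r ξ F hF
  have hcard : Fintype.card (Fin (r+1) × Fin (m+1)) ≤ (m+1) ^ 2 := by
    rw [Fintype.card_prod, Fintype.card_fin, Fintype.card_fin, sq]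
    exact Nat.mul_le_mul_right _ (by omega)
  have hn1 : 1 ≤ (m+1) ^ 2 := Nat.one_le_pow _ _ (by omega)
  have hsz0 : 0 ≤ sz F := by linarith
  rcases le_or_gt ℓ 0 with hℓ | hℓ
  · -- trivial bound
    have h1 := norm_aeval_le hF0 hcard hn1 (thr θ u) R hR1 (fun ij =>
      (norm_thr_le θ u hu ij).trans (by rw [hR]; nlinarith))
    refine h1.trans (Real.exp_le_exp.2 ?_)
    push_cast
    nlinarith
  · have hp1 : ‖p - θ‖ ≤ 1 := hpθ.trans (by
      rw [← Real.exp_zero]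
      exact Real.exp_le_exp.2 (by linarith))
    have hpn : ‖p‖ ≤ ‖θ‖ + 1 := by
      have : p = θ + (p - θ) := by abel
      rw [this]
      exact (norm_add_le _ _).trans (by linarith)
    have h1 := norm_eval_sub_le (toC F) (thr θ u) (thr p u) R (m * ‖p - θ‖) hR1
      (fun ij => (norm_thr_le θ u hu ij).trans (by rw [hR]; nlinarith))
      (fun ij => (norm_thr_le p u hu ij).trans (by rw [hR]; nlinarith))
      (fun ij => by rw [norm_sub_rev]; exact norm_thr_sub_le p θ u hu ij)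
      (by positivity) F.totalDegree (totalDegree_toC F).le
    rw [eval_toC, eval_toC, vanish_onV (vanish hF) hp u, sub_zero] at h1
    refine h1.trans ?_
    have h2 := len_toC_le hF0 hcard hn1
    have h3 : (F.totalDegree : ℝ) ≤ Real.exp (sz F) := by
      have := Real.add_one_le_exp (sz F)
      linarith [totalDegree_le_sz hF0]
    have h4 : R ^ (F.totalDegree - 1) ≤ Real.exp (Real.log R * sz F) := by
      have h5 : R ^ (F.totalDegree - 1) ≤ R ^ F.totalDegree := pow_le_pow_right₀ hR1 (by omega)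
      have h6 : R ^ F.totalDegree = Real.exp (Real.log R * F.totalDegree) := by
        rw [mul_comm, Real.exp_nat_mul, Real.exp_log (by linarith)]
      refine h5.trans ?_
      rw [h6, Real.exp_le_exp]
      exact mul_le_mul_of_nonneg_left (totalDegree_le_sz hF0) hlog
    have h7 : (m : ℝ) ≤ Real.exp (m * sz F) := by
      have := Real.add_one_le_exp (m * sz F)
      nlinarith
    have h8 : (m : ℝ) * ‖p - θ‖ ≤ Real.exp (m * sz F) * Real.exp (-ℓ) :=
      mul_le_mul h7 hpθ (norm_nonneg _) (Real.exp_nonneg _)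
    have h9 : len (toC F) * (F.totalDegree * R ^ (F.totalDegree - 1) * (m * ‖p - θ‖)) ≤
        Real.exp (((m+1) ^ 2 : ℕ) * sz F) * (Real.exp (sz F) * Real.exp (Real.log R * sz F) *
          (Real.exp (m * sz F) * Real.exp (-ℓ))) := by
      refine mul_le_mul h2 ?_ (by positivity) (by positivity)
      refine mul_le_mul ?_ h8 (by positivity) (by positivity)
      exact mul_le_mul h3 h4 (by positivity) (by positivity)
    refine h9.trans (le_of_eq ?_)
    rw [← Real.exp_add, ← Real.exp_add, ← Real.exp_add, ← Real.exp_add]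
    congr 1
    push_cast
    ring

/-! ## products over the points of a splitting -/

theorem thr_consU {m r : ℕ} (θ w : Fin m → ℂ) (u : Fin r × Fin m → ℂ) :
    consU (Fin.cases (motive := fun _ => ℂ) (-∑ j, w j * θ j) w) (thr θ u) =
      thr θ (fun ij : Fin (r+1) × Fin m =>
        Fin.cases (motive := fun _ => ℂ) (w ij.2) (fun i => u (i, ij.2)) ij.1) := by
  funext ij
  obtain ⟨i, j⟩ := ij
  refine Fin.cases ?_ (fun i => ?_) i
  · refine Fin.cases ?_ (fun j => ?_) j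
    · rfl
    · rfl
  · refine Fin.cases ?_ (fun j => ?_) j
    · rfl
    · rfl

theorem prod_dist_le (h : SProdLin) {m r : ℕ} (θ : Fin m → ℂ)
    (F : MvPolynomial (Fin (r+1) × Fin (m+1)) ℤ) (B : ℝ) (hB : Val θ F B)
    (u : Fin r × Fin m → ℂ) (hu : ∀ ij, ‖u ij‖ ≤ 1) (δ : ℕ) (a : ℂ) (p : Fin δ → Fin m → ℂ)
    (hp : ∀ w : Fin (m+1) → ℂ, aeval (consU w (thr θ u)) F =
        a * ∏ σ, (w 0 + ∑ j : Fin m, w j.succ * p σ j)) :
    ‖a‖ * ∏ σ, ‖p σ - θ‖ ≤ 2 ^ (m * δ) * Real.exp (-B) := by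
  apply h m δ (fun σ => p σ - θ) a
  intro w hw
  have h1 := hp (Fin.cases (motive := fun _ => ℂ) (-∑ j, w j * θ j) w)
  have h2 : ∀ σ, ((Fin.cases (motive := fun _ => ℂ) (-∑ j, w j * θ j) w : Fin (m+1) → ℂ) 0 +
      ∑ j : Fin m, (Fin.cases (motive := fun _ => ℂ) (-∑ j, w j * θ j) w : Fin (m+1) → ℂ) j.succ *
        p σ j) = ∑ j, w j * (p σ - θ) j := by
    intro σ
    show -∑ j, w j * θ j + ∑ j, w j * p σ j = _
    simp only [Pi.sub_apply, mul_sub, Finset.sum_sub_distrib]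
    ring
  rw [thr_consU, Finset.prod_congr rfl fun σ _ => h2 σ] at h1
  rw [← h1]
  apply hB
  rintro ⟨i, j⟩
  refine Fin.cases ?_ (fun i => ?_) i
  · exact hw j
  · exact hu (i, j)

theorem prod_size_le (h : SProdLin) {m r : ℕ} (θ : Fin m → ℂ)
    (F : MvPolynomial (Fin (r+1) × Fin (m+1)) ℤ) (A : ℝ)
    (hA : ∀ U : Fin (r+1) × Fin (m+1) → ℂ, (∀ ij, ‖U ij‖ ≤ 1 + m * ‖θ‖) → ‖aeval U F‖ ≤ A)
    (u : Fin r × Fin m → ℂ) (hu : ∀ ij, ‖u ij‖ ≤ 1) (δ : ℕ) (a : ℂ) (p : Fin δ → Fin m → ℂ)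
    (hp : ∀ w : Fin (m+1) → ℂ, aeval (consU w (thr θ u)) F =
        a * ∏ σ, (w 0 + ∑ j : Fin m, w j.succ * p σ j)) :
    ‖a‖ * ∏ σ, ‖(Fin.cons 1 (p σ) : Fin (m+1) → ℂ)‖ ≤ 2 ^ ((m+1) * δ) * A := by
  apply h (m+1) δ (fun σ => (Fin.cons 1 (p σ) : Fin (m+1) → ℂ)) a
  intro w hw
  have h2 : ∀ σ, ∑ j, w j * (Fin.cons 1 (p σ) : Fin (m+1) → ℂ) j =
      w 0 + ∑ j : Fin m, w j.succ * p σ j := by
    intro σ
    rw [Fin.sum_univ_succ, Fin.cons_zero, mul_one]
    simp only [Fin.cons_succ]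
  rw [Finset.prod_congr rfl fun σ _ => h2 σ, ← hp w]
  apply hA
  rintro ⟨i, j⟩
  have h0 : 0 ≤ (m : ℝ) * ‖θ‖ := by positivity
  refine Fin.cases ?_ (fun i => ?_) i
  · show ‖w j‖ ≤ _
    linarith [hw j]
  · exact norm_thr_le θ u hu (i, j)

theorem one_le_norm_cons {m : ℕ} (p : Fin m → ℂ) : 1 ≤ ‖(Fin.cons 1 p : Fin (m+1) → ℂ)‖ := by
  have := norm_le_pi_norm (Fin.cons 1 p : Fin (m+1) → ℂ) 0
  simpa using this

theorem norm_le_norm_cons {m : ℕ} (p : Fin m → ℂ) (j : Fin m) :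
    ‖p j‖ ≤ ‖(Fin.cons 1 p : Fin (m+1) → ℂ)‖ := by
  have := norm_le_pi_norm (Fin.cons 1 p : Fin (m+1) → ℂ) j.succ
  simpa using this

/-- values of a function at a point -/
theorem eval_le {m : ℕ} (θ p : Fin m → ℂ) (G : MvPolynomial (Fin m) ℂ) (N : ℕ) (hN1 : 1 ≤ N)
    (hN : G.totalDegree ≤ N) (hlen : len G ≤ Real.exp N) (μ : ℝ) (hμ : 1 ≤ μ)
    (hp : ∀ j, ‖p j‖ ≤ μ) :
    ‖eval p G‖ ≤ ‖eval θ G‖ + Real.exp (N * (2 + Real.log (1 + ‖θ‖))) * μ ^ (N - 1) * ‖p - θ‖ ∧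
      ‖eval p G‖ ≤ Real.exp (N * (2 + Real.log (1 + ‖θ‖))) * μ ^ N := by
  have hθ : 0 ≤ ‖θ‖ := norm_nonneg _
  have hlog : 0 ≤ Real.log (1 + ‖θ‖) := Real.log_nonneg (by linarith)
  have hN0 : (1 : ℝ) ≤ N := by exact_mod_cast hN1
  have hM : (1 + ‖θ‖) ^ N = Real.exp (N * Real.log (1 + ‖θ‖)) := by
    rw [Real.exp_nat_mul, Real.exp_log (by linarith)]
  have hE : Real.exp (N * (2 + Real.log (1 + ‖θ‖))) =
      Real.exp N * Real.exp N * (1 + ‖θ‖) ^ N := by
    rw [hM, ← Real.exp_add, ← Real.exp_add]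
    congr 1
    ring
  constructor
  · have h1 := norm_eval_sub_le G p θ ((1 + ‖θ‖) * μ) ‖p - θ‖ (by nlinarith)
      (fun j => (hp j).trans (by nlinarith)) (fun j => (norm_le_pi_norm θ j).trans (by nlinarith))
      (fun j => norm_le_pi_norm (p - θ) j) (norm_nonneg _) N hN
    have h2 : ‖eval p G‖ ≤ ‖eval θ G‖ + ‖eval p G - eval θ G‖ := by
      have : eval p G = eval θ G + (eval p G - eval θ G) := by ring
      calc ‖eval p G‖ = ‖eval θ G + (eval p G - eval θ G)‖ := by rw [← this]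
        _ ≤ _ := norm_add_le _ _
    refine h2.trans (add_le_add le_rfl (h1.trans ?_))
    rw [hE, mul_pow, ← mul_assoc]
    refine mul_le_mul_of_nonneg_right ?_ (norm_nonneg _)
    have h3 : (N : ℝ) ≤ Real.exp N := by
      have := Real.add_one_le_exp (N : ℝ)
      linarith
    have h4 : (1 + ‖θ‖) ^ (N - 1) ≤ (1 + ‖θ‖) ^ N :=
      pow_le_pow_right₀ (by linarith) (by omega)
    have hμ0 : 0 ≤ μ ^ (N - 1) := by positivity
    calc len G * (N * ((1 + ‖θ‖) ^ (N - 1) * μ ^ (N - 1)))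
        = (len G * N) * (1 + ‖θ‖) ^ (N - 1) * μ ^ (N - 1) := by ring
      _ ≤ (Real.exp N * Real.exp N) * (1 + ‖θ‖) ^ N * μ ^ (N - 1) := by
          refine mul_le_mul_of_nonneg_right ?_ hμ0
          refine mul_le_mul ?_ h4 (by positivity) (by positivity)
          exact mul_le_mul hlen h3 (by positivity) (by positivity)
  · have h1 := norm_eval_le G p μ hμ hp N hN
    refine h1.trans ?_
    have hμ0 : 0 ≤ μ ^ N := by positivity
    refine mul_le_mul_of_nonneg_right ?_ hμ0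
    rw [hE]
    have h2 : (1 : ℝ) ≤ Real.exp N := Real.one_le_exp (by linarith)
    have h3 : (1 : ℝ) ≤ (1 + ‖θ‖) ^ N := one_le_pow₀ (by linarith)
    calc len G ≤ Real.exp N * 1 * 1 := by linarith
      _ ≤ Real.exp N * Real.exp N * (1 + ‖θ‖) ^ N := by
          refine mul_le_mul (mul_le_mul le_rfl h2 zero_le_one (by positivity)) h3 zero_le_one
            (by positivity)

/-- the product estimate -/
theorem prod_eval_le {m δ : ℕ} (θ : Fin m → ℂ) (p : Fin δ → Fin m → ℂ) (a : ℂ) (N : ℕ)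
    (hN : 1 ≤ N) (E Y D B : ℝ) (μ : Fin δ → ℝ) (hE : 1 ≤ E) (hY : 1 ≤ Y) (hD : 1 ≤ D)
    (hμ : ∀ σ, 1 ≤ μ σ) (x : ℝ) (hx : 0 ≤ x) (y : Fin δ → ℝ) (hy : ∀ σ, 0 ≤ y σ)
    (h1 : ∀ σ, y σ ≤ x + E * μ σ ^ (N - 1) * ‖p σ - θ‖) (h2 : ∀ σ, y σ ≤ E * μ σ ^ N)
    (hYb : ‖a‖ * ∏ σ, μ σ ≤ Y) (hdist : ‖a‖ * ∏ σ, ‖p σ - θ‖ ≤ D * Real.exp (-B))
    (hor : x ≤ Real.exp (-B) ∨ ∀ σ, x ≤ ‖p σ - θ‖) :
    ‖a‖ ^ N * ∏ σ, y σ ≤ (2 * E) ^ δ * Y ^ N * D * Real.exp (-B) := by
  classical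
  have hμ0 : ∀ σ, 0 ≤ μ σ := fun σ => by linarith [hμ σ]
  have hE0 : 0 ≤ E := by linarith
  have ha0 : 0 ≤ ‖a‖ := norm_nonneg _
  have hY0 : 0 ≤ Y := by linarith
  have hprodμ : 0 ≤ ∏ σ, μ σ := Finset.prod_nonneg fun σ _ => hμ0 σ
  by_cases hall : ∀ σ, x ≤ ‖p σ - θ‖
  · have h3 : ∀ σ, y σ ≤ (2 * E) * μ σ ^ (N - 1) * ‖p σ - θ‖ := by
      intro σ
      have h4 : 1 ≤ E * μ σ ^ (N - 1) :=
        one_le_mul_of_one_le_of_one_le hE (one_le_pow₀ (hμ σ))
      have h5 : x ≤ E * μ σ ^ (N - 1) * ‖p σ - θ‖ := by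
        have := hall σ
        nlinarith [norm_nonneg (p σ - θ)]
      have := h1 σ
      nlinarith
    have h4 : ∏ σ, y σ ≤ ∏ σ, ((2 * E) * μ σ ^ (N - 1) * ‖p σ - θ‖) :=
      Finset.prod_le_prod (fun σ _ => hy σ) fun σ _ => h3 σ
    rw [Finset.prod_mul_distrib, Finset.prod_mul_distrib, Finset.prod_const, Finset.card_univ,
      Fintype.card_fin, Finset.prod_pow] at h4
    obtain ⟨k, rfl⟩ : ∃ k, N = k + 1 := ⟨N - 1, by omega⟩
    rw [Nat.add_sub_cancel] at h4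
    have h5 : ‖a‖ ^ (k+1) * ∏ σ, y σ ≤
        (2 * E) ^ δ * (‖a‖ * ∏ σ, μ σ) ^ k * (‖a‖ * ∏ σ, ‖p σ - θ‖) := by
      calc ‖a‖ ^ (k+1) * ∏ σ, y σ ≤ ‖a‖ ^ (k+1) *
            ((2 * E) ^ δ * (∏ σ, μ σ) ^ k * ∏ σ, ‖p σ - θ‖) :=
            mul_le_mul_of_nonneg_left h4 (by positivity)
        _ = _ := by ring
    have h6 : (‖a‖ * ∏ σ, μ σ) ^ k ≤ Y ^ (k+1) :=
      (pow_le_pow_left₀ (mul_nonneg ha0 hprodμ) hYb k).trans (pow_le_pow_right₀ hY (by omega))
    have h7 : 0 ≤ ‖a‖ * ∏ σ, ‖p σ - θ‖ :=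
      mul_nonneg ha0 (Finset.prod_nonneg fun _ _ => norm_nonneg _)
    refine h5.trans ?_
    have h8 : (2 * E) ^ δ * (‖a‖ * ∏ σ, μ σ) ^ k * (‖a‖ * ∏ σ, ‖p σ - θ‖) ≤
        (2 * E) ^ δ * Y ^ (k+1) * (D * Real.exp (-B)) :=
      mul_le_mul (mul_le_mul_of_nonneg_left h6 (by positivity)) hdist h7 (by positivity)
    linarith
  · have hx1 : x ≤ Real.exp (-B) := hor.resolve_right hall
    push Not at hall
    obtain ⟨τ, hτ⟩ := hall
    have h3 : ∀ σ, y σ ≤ (2 * E) * μ σ ^ N * (if σ = τ then Real.exp (-B) else 1) := by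
      intro σ
      by_cases hσ : σ = τ
      · subst hσ
        rw [if_pos rfl]
        have h4 : 1 ≤ E * μ σ ^ N :=
          one_le_mul_of_one_le_of_one_le hE (one_le_pow₀ (hμ σ))
        have h5 : μ σ ^ (N - 1) ≤ μ σ ^ N := pow_le_pow_right₀ (hμ σ) (by omega)
        have h6 : E * μ σ ^ (N - 1) * ‖p σ - θ‖ ≤ E * μ σ ^ N * Real.exp (-B) := by
          refine mul_le_mul (mul_le_mul_of_nonneg_left h5 hE0) (hτ.le.trans hx1) (norm_nonneg _)
            (by positivity)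
        have h7 : x ≤ E * μ σ ^ N * Real.exp (-B) := by
          have := Real.exp_pos (-B)
          nlinarith
        have := h1 σ
        linarith
      · rw [if_neg hσ]
        have h4 : 0 ≤ E * μ σ ^ N := by
          have := hμ0 σ
          positivity
        have := h2 σ
        linarith
    have h4 : ∏ σ, y σ ≤ ∏ σ, ((2 * E) * μ σ ^ N * (if σ = τ then Real.exp (-B) else 1)) :=
      Finset.prod_le_prod (fun σ _ => hy σ) fun σ _ => h3 σ
    rw [Finset.prod_mul_distrib, Finset.prod_mul_distrib, Finset.prod_const, Finset.card_univ,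
      Fintype.card_fin, Finset.prod_pow, Finset.prod_ite_eq' Finset.univ τ,
      if_pos (Finset.mem_univ _)] at h4
    have h5 : ‖a‖ ^ N * ∏ σ, y σ ≤
        (2 * E) ^ δ * (‖a‖ * ∏ σ, μ σ) ^ N * Real.exp (-B) := by
      calc ‖a‖ ^ N * ∏ σ, y σ ≤ ‖a‖ ^ N * ((2 * E) ^ δ * (∏ σ, μ σ) ^ N * Real.exp (-B)) :=
            mul_le_mul_of_nonneg_left h4 (by positivity)
        _ = _ := by ring
    have h6 : (‖a‖ * ∏ σ, μ σ) ^ N ≤ Y ^ N :=
      pow_le_pow_left₀ (mul_nonneg ha0 hprodμ) hYb N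
    refine h5.trans ?_
    have h8 : (2 * E) ^ δ * (‖a‖ * ∏ σ, μ σ) ^ N * Real.exp (-B) ≤
        (2 * E) ^ δ * Y ^ N * Real.exp (-B) :=
      mul_le_mul_of_nonneg_right (mul_le_mul_of_nonneg_left h6 (by positivity))
        (Real.exp_nonneg _)
    refine h8.trans ?_
    have h9 : 0 ≤ (2 * E) ^ δ * Y ^ N * Real.exp (-B) := by positivity
    nlinarith

/-! ## density -/

theorem exists_ne_zero {ι : Type} [Fintype ι] {a : MvPolynomial ι ℤ} (ha : a ≠ 0) :
    ∃ v : ι → ℂ, (∀ i, ‖v i‖ ≤ 1) ∧ aeval v a ≠ 0 := by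
  by_contra hcon
  push Not at hcon
  apply toC_ne_zero ha
  have hinf : ∀ i : ι, (fun _ : ι => Metric.closedBall (0 : ℂ) 1) i |>.Infinite := by
    intro _
    have : (Metric.ball (0 : ℂ) 1).Infinite := by
      exact infinite_of_mem_nhds (0 : ℂ) (Metric.ball_mem_nhds _ one_pos)
    exact this.mono Metric.ball_subset_closedBall
  refine funext_set (fun _ : ι => Metric.closedBall (0 : ℂ) 1) hinf ?_
  intro x hx
  rw [eval_toC, map_zero]
  apply hcon
  intro i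
  have := hx i (Set.mem_univ _)
  simpa using this

theorem dense_aux {ι : Type} [Fintype ι] {a : MvPolynomial ι ℤ} (ha : a ≠ 0)
    (f : (ι → ℂ) → ℝ) (hf : Continuous f) (c : ℝ)
    (h : ∀ u : ι → ℂ, (∀ i, ‖u i‖ ≤ 1) → aeval u a ≠ 0 → f u ≤ c) :
    ∀ u : ι → ℂ, (∀ i, ‖u i‖ ≤ 1) → f u ≤ c := by
  intro u hu
  obtain ⟨v, hv, hva⟩ := exists_ne_zero ha
  let q : Polynomial ℂ :=
    aeval (fun i => Polynomial.C (u i) + Polynomial.C (v i - u i) * Polynomial.X) a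
  have hq : ∀ t : ℂ, q.eval t = aeval (fun i => u i + (v i - u i) * t) a := by
    intro t
    have h1 : (Polynomial.evalRingHom t).comp
        (aeval (fun i => Polynomial.C (u i) + Polynomial.C (v i - u i) * Polynomial.X) :
          MvPolynomial ι ℤ →ₐ[ℤ] Polynomial ℂ).toRingHom
        = (aeval (fun i => u i + (v i - u i) * t) : MvPolynomial ι ℤ →ₐ[ℤ] ℂ).toRingHom := by
      apply MvPolynomial.ringHom_ext
      · intro n; simp
      · intro i; simp
    exact RingHom.congr_fun h1 a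
  have hq0 : q ≠ 0 := by
    intro h0
    apply hva
    have h1 := hq 1
    rw [h0, Polynomial.eval_zero] at h1
    rw [h1]
    congr 2
    funext i
    ring
  have hfin : {t : ℝ | q.IsRoot (t : ℂ)}.Finite := by
    have h1 : {z : ℂ | q.IsRoot z}.Finite := Polynomial.finite_setOfPred_isRoot hq0
    exact h1.preimage (Complex.ofReal_injective.injOn)
  have hev : ∀ᶠ t : ℝ in nhdsWithin (0 : ℝ) (Set.Ioi 0), ¬ q.IsRoot (t : ℂ) := by
    have h1 : ({t : ℝ | q.IsRoot (t : ℂ)} \ {0})ᶜ ∈ nhds (0 : ℝ) :=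
      (hfin.sdiff).isClosed.isOpen_compl.mem_nhds (by simp)
    filter_upwards [mem_nhdsWithin_of_mem_nhds h1, self_mem_nhdsWithin] with t ht ht0 hroot
    exact ht ⟨hroot, fun h0 => (ne_of_gt ht0) h0⟩
  have hle1 : ∀ᶠ t : ℝ in nhdsWithin (0 : ℝ) (Set.Ioi 0), t ≤ 1 :=
    mem_nhdsWithin_of_mem_nhds (Iic_mem_nhds one_pos)
  have hcont : Filter.Tendsto (fun t : ℝ => f (fun i => u i + (v i - u i) * (t : ℂ)))
      (nhdsWithin (0 : ℝ) (Set.Ioi 0)) (nhds (f u)) := by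
    have h1 : Continuous fun t : ℝ => f (fun i => u i + (v i - u i) * (t : ℂ)) := by
      apply hf.comp
      fun_prop
    have h2 := h1.tendsto 0
    have h3 : (fun i => u i + (v i - u i) * ((0 : ℝ) : ℂ)) = u := by
      funext i
      simp
    rw [h3] at h2
    exact h2.mono_left nhdsWithin_le_nhds
  refine le_of_tendsto hcont ?_
  filter_upwards [hev, hle1, self_mem_nhdsWithin] with t ht ht1 ht0
  apply h
  · intro i
    have h1 : u i + (v i - u i) * (t : ℂ) = ((1 - t : ℝ) : ℂ) * u i + (t : ℂ) * v i := by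
      push_cast
      ring
    rw [h1]
    refine (norm_add_le _ _).trans ?_
    rw [norm_mul, norm_mul, Complex.norm_real, Complex.norm_real, Real.norm_of_nonneg,
      Real.norm_of_nonneg]
    · have h2 := hu i
      have h3 := hv i
      have h4 : (0 : ℝ) < t := ht0
      nlinarith
    · exact le_of_lt ht0
    · linarith
  · rw [← hq]
    exact ht

/-! ## the main estimates -/

theorem two_pow_le (k : ℕ) : (2 : ℝ) ^ k ≤ Real.exp k := by
  have h1 : (2 : ℝ) ≤ Real.exp 1 := by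
    have := Real.add_one_le_exp (1 : ℝ)
    linarith
  calc (2 : ℝ) ^ k ≤ (Real.exp 1) ^ k := pow_le_pow_left₀ (by norm_num) h1 k
    _ = Real.exp k := by rw [← Real.exp_nat_mul, mul_one]

theorem delta_le {m r : ℕ} {ξ : Fin m → ℂ} {F : MvPolynomial (Fin (r+1) × Fin (m+1)) ℤ}
    (hF : IsVar r ξ F) (S : Split r ξ F) : (S.δ : ℝ) ≤ sz F := by
  have h1 : S.δ ≤ F.totalDegree := by
    rw [S.δ_eq]
    exact degreeOf_le_totalDegree _ _
  have h2 : (S.δ : ℝ) ≤ F.totalDegree := by exact_mod_cast h1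
  exact h2.trans (totalDegree_le_sz hF.chow.1)

theorem val (h : SProdLin) : SVal := by
  intro m θ
  have hθ : 0 ≤ ‖θ‖ := norm_nonneg _
  have hm0 : (0 : ℝ) ≤ m := Nat.cast_nonneg _
  have hR1 : 1 ≤ 1 + m * ‖θ‖ := by nlinarith
  have hL1 : 0 ≤ Real.log (1 + ‖θ‖) := Real.log_nonneg (by linarith)
  have hL2 : 0 ≤ Real.log (1 + m * ‖θ‖) := Real.log_nonneg hR1
  set L₁ := Real.log (1 + ‖θ‖) with hL₁
  set L₂ := Real.log (1 + m * ‖θ‖) with hL₂
  refine ⟨1 + (2 + L₁) + ((m + 1) + ((m + 1) ^ 2 + L₂)) + m, by nlinarith, ?_⟩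
  intro r ξ F hF S N Q G hN hRep hlen B hB hor
  have hF0 : F ≠ 0 := hF.chow.1
  obtain ⟨hrm, hd1, hsz1⟩ := sz1 m r ξ F hF
  have hδ := delta_le hF S
  have hδ0 : (0 : ℝ) ≤ S.δ := Nat.cast_nonneg _
  have hN1 : (1 : ℝ) ≤ N := by exact_mod_cast hN
  have hcard : Fintype.card (Fin (r+1) × Fin (m+1)) ≤ (m+1) ^ 2 := by
    rw [Fintype.card_prod, Fintype.card_fin, Fintype.card_fin, sq]
    exact Nat.mul_le_mul_right _ (by omega)
  have hn1 : 1 ≤ (m+1) ^ 2 := Nat.one_le_pow _ _ (by omega)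
  have hcont : Continuous fun u : Fin r × Fin m → ℂ => ‖aeval (thr θ u) (S.g Q N)‖ := by
    have h1 : Continuous fun u : Fin r × Fin m → ℂ => thr θ u := by
      apply continuous_pi
      rintro ⟨i, j⟩
      refine Fin.cases ?_ (fun j => ?_) j
      · simp only [thr_zero]
        fun_prop
      · simp only [thr_succ]
        fun_prop
    have h2 : Continuous fun x : Fin r × Fin (m+1) → ℂ => aeval x (S.g Q N) := by
      simp only [← eval_toC]
      exact MvPolynomial.continuous_eval _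
    exact (h2.comp h1).norm
  refine dense_aux S.a_ne _ hcont _ ?_
  intro u hu hau
  obtain ⟨p, hon, -, hfac, hg⟩ := S.pts (thr θ u) (by
    simp only [thr_succ]
    exact hau)
  simp only [thr_succ] at hfac hg
  set a : ℂ := aeval u S.a with ha
  have hfac' : ∀ w : Fin (m+1) → ℂ, aeval (consU w (thr θ u)) F =
      a * ∏ σ, (w 0 + ∑ j : Fin m, w j.succ * p σ j) := hfac
  have hgQ : aeval (thr θ u) (S.g Q N) = a ^ N * ∏ σ, aeval (p σ) Q := hg Q N hRep.1
  have hdist := prod_dist_le h θ F B hB u hu S.δ a p hfac'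
  have hsize := prod_size_le h θ F (Real.exp ((((m+1) ^ 2 : ℕ) + L₂) * sz F))
    (fun U hU => norm_aeval_le hF0 hcard hn1 U _ hR1 hU) u hu S.δ a p hfac'
  have hE1 : 1 ≤ Real.exp (N * (2 + L₁)) := Real.one_le_exp (by positivity)
  have hY1 : (1 : ℝ) ≤ 2 ^ ((m+1) * S.δ) * Real.exp ((((m+1) ^ 2 : ℕ) + L₂) * sz F) := by
    refine one_le_mul_of_one_le_of_one_le (one_le_pow₀ (by norm_num)) (Real.one_le_exp ?_)
    positivity
  have hD1 : (1 : ℝ) ≤ 2 ^ (m * S.δ) := one_le_pow₀ (by norm_num)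
  have hmain := prod_eval_le θ p a N hN (Real.exp (N * (2 + L₁)))
    (2 ^ ((m+1) * S.δ) * Real.exp ((((m+1) ^ 2 : ℕ) + L₂) * sz F)) (2 ^ (m * S.δ)) B
    (fun σ => ‖(Fin.cons 1 (p σ) : Fin (m+1) → ℂ)‖) hE1 hY1 hD1
    (fun σ => one_le_norm_cons (p σ)) ‖eval θ G‖ (norm_nonneg _) (fun σ => ‖eval (p σ) G‖)
    (fun σ => norm_nonneg _)
    (fun σ => (eval_le θ (p σ) G N hN hRep.2.1 hlen _ (one_le_norm_cons (p σ))
      (norm_le_norm_cons (p σ))).1)
    (fun σ => (eval_le θ (p σ) G N hN hRep.2.1 hlen _ (one_le_norm_cons (p σ))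
      (norm_le_norm_cons (p σ))).2) hsize hdist
    (hor.imp_right fun h1 σ => h1 (p σ) (hon σ))
  have hval : ‖aeval (thr θ u) (S.g Q N)‖ = ‖a‖ ^ N * ∏ σ, ‖eval (p σ) G‖ := by
    rw [hgQ, norm_mul, norm_pow, norm_prod]
    congr 1
    exact Finset.prod_congr rfl fun σ _ => by rw [hRep.2.2 (p σ) (hon σ)]
  rw [hval]
  refine hmain.trans ?_
  -- collect the exponents
  have e1 : (2 * Real.exp (N * (2 + L₁))) ^ S.δ ≤ Real.exp ((1 + (2 + L₁)) * N * sz F) := by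
    have h1 : 2 * Real.exp (N * (2 + L₁)) ≤ Real.exp (1 + N * (2 + L₁)) := by
      rw [Real.exp_add]
      have := two_pow_le 1
      rw [pow_one, Nat.cast_one] at this
      exact mul_le_mul_of_nonneg_right this (Real.exp_nonneg _)
    refine (pow_le_pow_left₀ (by positivity) h1 _).trans ?_
    rw [← Real.exp_nat_mul, Real.exp_le_exp]
    have h2 : 1 + N * (2 + L₁) ≤ (1 + (2 + L₁)) * N := by nlinarith
    have h3 : (0 : ℝ) ≤ 1 + N * (2 + L₁) := by positivity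
    calc (S.δ : ℝ) * (1 + N * (2 + L₁)) ≤ sz F * ((1 + (2 + L₁)) * N) :=
          mul_le_mul hδ h2 h3 (by linarith)
      _ = _ := by ring
  have e2 : (2 ^ ((m+1) * S.δ) * Real.exp ((((m+1) ^ 2 : ℕ) + L₂) * sz F)) ^ N ≤
      Real.exp (((m + 1) + ((m + 1) ^ 2 + L₂)) * N * sz F) := by
    have h1 : (2 : ℝ) ^ ((m+1) * S.δ) * Real.exp ((((m+1) ^ 2 : ℕ) + L₂) * sz F) ≤
        Real.exp ((m + 1) * sz F + (((m+1) ^ 2 : ℕ) + L₂) * sz F) := by
      rw [Real.exp_add]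
      refine mul_le_mul_of_nonneg_right ?_ (Real.exp_nonneg _)
      refine (two_pow_le _).trans (Real.exp_le_exp.2 ?_)
      push_cast
      exact mul_le_mul_of_nonneg_left hδ (by positivity)
    refine (pow_le_pow_left₀ (by positivity) h1 _).trans (le_of_eq ?_)
    rw [← Real.exp_nat_mul]
    congr 1
    push_cast
    ring
  have e3 : (2 : ℝ) ^ (m * S.δ) ≤ Real.exp (m * N * sz F) := by
    refine (two_pow_le _).trans (Real.exp_le_exp.2 ?_)
    push_cast
    have h1 : (S.δ : ℝ) ≤ N * sz F := by nlinarith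
    calc (m : ℝ) * S.δ ≤ m * (N * sz F) := mul_le_mul_of_nonneg_left h1 hm0
      _ = _ := by ring
  calc (2 * Real.exp (N * (2 + L₁))) ^ S.δ *
        (2 ^ ((m+1) * S.δ) * Real.exp ((((m+1) ^ 2 : ℕ) + L₂) * sz F)) ^ N * 2 ^ (m * S.δ) *
        Real.exp (-B)
      ≤ Real.exp ((1 + (2 + L₁)) * N * sz F) *
        Real.exp (((m + 1) + ((m + 1) ^ 2 + L₂)) * N * sz F) * Real.exp (m * N * sz F) *
        Real.exp (-B) := by
          refine mul_le_mul_of_nonneg_right ?_ (Real.exp_nonneg _)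
          refine mul_le_mul ?_ e3 (by positivity) (by positivity)
          exact mul_le_mul e1 e2 (by positivity) (by positivity)
    _ = _ := by
          rw [← Real.exp_add, ← Real.exp_add, ← Real.exp_add]
          congr 1
          ring

/-! ## dimension zero -/

theorem const_of_isEmpty {ι : Type} [IsEmpty ι] {a : MvPolynomial ι ℤ} (ha : a ≠ 0) (x : ι → ℂ) :
    1 ≤ ‖aeval x a‖ := by
  rw [eq_C_of_isEmpty a] at ha ⊢
  rw [aeval_C]
  have h1 : coeff 0 a ≠ 0 := by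
    intro h0
    rw [h0, C_0] at ha
    exact ha rfl
  have h2 : ((algebraMap ℤ ℂ) (coeff 0 a)) = ((coeff 0 a : ℤ) : ℂ) := by simp
  rw [h2, Complex.norm_intCast]
  have h3 := Int.one_le_abs h1
  rw [← Int.cast_abs]
  exact_mod_cast h3

theorem avg (h : SProdLin) (hS : SSplit) : SAvg := by
  intro m θ
  have hm0 : (0 : ℝ) ≤ m := Nat.cast_nonneg _
  refine ⟨m + 1, by linarith, ?_⟩
  intro ξ F hF B hB0 hB
  obtain ⟨S⟩ := hS m 0 ξ F hF
  obtain ⟨-, -, hsz1⟩ := sz1 m 0 ξ F hF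
  have hδ := delta_le hF S
  let u : Fin 0 × Fin m → ℂ := fun _ => 0
  have hu : ∀ ij, ‖u ij‖ ≤ 1 := fun ij => by simp [u]
  have ha1 : 1 ≤ ‖aeval (fun ij : Fin 0 × Fin m => thr θ u (ij.1, ij.2.succ)) S.a‖ :=
    const_of_isEmpty S.a_ne _
  obtain ⟨p, hon, -, hfac, -⟩ := S.pts (thr θ u) (by
    intro h0
    rw [h0, norm_zero] at ha1
    linarith)
  have hdist := prod_dist_le h θ F B hB u hu S.δ _ p hfac
  have hP0 : 0 ≤ ∏ σ, ‖p σ - θ‖ := Finset.prod_nonneg fun _ _ => norm_nonneg _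
  have hP : ∏ σ, ‖p σ - θ‖ ≤ 2 ^ (m * S.δ) * Real.exp (-B) := by nlinarith
  by_contra hcon
  push Not at hcon
  have hlow : Real.exp (-(B / sz F - (m + 1))) ^ S.δ ≤ ∏ σ, ‖p σ - θ‖ := by
    have h1 : ∏ _σ : Fin S.δ, Real.exp (-(B / sz F - (m + 1))) ≤ ∏ σ, ‖p σ - θ‖ :=
      Finset.prod_le_prod (fun _ _ => Real.exp_nonneg _) fun σ _ => (hcon (p σ) (hon σ)).le
    simpa using h1
  rw [← Real.exp_nat_mul] at hlow
  have h2 : (2 : ℝ) ^ (m * S.δ) * Real.exp (-B) ≤ Real.exp (m * S.δ + -B) := by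
    rw [Real.exp_add]
    refine mul_le_mul_of_nonneg_right ?_ (Real.exp_nonneg _)
    have := two_pow_le (m * S.δ)
    rwa [Nat.cast_mul] at this
  have h3 := Real.exp_le_exp.1 (hlow.trans (hP.trans h2))
  have hδ1 : (1 : ℝ) ≤ S.δ := by exact_mod_cast S.δ_pos
  have h4 : (S.δ : ℝ) * (B / sz F) ≤ B := by
    rw [mul_div_assoc', div_le_iff₀ (by linarith)]
    nlinarith
  nlinarith

theorem liou (hS : SSplit) (hV : SVal) : SLiou := by
  intro m θ
  obtain ⟨C, hC1, hC⟩ := hV m θ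
  refine ⟨C, hC1, ?_⟩
  intro ξ F hF N Q G hN hRep hlen hQ B hB hfar
  obtain ⟨S⟩ := hS m 0 ξ F hF
  have h1 := hC 0 ξ F hF S N Q G hN hRep hlen B hB (Or.inr hfar)
  have h2 := const_of_isEmpty (S.g_ne Q N hRep.1 hQ) (thr θ (fun _ : Fin 0 × Fin m => (0 : ℂ)))
  have h3 := h2.trans (h1 (fun _ => 0) (fun _ => by simp))
  rw [← Real.exp_zero] at h3
  have h4 := Real.exp_le_exp.1 h3
  linarith

end Pool.Agent.Helper53.LR
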