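import Pool.Agent.Helper82.Circ.Data

/-!
The poset of the chamber, the lifting lemma and the developing map.
-/

set_option autoImplicit false

open Topology Set Function Finset

namespace Pool.Agent.Helper53.CircP

open Pool.Agent.Helper82.Circ

set_option linter.unusedSectionVars false

variable {E V B : Type} [Group E] [MulAction E V] [DecidableEq V] [Fintype B] [DecidableEq B]
  {K : SC V} {κ : V → Option B} {z : E}

/-- the colours of a face -/
def col (κ : V → Option B) (s : Finset V) : Finset (Option B) := s.image κ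

/-- translate of a face -/
def tr (e : E) (s : Finset V) : Finset V := s.image (e • ·)

lemma tr_one (s : Finset V) : tr (1 : E) s = s := by
  simp [tr]

lemma tr_mul (a b : E) (s : Finset V) : tr (a * b) s = tr a (tr b s) := by
  simp [tr, Finset.image_image, Function.comp_def, mul_smul]

lemma tr_mono (e : E) {s t : Finset V} (h : s ⊆ t) : tr e s ⊆ tr e t := Finset.image_subset_image h

lemma card_tr (e : E) (s : Finset V) : (tr e s).card = s.card :=
  Finset.card_image_of_injective _ (MulAction.injective e)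

lemma tr_nonempty (e : E) {s : Finset V} (h : s.Nonempty) : (tr e s).Nonempty := h.image _

lemma col_mono {s t : Finset V} (h : s ⊆ t) : col κ s ⊆ col κ t := Finset.image_subset_image h

/-- the sets of colours of faces -/
def KA (K : SC V) (κ : V → Option B) : Set (Finset (Option B)) := {I | ∃ s ∈ K.faces, col κ s = I}

/-- subface with given colours -/
def sub (κ : V → Option B) (s : Finset V) (I : Finset (Option B)) : Finset V :=
  s.filter (fun v => κ v ∈ I)

lemma sub_subset (s : Finset V) (I : Finset (Option B)) : sub κ s I ⊆ s := Finset.filter_subset _ _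

lemma col_sub {s : Finset V} {I : Finset (Option B)} (h : I ⊆ col κ s) : col κ (sub κ s I) = I := by
  ext o
  simp only [col, sub, Finset.mem_image, Finset.mem_filter]
  constructor
  · rintro ⟨v, ⟨_, hv⟩, rfl⟩
    exact hv
  · intro ho
    obtain ⟨v, hv, rfl⟩ := Finset.mem_image.1 (h ho)
    exact ⟨v, ⟨hv, ho⟩, rfl⟩

lemma KA_down {I I' : Finset (Option B)} (hI : I ∈ KA K κ) (h : I' ⊆ I) : I' ∈ KA K κ := by
  obtain ⟨s, hs, rfl⟩ := hI
  exact ⟨sub κ s I', K.down hs (sub_subset _ _), col_sub h⟩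

section

variable (h : CovD E V B K κ z)
include h

lemma col_tr (e : E) (s : Finset V) : col κ (tr e s) = col κ s := by
  simp only [col, tr, Finset.image_image]
  refine Finset.image_congr fun v _ => ?_
  exact h.κ_smul e v

lemma card_col {s : Finset V} (hs : s ∈ K.faces) : (col κ s).card = s.card :=
  Finset.card_image_of_injOn (h.κ_inj s hs)

lemma sub_of_col {s t w : Finset V} (hw : w ∈ K.faces) (hs : s ⊆ w) (ht : t ⊆ w)
    (hst : col κ s ⊆ col κ t) : s ⊆ t := by
  intro v hv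
  obtain ⟨u, hu, huv⟩ := Finset.mem_image.1 (hst (Finset.mem_image_of_mem κ hv))
  rw [← h.κ_inj w hw (ht hu) (hs hv) huv]
  exact hu

lemma eq_of_comparable {s t : Finset V} (hs : s ∈ K.faces) (ht : t ∈ K.faces)
    (hc : s ⊆ t ∨ t ⊆ s) (hcol : col κ s = col κ t) : s = t := by
  have hcard : s.card = t.card := by rw [← card_col h hs, ← card_col h ht, hcol]
  rcases hc with hc | hc
  · exact Finset.eq_of_subset_of_card_le hc hcard.ge
  · exact (Finset.eq_of_subset_of_card_le hc hcard.le).symm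

lemma zpowers_triv {e : E} (he : e ∈ Subgroup.zpowers z) (v : V) : e • v = v := by
  have : Subgroup.zpowers z ≤ MulAction.stabilizer E v := by
    rw [Subgroup.zpowers_le]
    exact h.triv v
  exact this he

lemma lift_exists {s : Finset V} (hs : s ∈ K.faces) {I : Finset (Option B)} (hI : I ∈ KA K κ)
    (hsI : col κ s ⊆ I) : ∃ t ∈ K.faces, s ⊆ t ∧ col κ t = I := by
  obtain ⟨s', hs', rfl⟩ := hI
  have h1 : sub κ s' (col κ s) ∈ K.faces := K.down hs' (sub_subset _ _)
  obtain ⟨e, he⟩ := h.orb _ h1 s hs (col_sub hsI)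
  refine ⟨tr e s', h.inv e s' hs', ?_, col_tr h e s'⟩
  rw [← he]
  exact tr_mono e (sub_subset _ _)

lemma lift_unique {s t t' : Finset V} (hs : s ∈ K.faces) (hne : s.Nonempty) (ht : t ∈ K.faces)
    (ht' : t' ∈ K.faces) (hst : s ⊆ t) (hst' : s ⊆ t') (hcol : col κ t = col κ t') : t = t' := by
  obtain ⟨e, he⟩ := h.orb t ht t' ht' hcol
  have h1 : tr e s ⊆ t' := by
    rw [← he]
    exact tr_mono e hst
  have h2 : tr e s = s := by
    apply Finset.Subset.antisymm
    · exact sub_of_col h ht' h1 hst' (col_tr h e s).le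
    · exact sub_of_col h ht' hst' h1 (col_tr h e s).ge
  have h3 := h.stab s hs hne e h2
  have h4 : tr e t = t := by
    unfold tr
    conv_rhs => rw [← Finset.image_id (s := t)]
    exact Finset.image_congr fun v _ => zpowers_triv h h3 v
  rw [← h4]
  exact he

lemma ord {σ s t : Finset V} (hσ : σ ∈ K.faces) (hne : σ.Nonempty) (hs : s ∈ K.faces)
    (ht : t ∈ K.faces) (hcs : s ⊆ σ ∨ σ ⊆ s) (hct : t ⊆ σ ∨ σ ⊆ t)
    (hcol : col κ s ⊆ col κ t) : s ⊆ t := by
  rcases hct with hct | hct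
  · rcases hcs with hcs | hcs
    · exact sub_of_col h hσ hcs hct hcol
    · have h1 : col κ s = col κ t := Finset.Subset.antisymm hcol (col_mono (hct.trans hcs))
      exact (eq_of_comparable h hs ht (Or.inr (hct.trans hcs)) h1).le
  · rcases hcs with hcs | hcs
    · exact hcs.trans hct
    · have h1 : σ ⊆ sub κ t (col κ s) := by
        intro v hv
        exact Finset.mem_filter.2 ⟨hct hv, Finset.mem_image_of_mem κ (hcs hv)⟩
      have h2 : s = sub κ t (col κ s) :=
        lift_unique h hσ hne hs (K.down ht (sub_subset _ _)) hcs h1 (col_sub hcol).symm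
      rw [h2]
      exact sub_subset _ _

lemma eq_of_col {σ s t : Finset V} (hσ : σ ∈ K.faces) (hne : σ.Nonempty) (hs : s ∈ K.faces)
    (ht : t ∈ K.faces) (hcs : s ⊆ σ ∨ σ ⊆ s) (hct : t ⊆ σ ∨ σ ⊆ t)
    (hcol : col κ s = col κ t) : s = t :=
  Finset.Subset.antisymm (ord h hσ hne hs ht hcs hct hcol.le) (ord h hσ hne ht hs hct hcs hcol.ge)

lemma lift {σ : Finset V} (hσ : σ ∈ K.faces) {I : Finset (Option B)} (hI : I ∈ KA K κ)
    (hc : I ⊆ col κ σ ∨ col κ σ ⊆ I) : ∃ t ∈ K.faces, (t ⊆ σ ∨ σ ⊆ t) ∧ col κ t = I := by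
  rcases hc with hc | hc
  · exact ⟨sub κ σ I, K.down hσ (sub_subset _ _), Or.inl (sub_subset _ _), col_sub hc⟩
  · obtain ⟨t, ht, h1, h2⟩ := lift_exists h hσ hI hc
    exact ⟨t, ht, Or.inr h1, h2⟩

lemma col_ne_univ {s : Finset V} (hs : s ∈ K.faces) : col κ s ≠ Finset.univ := by
  intro hu
  have : none ∈ col κ s := by rw [hu]; exact Finset.mem_univ _
  obtain ⟨v, hv, hn⟩ := Finset.mem_image.1 this
  exact h.κ_ne s hs v hv hn

end

/-- The elements of the poset. -/
def RP (K : SC V) (κ : V → Option B) : Set (Finset (Finset V) × Finset (Finset (Option B))) :=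
  {p | p.1 ∈ K.sd.faces ∧ p.1.Nonempty ∧ (∀ I ∈ p.2, I.Nonempty ∧ I ≠ Finset.univ ∧ I ∉ KA K κ) ∧
    (∀ I ∈ p.2, ∀ I' ∈ p.2, I ⊆ I' ∨ I' ⊆ I) ∧ ∀ σ ∈ p.1, ∀ I ∈ p.2, col κ σ ⊆ I}

/-- the type of an element -/
def ty (κ : V → Option B) (p : Finset (Finset V) × Finset (Finset (Option B))) :
    Finset (Finset (Option B)) := p.1.image (col κ) ∪ p.2

lemma mem_ty {p : Finset (Finset V) × Finset (Finset (Option B))} {I : Finset (Option B)} :
    I ∈ ty κ p ↔ (∃ σ ∈ p.1, col κ σ = I) ∨ I ∈ p.2 := by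
  simp [ty]

lemma ty_mono {p q : Finset (Finset V) × Finset (Finset (Option B))} (hpq : p ≤ q) :
    ty κ p ⊆ ty κ q :=
  Finset.union_subset_union (Finset.image_subset_image hpq.1) hpq.2

lemma le_iff' {p q : RP K κ} : p ≤ q ↔ p.1.1 ⊆ q.1.1 ∧ p.1.2 ⊆ q.1.2 := Iff.rfl

section

variable (h : CovD E V B K κ z)
include h

lemma act_mem (e : E) {p : Finset (Finset V) × Finset (Finset (Option B))} (hp : p ∈ RP K κ) :
    (p.1.image (tr e), p.2) ∈ RP K κ := by
  obtain ⟨h1, h2, h3, h4, h5⟩ := hp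
  refine ⟨⟨?_, ?_⟩, h2.image _, h3, h4, ?_⟩
  · intro s hs
    obtain ⟨t, ht, rfl⟩ := Finset.mem_image.1 hs
    exact ⟨tr_nonempty e (h1.1 t ht).1, h.inv e t (h1.1 t ht).2⟩
  · intro s hs s' hs'
    obtain ⟨t, ht, rfl⟩ := Finset.mem_image.1 hs
    obtain ⟨t', ht', rfl⟩ := Finset.mem_image.1 hs'
    rcases h1.2 t ht t' ht' with h6 | h6
    · exact Or.inl (tr_mono e h6)
    · exact Or.inr (tr_mono e h6)
  · intro s hs I hI
    obtain ⟨t, ht, rfl⟩ := Finset.mem_image.1 hs
    rw [col_tr h]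
    exact h5 t ht I hI

/-- the action on the poset -/
@[reducible] def act : MulAction E (RP K κ) where
  smul e p := ⟨(p.1.1.image (tr e), p.1.2), act_mem h e p.2⟩
  one_smul p := by
    refine Subtype.ext (Prod.ext ?_ rfl)
    show p.1.1.image (tr (1 : E)) = p.1.1
    have : (tr (1 : E) : Finset V → Finset V) = id := funext fun s => tr_one s
    rw [this, Finset.image_id]
  mul_smul a b p := by
    refine Subtype.ext (Prod.ext ?_ rfl)
    show p.1.1.image (tr (a * b)) = (p.1.1.image (tr b)).image (tr a)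
    rw [Finset.image_image]
    exact Finset.image_congr fun s _ => tr_mul a b s

lemma ty_act (e : E) (p : Finset (Finset V) × Finset (Finset (Option B))) :
    ty κ (p.1.image (tr e), p.2) = ty κ p := by
  unfold ty
  simp only [Finset.image_image]
  congr 1
  exact Finset.image_congr fun s _ => col_tr h e s

lemma ty_faces {p : Finset (Finset V) × Finset (Finset (Option B))} (hp : p ∈ RP K κ) :
    (ty κ p).Nonempty ∧ ty κ p ∈ (bdry B).sd.faces := by
  obtain ⟨h1, h2, h3, h4, h5⟩ := hp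
  refine ⟨(h2.image _).inl, ?_, ?_⟩
  · intro I hI
    rcases mem_ty.1 hI with ⟨σ, hσ, rfl⟩ | hI
    · exact ⟨(h1.1 σ hσ).1.image _, col_ne_univ h (h1.1 σ hσ).2⟩
    · exact ⟨(h3 I hI).1, (h3 I hI).2.1⟩
  · intro I hI I' hI'
    rcases mem_ty.1 hI with ⟨σ, hσ, rfl⟩ | hI
    · rcases mem_ty.1 hI' with ⟨σ', hσ', rfl⟩ | hI'
      · rcases h1.2 σ hσ σ' hσ' with h6 | h6
        · exact Or.inl (col_mono h6)
        · exact Or.inr (col_mono h6)
      · exact Or.inl (h5 σ hσ I' hI')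
    · rcases mem_ty.1 hI' with ⟨σ', hσ', rfl⟩ | hI'
      · exact Or.inr (h5 σ' hσ' I hI)
      · exact h4 I hI I' hI'

/-- order on comparable elements is detected by the type -/
lemma le_of_ty {k p q : RP K κ} (hk : k.1.2 = ∅) (hp : p ≤ k ∨ k ≤ p) (hq : q ≤ k ∨ k ≤ q)
    (hpq : ty κ p.1 ⊆ ty κ q.1) : p ≤ q := by
  obtain ⟨σ, hσ⟩ := k.2.2.1
  have hσf := k.2.1.1 σ hσ
  have hcomp : ∀ r : RP K κ, (r ≤ k ∨ k ≤ r) → ∀ s ∈ r.1.1, s ⊆ σ ∨ σ ⊆ s := by
    intro r hr s hs
    rcases hr with hr | hr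
    · exact k.2.1.2 s (hr.1 hs) σ hσ
    · exact r.2.1.2 s hs σ (hr.1 hσ)
  constructor
  · intro s hs
    have hsf := p.2.1.1 s hs
    have h1 : col κ s ∈ ty κ q.1 := hpq (mem_ty.2 (Or.inl ⟨s, hs, rfl⟩))
    rcases mem_ty.1 h1 with ⟨t, ht, hts⟩ | h2
    · have htf := q.2.1.1 t ht
      have : s = t := eq_of_col h hσf.2 hσf.1 hsf.2 htf.2 (hcomp p hp s hs) (hcomp q hq t ht)
        hts.symm
      rw [this]
      exact ht
    · exact absurd ⟨s, hsf.2, rfl⟩ (q.2.2.2.1 _ h2).2.2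
  · intro I hI
    have h1 : I ∈ ty κ q.1 := hpq (mem_ty.2 (Or.inr hI))
    rcases mem_ty.1 h1 with ⟨t, ht, hts⟩ | h2
    · exact absurd ⟨t, (q.2.1.1 t ht).2, hts⟩ (p.2.2.2.1 _ hI).2.2
    · exact h2

lemma exists_of_ty {k : RP K κ} (hk : k.1.2 = ∅) {C : Finset (Finset (Option B))}
    (hC : C ∈ (bdry B).sd.faces) (hne : C.Nonempty) (hc : C ⊆ ty κ k.1 ∨ ty κ k.1 ⊆ C) :
    ∃ r : RP K κ, (r ≤ k ∨ k ≤ r) ∧ ty κ r.1 = C := by
  classical
  have htk : ty κ k.1 = k.1.1.image (col κ) := by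
    unfold ty
    rw [hk, Finset.union_empty]
  rcases hc with hc | hc
  · rw [htk] at hc
    have hty : (k.1.1.filter (fun s => col κ s ∈ C)).image (col κ) = C := by
      ext I
      simp only [Finset.mem_image, Finset.mem_filter]
      constructor
      · rintro ⟨s, ⟨_, hs⟩, rfl⟩
        exact hs
      · intro hI
        obtain ⟨s, hs, rfl⟩ := Finset.mem_image.1 (hc hI)
        exact ⟨s, ⟨hs, hI⟩, rfl⟩
    refine ⟨⟨(k.1.1.filter (fun s => col κ s ∈ C), ∅), K.sd.down k.2.1 (Finset.filter_subset _ _),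
      ?_, by simp, by simp, by simp⟩, Or.inl ⟨Finset.filter_subset _ _, Finset.empty_subset _⟩, ?_⟩
    · obtain ⟨I, hI⟩ := hne
      rw [← hty] at hI
      obtain ⟨s, hs, _⟩ := Finset.mem_image.1 hI
      exact ⟨s, hs⟩
    · show _ ∪ ∅ = C
      rw [Finset.union_empty]
      exact hty
  · obtain ⟨σ, hσ⟩ := k.2.2.1
    have hσf := k.2.1.1 σ hσ
    have hcomp : ∀ s ∈ k.1.1, s ⊆ σ ∨ σ ⊆ s := fun s hs => k.2.1.2 s hs σ hσ
    have hcolC : ∀ s ∈ k.1.1, col κ s ∈ C := fun s hs => hc (by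
      rw [htk]; exact Finset.mem_image_of_mem _ hs)
    have hlift : ∀ I : {I // I ∈ C ∧ I ∈ KA K κ}, ∃ t ∈ K.faces, (t ⊆ σ ∨ σ ⊆ t) ∧
        col κ t = I.1 := fun I =>
      lift h hσf.2 I.2.2 (hC.2 _ I.2.1 _ (hcolC σ hσ))
    choose ℓ hℓf hℓc hℓcol using hlift
    let c' : Finset (Finset V) := (C.attach.filter (fun I => I.1 ∈ KA K κ)).attach.image
      (fun I => ℓ ⟨I.1.1, I.1.2, by
        have h1 := I.2
        rw [Finset.mem_filter] at h1
        exact h1.2⟩)
    have hc' : ∀ s, s ∈ c' ↔ ∃ I : {I // I ∈ C ∧ I ∈ KA K κ}, ℓ I = s := by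
      intro s
      constructor
      · intro hs
        obtain ⟨I, _, hI⟩ := Finset.mem_image.1 hs
        exact ⟨_, hI⟩
      · rintro ⟨I, rfl⟩
        refine Finset.mem_image.2 ⟨⟨⟨I.1, I.2.1⟩, ?_⟩, Finset.mem_attach _ _, rfl⟩
        exact Finset.mem_filter.2 ⟨Finset.mem_attach _ _, I.2.2⟩
    have hkc' : k.1.1 ⊆ c' := by
      intro s hs
      have hsf := k.2.1.1 s hs
      let I : {I // I ∈ C ∧ I ∈ KA K κ} := ⟨col κ s, hcolC s hs, s, hsf.2, rfl⟩
      refine (hc' s).2 ⟨I, ?_⟩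
      exact eq_of_col h hσf.2 hσf.1 (hℓf I) hsf.2 (hℓc I) (hcomp s hs) (hℓcol I)
    have hmem : (c', C.filter (fun I => I ∉ KA K κ)) ∈ RP K κ := by
      refine ⟨⟨?_, ?_⟩, ⟨σ, hkc' hσ⟩, ?_, ?_, ?_⟩
      · intro s hs
        obtain ⟨I, rfl⟩ := (hc' s).1 hs
        refine ⟨?_, hℓf I⟩
        have h1 := (hC.1 I.1 I.2.1).1
        rw [← hℓcol I] at h1
        exact Finset.image_nonempty.1 h1
      · intro s hs s' hs'
        obtain ⟨I, rfl⟩ := (hc' s).1 hs
        obtain ⟨I', rfl⟩ := (hc' s').1 hs'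
        rcases hC.2 I.1 I.2.1 I'.1 I'.2.1 with h1 | h1
        · left
          exact ord h hσf.2 hσf.1 (hℓf I) (hℓf I') (hℓc I) (hℓc I') (by
            rw [hℓcol, hℓcol]; exact h1)
        · right
          exact ord h hσf.2 hσf.1 (hℓf I') (hℓf I) (hℓc I') (hℓc I) (by
            rw [hℓcol, hℓcol]; exact h1)
      · intro I hI
        obtain ⟨hI1, hI2⟩ := Finset.mem_filter.1 hI
        exact ⟨(hC.1 I hI1).1, (hC.1 I hI1).2, hI2⟩
      · intro I hI I' hI'
        exact hC.2 I (Finset.mem_filter.1 hI).1 I' (Finset.mem_filter.1 hI').1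
      · intro s hs I hI
        obtain ⟨I', rfl⟩ := (hc' s).1 hs
        obtain ⟨hI1, hI2⟩ := Finset.mem_filter.1 hI
        rw [hℓcol]
        rcases hC.2 I'.1 I'.2.1 I hI1 with h1 | h1
        · exact h1
        · exact absurd (KA_down I'.2.2 h1) hI2
    refine ⟨⟨_, hmem⟩, Or.inr ⟨hkc', ?_⟩, ?_⟩
    · rw [hk]
      exact Finset.empty_subset _
    · ext I
      rw [mem_ty]
      constructor
      · rintro (⟨s, hs, rfl⟩ | hI)
        · obtain ⟨I, rfl⟩ := (hc' s).1 hs
          rw [hℓcol]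
          exact I.2.1
        · exact (Finset.mem_filter.1 hI).1
      · intro hI
        by_cases hKA : I ∈ KA K κ
        · exact Or.inl ⟨ℓ ⟨I, hI, hKA⟩, (hc' _).2 ⟨_, rfl⟩, hℓcol _⟩
        · exact Or.inr (Finset.mem_filter.2 ⟨hI, hKA⟩)

omit [Fintype B] in
lemma fin_comp [Fintype B] (k : RP K κ) : {r : RP K κ | r ≤ k ∨ k ≤ r}.Finite := by
  classical
  obtain ⟨σ, hσ⟩ := k.2.2.1
  have h1 := SC.sd_locFin h.locFin σ
  have h2 : ((k.1.1.powerset : Set (Finset (Finset V))) ∪ {c ∈ K.sd.faces | σ ∈ c}).Finite :=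
    (Finset.finite_toSet _).union h1
  have h3 := h2.prod (Set.finite_univ (α := Finset (Finset (Option B))))
  refine Set.Finite.of_injOn (f := Subtype.val) (t := _) ?_ Subtype.val_injective.injOn h3
  intro r hr
  refine ⟨?_, trivial⟩
  rcases hr with hr | hr
  · left
    exact Finset.mem_coe.2 (Finset.mem_powerset.2 hr.1)
  · right
    exact ⟨r.2.1, hr.1 hσ⟩

/-- the poset data -/
def cd : CD (RP K κ) where
  Kp := {r | r.1.2 = ∅}
  lower := fun {a b} hab hb => by
    have h1 : a.1.2 ⊆ b.1.2 := hab.2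
    have h2 : b.1.2 = ∅ := hb
    rw [h2] at h1
    exact Finset.subset_empty.1 h1
  fin := fun k _ => fin_comp h k
  ρ := fun r => ⟨(r.1.1, ∅), r.2.1, r.2.2.1, by simp, by simp, by simp⟩
  ρ_mem := fun _ => rfl
  ρ_le := fun _ => ⟨subset_rfl, Finset.empty_subset _⟩
  le_ρ := fun {k r} hk hkr => ⟨hkr.1, by
    have h2 : k.1.2 = ∅ := hk
    show k.1.2 ⊆ ∅
    rw [h2]⟩

/-- finitely many representatives of the orbits of `Kp` -/
lemma fin_orb : ∃ F : Finset (RP K κ), (∀ k ∈ F, k ∈ (cd h).Kp) ∧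
    ∀ k ∈ (cd h).Kp, ∃ e : E, (act h).smul e k ∈ F := by
  classical
  let S : Set (Finset (Finset (Option B))) := (fun k : RP K κ => ty κ k.1) '' (cd h).Kp
  have hS : ∀ t : S, ∃ k ∈ (cd h).Kp, ty κ k.1 = t.1 := fun t => t.2
  choose g hg1 hg2 using hS
  haveI : Fintype S := Fintype.ofFinite S
  refine ⟨Finset.univ.image g, ?_, ?_⟩
  · intro k hk
    obtain ⟨t, _, rfl⟩ := Finset.mem_image.1 hk
    exact hg1 t
  · intro k hk
    let t : S := ⟨ty κ k.1, k, hk, rfl⟩
    let k' := g t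
    have hk' : k'.1.2 = ∅ := hg1 t
    have hk0 : k.1.2 = ∅ := hk
    have hty : k.1.1.image (col κ) = k'.1.1.image (col κ) := by
      have h1 : ty κ k'.1 = ty κ k.1 := hg2 t
      unfold ty at h1
      rw [hk', hk0, Finset.union_empty, Finset.union_empty] at h1
      exact h1.symm
    -- largest members
    obtain ⟨σ, hσ, hmax⟩ := Finset.exists_max_image k.1.1 (fun s => s.card) k.2.2.1
    obtain ⟨σ', hσ', hmax'⟩ := Finset.exists_max_image k'.1.1 (fun s => s.card) k'.2.2.1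
    have hσf := (k.2.1.1 σ hσ).2
    have hσf' := (k'.2.1.1 σ' hσ').2
    have hle : ∀ s ∈ k.1.1, s ⊆ σ := by
      intro s hs
      rcases k.2.1.2 s hs σ hσ with h1 | h1
      · exact h1
      · exact (Finset.eq_of_subset_of_card_le h1 (hmax s hs)).ge
    have hle' : ∀ s ∈ k'.1.1, s ⊆ σ' := by
      intro s hs
      rcases k'.2.1.2 s hs σ' hσ' with h1 | h1
      · exact h1
      · exact (Finset.eq_of_subset_of_card_le h1 (hmax' s hs)).ge
    have hcol : col κ σ = col κ σ' := by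
      apply Finset.Subset.antisymm
      · have : col κ σ ∈ k'.1.1.image (col κ) := by
          rw [← hty]
          exact Finset.mem_image_of_mem _ hσ
        obtain ⟨s, hs, h1⟩ := Finset.mem_image.1 this
        rw [← h1]
        exact col_mono (hle' s hs)
      · have : col κ σ' ∈ k.1.1.image (col κ) := by
          rw [hty]
          exact Finset.mem_image_of_mem _ hσ'
        obtain ⟨s, hs, h1⟩ := Finset.mem_image.1 this
        rw [← h1]
        exact col_mono (hle s hs)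
    obtain ⟨e, he⟩ := h.orb σ hσf σ' hσf' hcol
    refine ⟨e, ?_⟩
    have : (act h).smul e k = k' := by
      refine Subtype.ext (Prod.ext ?_ ?_)
      · show k.1.1.image (tr e) = k'.1.1
        ext s
        constructor
        · intro hs
          obtain ⟨u, hu, rfl⟩ := Finset.mem_image.1 hs
          have : col κ u ∈ k'.1.1.image (col κ) := by
            rw [← hty]
            exact Finset.mem_image_of_mem _ hu
          obtain ⟨w, hw, h1⟩ := Finset.mem_image.1 this
          have h2 : tr e u ⊆ σ' := by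
            rw [← he]
            exact tr_mono e (hle u hu)
          have h3 : col κ (tr e u) = col κ w := by rw [col_tr h, h1]
          have h4 : tr e u = w := Finset.Subset.antisymm
            (sub_of_col h hσf' h2 (hle' w hw) h3.le) (sub_of_col h hσf' (hle' w hw) h2 h3.ge)
          rw [h4]
          exact hw
        · intro hs
          have : col κ s ∈ k.1.1.image (col κ) := by
            rw [hty]
            exact Finset.mem_image_of_mem _ hs
          obtain ⟨u, hu, h1⟩ := Finset.mem_image.1 this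
          have h2 : tr e u ⊆ σ' := by
            rw [← he]
            exact tr_mono e (hle u hu)
          have h3 : col κ (tr e u) = col κ s := by rw [col_tr h, h1]
          have h4 : tr e u = s := Finset.Subset.antisymm
            (sub_of_col h hσf' h2 (hle' s hs) h3.le) (sub_of_col h hσf' (hle' s hs) h2 h3.ge)
          rw [← h4]
          exact Finset.mem_image_of_mem _ hu
      · show k.1.2 = k'.1.2
        rw [hk0, hk']
    rw [this]
    exact Finset.mem_image_of_mem _ (Finset.mem_univ _)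

lemma stab' (k : RP K κ) (e : E) (hek : (act h).smul e k = k) : e ∈ Subgroup.zpowers z := by
  obtain ⟨σ, hσ⟩ := k.2.2.1
  have hσf := k.2.1.1 σ hσ
  have h1 : k.1.1.image (tr e) = k.1.1 := congrArg (fun r : RP K κ => r.1.1) hek
  have h2 : tr e σ ∈ k.1.1 := by
    rw [← h1]
    exact Finset.mem_image_of_mem _ hσ
  have h3 : tr e σ = σ := eq_of_comparable h (k.2.1.1 _ h2).2 hσf.2 (k.2.1.2 _ h2 _ hσ)
    (col_tr h e σ)
  exact h.stab σ hσf.2 hσf.1 e h3

lemma ty_inj (r r' : RP K κ) (hr : r ≤ r') (hty : ty κ r.1 = ty κ r'.1) : r = r' := by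
  refine Subtype.ext (Prod.ext ?_ ?_)
  · apply Finset.Subset.antisymm hr.1
    intro s hs
    have hsf := r'.2.1.1 s hs
    have h1 : col κ s ∈ ty κ r.1 := by
      rw [hty]
      exact mem_ty.2 (Or.inl ⟨s, hs, rfl⟩)
    rcases mem_ty.1 h1 with ⟨t, ht, hts⟩ | h2
    · have htf := r.2.1.1 t ht
      have : t = s := eq_of_comparable h htf.2 hsf.2 (r'.2.1.2 t (hr.1 ht) s hs) hts
      rw [← this]
      exact ht
    · exact absurd ⟨s, hsf.2, rfl⟩ (r.2.2.2.1 _ h2).2.2
  · apply Finset.Subset.antisymm hr.2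
    intro I hI
    have h1 : I ∈ ty κ r.1 := by
      rw [hty]
      exact mem_ty.2 (Or.inr hI)
    rcases mem_ty.1 h1 with ⟨t, ht, hts⟩ | h2
    · exact absurd ⟨t, (r.2.1.1 t ht).2, hts⟩ (r'.2.2.2.1 _ hI).2.2
    · exact h2

lemma triv' (r : RP K κ) : (act h).smul z r = r := by
  refine Subtype.ext (Prod.ext ?_ rfl)
  show r.1.1.image (tr z) = r.1.1
  have : (tr z : Finset V → Finset V) = id := by
    funext s
    unfold tr
    have h1 : (fun v : V => z • v) = id := funext h.triv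
    rw [h1, Finset.image_id]
    rfl
  rw [this, Finset.image_id]

/-- the elements comparable to `k` -/
noncomputable def nbh (k : RP K κ) : Finset (RP K κ) := (fin_comp h k).toFinset

lemma mem_nbh {k r : RP K κ} : r ∈ nbh h k ↔ r ≤ k ∨ k ≤ r := by
  unfold nbh
  rw [Set.Finite.mem_toFinset]
  rfl

lemma ty_injOn {k p q : RP K κ} (hk : k.1.2 = ∅) (hp : p ∈ nbh h k) (hq : q ∈ nbh h k)
    (hpq : ty κ p.1 = ty κ q.1) : p = q :=
  le_antisymm (le_of_ty h hk ((mem_nbh h).1 hp) ((mem_nbh h).1 hq) hpq.le)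
    (le_of_ty h hk ((mem_nbh h).1 hq) ((mem_nbh h).1 hp) hpq.ge)

lemma mem_nbh_of_ne {X : RP K κ → ℝ} (hX : X ∈ (cd h).Y) {k r : RP K κ} (hk : X k ≠ 0)
    (hr : X r ≠ 0) : r ∈ nbh h k := (mem_nbh h).2 (hX.2.1 r k hr hk)

open Classical in
/-- the local chart of the chamber -/
noncomputable def th (k : RP K κ) (X : RP K κ → ℝ) (C : Finset (Finset (Option B))) : ℝ :=
  ∑ r ∈ nbh h k with ty κ r.1 = C, X r

lemma th_ty {k : RP K κ} (hk : k.1.2 = ∅) (X : RP K κ → ℝ) {r : RP K κ} (hr : r ∈ nbh h k) :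
    th h k X (ty κ r.1) = X r := by
  classical
  unfold th
  have : (nbh h k).filter (fun r' => ty κ r'.1 = ty κ r.1) = {r} := by
    ext r'
    rw [Finset.mem_filter, Finset.mem_singleton]
    constructor
    · rintro ⟨h1, h2⟩
      exact ty_injOn h hk h1 hr h2
    · rintro rfl
      exact ⟨hr, rfl⟩
  rw [this, Finset.sum_singleton]

lemma exists_of_th_ne {k : RP K κ} {X : RP K κ → ℝ} {C : Finset (Finset (Option B))}
    (hC : th h k X C ≠ 0) : ∃ r ∈ nbh h k, ty κ r.1 = C ∧ X r ≠ 0 := by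
  classical
  obtain ⟨r, hr, h1⟩ := Finset.exists_ne_zero_of_sum_ne_zero hC
  rw [Finset.mem_filter] at hr
  exact ⟨r, hr.1, hr.2, h1⟩

lemma th_mem {k : RP K κ} (hk : k.1.2 = ∅) {X : RP K κ → ℝ} (hX : X ∈ (cd h).Y) (hXk : X k ≠ 0) :
    th h k X ∈ (bdry B).sd.sd.cone := by
  classical
  have hkk : k ∈ nbh h k := (mem_nbh h).2 (Or.inl le_rfl)
  refine ⟨fun C => Finset.sum_nonneg fun r _ => hX.1 r, ?_, ?_⟩
  · intro h0
    apply hXk
    rw [← th_ty h hk X hkk, h0]
    rfl
  · refine ⟨((nbh h k).filter (fun r => X r ≠ 0)).image (fun r => ty κ r.1), ⟨?_, ?_⟩, ?_⟩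
    · intro C hC
      obtain ⟨r, _, rfl⟩ := Finset.mem_image.1 hC
      exact ty_faces h r.2
    · intro C hC C' hC'
      obtain ⟨r, hr, rfl⟩ := Finset.mem_image.1 hC
      obtain ⟨r', hr', rfl⟩ := Finset.mem_image.1 hC'
      rcases hX.2.1 r r' (Finset.mem_filter.1 hr).2 (Finset.mem_filter.1 hr').2 with h1 | h1
      · exact Or.inl (ty_mono h1)
      · exact Or.inr (ty_mono h1)
    · intro C hC
      by_contra hne
      obtain ⟨r, hr, rfl, h1⟩ := exists_of_th_ne h hne
      exact hC (Finset.mem_image.2 ⟨r, Finset.mem_filter.2 ⟨hr, h1⟩, rfl⟩)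

open Classical in
/-- the inverse chart -/
noncomputable def ps (k : RP K κ) (X' : Finset (Finset (Option B)) → ℝ) (r : RP K κ) : ℝ :=
  if r ∈ nbh h k then X' (ty κ r.1) else 0

lemma ps_mem {k : RP K κ} (hk : k.1.2 = ∅) {X' : Finset (Finset (Option B)) → ℝ}
    (hX : X' ∈ (bdry B).sd.sd.cone) (hXk : X' (ty κ k.1) ≠ 0) :
    ps h k X' ∈ (cd h).Y ∧ ps h k X' k ≠ 0 := by
  classical
  have hkk : k ∈ nbh h k := (mem_nbh h).2 (Or.inl le_rfl)
  have h1 : ps h k X' k = X' (ty κ k.1) := by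
    unfold ps
    rw [if_pos hkk]
  obtain ⟨h0, _, 𝒞, h𝒞, hsupp⟩ := hX
  refine ⟨⟨fun r => ?_, fun r r' hr hr' => ?_, k, hk, by rwa [h1]⟩, by rwa [h1]⟩
  · unfold ps
    split_ifs
    · exact h0 _
    · exact le_rfl
  · have h2 : ∀ r, ps h k X' r ≠ 0 → r ∈ nbh h k ∧ ty κ r.1 ∈ 𝒞 := by
      intro r hr
      unfold ps at hr
      split_ifs at hr with h3
      · refine ⟨h3, ?_⟩
        by_contra h4
        exact hr (hsupp _ h4)
      · exact absurd rfl hr
    obtain ⟨h3, h4⟩ := h2 r hr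
    obtain ⟨h3', h4'⟩ := h2 r' hr'
    rcases h𝒞.2 _ h4 _ h4' with h5 | h5
    · exact Or.inl (le_of_ty h hk ((mem_nbh h).1 h3) ((mem_nbh h).1 h3') h5)
    · exact Or.inr (le_of_ty h hk ((mem_nbh h).1 h3') ((mem_nbh h).1 h3) h5)

lemma ps_th {k : RP K κ} (hk : k.1.2 = ∅) {X : RP K κ → ℝ} (hX : X ∈ (cd h).Y) (hXk : X k ≠ 0) :
    ps h k (th h k X) = X := by
  classical
  funext r
  unfold ps
  split_ifs with h1
  · exact th_ty h hk X h1
  · by_contra hne
    exact h1 (mem_nbh_of_ne h hX hXk (Ne.symm hne))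

lemma th_ps {k : RP K κ} (hk : k.1.2 = ∅) {X' : Finset (Finset (Option B)) → ℝ}
    (hX : X' ∈ (bdry B).sd.sd.cone) (hXk : X' (ty κ k.1) ≠ 0) : th h k (ps h k X') = X' := by
  classical
  funext C
  by_cases hC : ∃ r ∈ nbh h k, ty κ r.1 = C
  · obtain ⟨r, hr, rfl⟩ := hC
    rw [th_ty h hk _ hr]
    unfold ps
    rw [if_pos hr]
  · have h1 : th h k (ps h k X') C = 0 := by
      by_contra hne
      obtain ⟨r, hr, h2, _⟩ := exists_of_th_ne h hne
      exact hC ⟨r, hr, h2⟩
    rw [h1]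
    by_contra hne
    have hne' : X' C ≠ 0 := Ne.symm hne
    obtain ⟨h0, _, 𝒞, h𝒞, hsupp⟩ := hX
    have hC𝒞 : C ∈ 𝒞 := by
      by_contra h4
      exact hne' (hsupp _ h4)
    have hk𝒞 : ty κ k.1 ∈ 𝒞 := by
      by_contra h4
      exact hXk (hsupp _ h4)
    obtain ⟨r, hr, hrC⟩ := exists_of_ty h hk (h𝒞.1 C hC𝒞).2 (h𝒞.1 C hC𝒞).1
      (h𝒞.2 _ hC𝒞 _ hk𝒞)
    exact hC ⟨r, (mem_nbh h).2 hr, hrC⟩

/-- the chart as a homeomorphism -/
noncomputable def thHomeo {k : RP K κ} (hk : k.1.2 = ∅) :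
    {X : RP K κ → ℝ // X ∈ (cd h).Y ∧ X k ≠ 0} ≃ₜ
      {X' : (bdry B).sd.sd.cone // X'.1 (ty κ k.1) ≠ 0} where
  toFun X := ⟨⟨th h k X.1, th_mem h hk X.2.1 X.2.2⟩, by
    show th h k X.1 (ty κ k.1) ≠ 0
    rw [th_ty h hk X.1 ((mem_nbh h).2 (Or.inl le_rfl))]
    exact X.2.2⟩
  invFun X' := ⟨ps h k X'.1.1, ps_mem h hk X'.1.2 X'.2⟩
  left_inv X := Subtype.ext (ps_th h hk X.2.1 X.2.2)
  right_inv X' := Subtype.ext (Subtype.ext (th_ps h hk X'.1.2 X'.2))
  continuous_toFun := by
    refine Continuous.subtype_mk (Continuous.subtype_mk (continuous_pi fun C => ?_) _) _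
    unfold th
    exact continuous_finsetSum _ fun r _ => (continuous_apply r).comp continuous_subtype_val
  continuous_invFun := by
    classical
    refine Continuous.subtype_mk (continuous_pi fun r => ?_) _
    unfold ps
    by_cases hr : r ∈ nbh h k
    · simp only [if_pos hr]
      exact (continuous_apply _).comp (continuous_subtype_val.comp continuous_subtype_val)
    · simp only [if_neg hr]
      exact continuous_const

lemma emb' (k : RP K κ) (hk : k.1.2 = ∅) : IsOpenEmbedding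
    (fun X : {X : RP K κ → ℝ // X ∈ (cd h).Y ∧ X k ≠ 0} => ∑ᶠ r, X.1 r • vecA (ty κ r.1)) := by
  classical
  have ho : IsOpen {X' : (bdry B).sd.sd.cone | X'.1 (ty κ k.1) ≠ 0} :=
    isOpen_ne.preimage ((continuous_apply (ty κ k.1)).comp continuous_subtype_val)
  have h1 := (isOpenEmbedding_devA (B := B)).comp
    (ho.isOpenEmbedding_subtypeVal.comp (thHomeo h hk).isOpenEmbedding)
  have h2 : (fun X : {X : RP K κ → ℝ // X ∈ (cd h).Y ∧ X k ≠ 0} =>
      ∑ᶠ r, X.1 r • vecA (ty κ r.1)) = (fun X : (bdry B).sd.sd.cone => devA X.1) ∘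
        (Subtype.val ∘ (thHomeo h hk)) := by
    funext X
    show _ = devA (th h k X.1)
    rw [devA_eq (th_mem h hk X.2.1 X.2.2)]
    have h3 : support (fun r => X.1 r • vecA (ty κ r.1)) ⊆ (nbh h k : Set (RP K κ)) := by
      intro r hr
      rw [mem_support] at hr
      have : X.1 r ≠ 0 := fun h0 => hr (by rw [h0, zero_smul])
      exact mem_nbh_of_ne h X.2.1 X.2.2 this
    rw [finsum_eq_sum_of_support_subset _ h3,
      ← Finset.sum_fiberwise (nbh h k) (fun r => ty κ r.1)]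
    refine Finset.sum_congr rfl fun C _ => ?_
    unfold th
    rw [Finset.sum_smul]
    refine Finset.sum_congr rfl fun r hr => ?_
    rw [(Finset.mem_filter.1 hr).2]
  rw [h2]
  exact h1

open Classical in
/-- restriction to `Kp` -/
noncomputable def toK (X : RP K κ → ℝ) (c : Finset (Finset V)) : ℝ :=
  if hc : c ∈ K.sd.faces ∧ c.Nonempty then X ⟨(c, ∅), hc.1, hc.2, by simp, by simp, by simp⟩ else 0

/-- extension by zero -/
noncomputable def ofK (Y : Finset (Finset V) → ℝ) (r : RP K κ) : ℝ :=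
  if r.1.2 = ∅ then Y r.1.1 else 0

omit h in
lemma rp_eq (r : RP K κ) (hr : r.1.2 = ∅) :
    (⟨(r.1.1, ∅), r.2.1, r.2.2.1, by simp, by simp, by simp⟩ : RP K κ) = r :=
  Subtype.ext (Prod.ext rfl hr.symm)

lemma toK_mem {X : RP K κ → ℝ} (hX : X ∈ (cd h).YK) : toK X ∈ K.sd.sd.cone := by
  classical
  obtain ⟨hY, hoff⟩ := hX
  refine ⟨fun c => ?_, ?_, ?_⟩
  · unfold toK
    split_ifs
    · exact hY.1 _
    · exact le_rfl
  · intro h0
    obtain ⟨k, hk, hk0⟩ := hY.2.2
    apply hk0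
    have h1 : toK X k.1.1 = X k := by
      unfold toK
      rw [dif_pos ⟨k.2.1, k.2.2.1⟩]
      congr 1
      exact rp_eq k hk
    rw [← h1, h0]
    rfl
  · have hfin := CD.supp_finite hY
    refine ⟨hfin.toFinset.image (fun r => r.1.1), ⟨?_, ?_⟩, ?_⟩
    · intro c hc
      obtain ⟨r, _, rfl⟩ := Finset.mem_image.1 hc
      exact ⟨r.2.2.1, r.2.1⟩
    · intro c hc c' hc'
      obtain ⟨r, hr, rfl⟩ := Finset.mem_image.1 hc
      obtain ⟨r', hr', rfl⟩ := Finset.mem_image.1 hc'
      rw [Set.Finite.mem_toFinset] at hr hr'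
      rcases hY.2.1 r r' hr hr' with h1 | h1
      · exact Or.inl h1.1
      · exact Or.inr h1.1
    · intro c hc
      unfold toK
      split_ifs with h1
      · by_contra hne
        apply hc
        exact Finset.mem_image.2 ⟨_, by rw [Set.Finite.mem_toFinset]; exact hne, rfl⟩
      · rfl

lemma ofK_mem {Y : Finset (Finset V) → ℝ} (hY : Y ∈ K.sd.sd.cone) : ofK Y ∈ (cd h).YK := by
  classical
  obtain ⟨h0, hne, 𝒞, h𝒞, hsupp⟩ := hY
  have hmem : ∀ c, Y c ≠ 0 → c ∈ 𝒞 := by
    intro c hc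
    by_contra h4
    exact hc (hsupp _ h4)
  have h1 : ∀ r : RP K κ, (ofK Y r : ℝ) ≠ 0 → r.1.2 = ∅ ∧ Y r.1.1 ≠ 0 := by
    intro r hr
    unfold ofK at hr
    split_ifs at hr with h2
    · exact ⟨h2, hr⟩
    · exact absurd rfl hr
  refine ⟨⟨fun r => ?_, fun r r' hr hr' => ?_, ?_⟩, fun r hr => ?_⟩
  · unfold ofK
    split_ifs
    · exact h0 _
    · exact le_rfl
  · obtain ⟨h2, h3⟩ := h1 r hr
    obtain ⟨h2', h3'⟩ := h1 r' hr'
    rcases h𝒞.2 _ (hmem _ h3) _ (hmem _ h3') with h4 | h4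
    · exact Or.inl ⟨h4, by rw [h2]; exact Finset.empty_subset _⟩
    · exact Or.inr ⟨h4, by rw [h2']; exact Finset.empty_subset _⟩
  · obtain ⟨c, hc⟩ := Function.ne_iff.1 hne
    have hc' := h𝒞.1 c (hmem c hc)
    refine ⟨⟨(c, ∅), hc'.2, hc'.1, by simp, by simp, by simp⟩, rfl, ?_⟩
    unfold ofK
    rw [if_pos rfl]
    exact hc
  · unfold ofK
    exact if_neg hr

/-- the chamber's core is the cone of the second subdivision -/
noncomputable def ykHomeo : (cd h).YK ≃ₜ K.sd.sd.cone where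
  toFun X := ⟨toK X.1, toK_mem h X.2⟩
  invFun Y := ⟨ofK Y.1, ofK_mem h Y.2⟩
  left_inv X := by
    classical
    refine Subtype.ext (funext fun r => ?_)
    show ofK (toK X.1) r = X.1 r
    unfold ofK
    split_ifs with h1
    · unfold toK
      rw [dif_pos ⟨r.2.1, r.2.2.1⟩]
      exact congrArg X.1 (rp_eq r h1)
    · exact (X.2.2 r h1).symm
  right_inv Y := by
    classical
    refine Subtype.ext (funext fun c => ?_)
    show toK (K := K) (κ := κ) (ofK (K := K) (κ := κ) Y.1) c = Y.1 c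
    unfold toK
    split_ifs with h1
    · unfold ofK
      rw [if_pos rfl]
    · obtain ⟨h0, hne, 𝒞, h𝒞, hsupp⟩ := Y.2
      symm
      apply hsupp
      intro hc
      exact h1 ⟨(h𝒞.1 c hc).2, (h𝒞.1 c hc).1⟩
  continuous_toFun := by
    classical
    refine Continuous.subtype_mk (continuous_pi fun c => ?_) _
    unfold toK
    by_cases hc : c ∈ K.sd.faces ∧ c.Nonempty
    · simp only [dif_pos hc]
      exact (continuous_apply _).comp continuous_subtype_val
    · simp only [dif_neg hc]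
      exact continuous_const
  continuous_invFun := by
    refine Continuous.subtype_mk (continuous_pi fun r => ?_) _
    unfold ofK
    by_cases hr : r.1.2 = ∅
    · simp only [if_pos hr]
      exact (continuous_apply _).comp continuous_subtype_val
    · simp only [if_neg hr]
      exact continuous_const

lemma contr' : ContractibleSpace (cd h).YK := by
  haveI := h.contr
  exact (((ykHomeo h).trans (K.sd.sdHomeo (SC.sd_locFin h.locFin))).trans
    (K.sdHomeo h.locFin)).contractibleSpace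

/-- **The poset of the chamber.** -/
theorem exists_MD : ∃ (R T : Type) (_ : PartialOrder R) (_ : MulAction E R) (_ : Fintype T)
    (D : CD R) (d : R → B → ℝ) (τ : R → T), MD E R B T D d τ z := by
  letI := act h
  refine ⟨RP K κ, Finset (Finset (Option B)), inferInstance, act h, inferInstance, cd h,
    fun r => vecA (ty κ r.1), fun r => ty κ r.1, ?_⟩
  exact {
    le_smul := fun e r r' hr => ⟨Finset.image_subset_image hr.1, hr.2⟩
    smul_mem := fun e k hk => hk
    d_smul := fun e r => congrArg vecA (ty_act h e r.1)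
    τ_smul := fun e r => ty_act h e r.1
    τ_inj := ty_inj h
    triv := triv' h
    stab := fun k _ e he => stab' h k e he
    fin := fin_orb h
    emb := fun k hk => emb' h k hk
    contr := contr' h }

end

end Pool.Agent.Helper53.CircP
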