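import Pool.Agent.Helper1.SD.Cone

set_option autoImplicit false

/-!
Change of coordinates for pairs of mutually dual cones.
-/

namespace Pool.Agent.Helper1.SD

open Matrix

section
variable {N : ℕ}

theorem coneOf_image (L : (Fin N → ℝ) ≃ₗ[ℝ] (Fin N → ℝ)) (G : Set (Fin N → ℝ)) :
    coneOf (L '' G) = L '' coneOf G := by
  have key : ∀ (M : (Fin N → ℝ) ≃ₗ[ℝ] (Fin N → ℝ)) (H : Set (Fin N → ℝ)),
      M '' coneOf H ⊆ coneOf (M '' H) := by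
    rintro M H _ ⟨x, ⟨t, c, ht, hc, rfl⟩, rfl⟩
    rw [map_sum]
    refine sum_mem_coneOf t _ fun v hv => ?_
    rw [map_smul]
    exact smul_mem_coneOf (hc v hv) (subset_coneOf _ ⟨v, ht v hv, rfl⟩)
  apply Set.Subset.antisymm
  · intro x hx
    refine ⟨L.symm x, ?_, L.apply_symm_apply x⟩
    have h1 := key L.symm (L '' G) ⟨x, hx, rfl⟩
    have h2 : L.symm '' (L '' G) = G := by
      rw [← Set.image_comp]
      have : (⇑L.symm ∘ ⇑L) = id := by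
        funext y
        exact L.symm_apply_apply y
      rw [this, Set.image_id]
    rwa [h2] at h1
  · exact key L G

theorem dualOf_image {L L' : (Fin N → ℝ) ≃ₗ[ℝ] (Fin N → ℝ)}
    (h : ∀ x y, L x ⬝ᵥ L' y = x ⬝ᵥ y) (X : Set (Fin N → ℝ)) :
    dualOf (L '' X) = L' '' dualOf X := by
  ext z
  constructor
  · intro hz
    refine ⟨L'.symm z, fun x hx => ?_, L'.apply_symm_apply z⟩
    have h1 := hz (L x) ⟨x, hx, rfl⟩
    rw [← L'.apply_symm_apply z, dotProduct_comm, h, dotProduct_comm] at h1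
    exact h1
  · rintro ⟨y, hy, rfl⟩ _ ⟨x, hx, rfl⟩
    rw [dotProduct_comm, h, dotProduct_comm]
    exact hy x hx

theorem perpIn_image {L L' : (Fin N → ℝ) ≃ₗ[ℝ] (Fin N → ℝ)}
    (h : ∀ x y, L x ⬝ᵥ L' y = x ⬝ᵥ y) (C : Set (Fin N → ℝ)) (g : Fin N → ℝ) :
    perpIn (L '' C) (L' g) = L '' perpIn C g := by
  ext z
  constructor
  · rintro ⟨⟨x, hx, rfl⟩, h0⟩
    rw [dotProduct_comm, h, dotProduct_comm] at h0
    exact ⟨x, ⟨hx, h0⟩, rfl⟩
  · rintro ⟨x, ⟨hx, h0⟩, rfl⟩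
    refine ⟨⟨x, hx, rfl⟩, ?_⟩
    rw [dotProduct_comm, h, dotProduct_comm]
    exact h0

theorem isSimplicialCone_image (L : (Fin N → ℝ) ≃ₗ[ℝ] (Fin N → ℝ)) {F : Set (Fin N → ℝ)}
    (hF : IsSimplicialCone F) : IsSimplicialCone (L '' F) := by
  obtain ⟨m, b, hb, rfl⟩ := hF
  refine ⟨m, fun i => L (b i), ?_, ?_⟩
  · exact hb.map' L.toLinearMap L.ker
  · rw [← coneOf_image, ← Set.range_comp]
    rfl

theorem finrank_span_image (L : (Fin N → ℝ) ≃ₗ[ℝ] (Fin N → ℝ)) (F : Set (Fin N → ℝ)) :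
    Module.finrank ℝ (Submodule.span ℝ (L '' F)) = Module.finrank ℝ (Submodule.span ℝ F) := by
  have h1 : Submodule.span ℝ (L '' F) = (Submodule.span ℝ F).map L.toLinearMap :=
    (Submodule.map_span L.toLinearMap F).symm
  rw [h1]
  exact LinearEquiv.finrank_map_eq L _

theorem ks_image {k : ℕ} {L L' : (Fin N → ℝ) ≃ₗ[ℝ] (Fin N → ℝ)}
    (h : ∀ x y, L x ⬝ᵥ L' y = x ⬝ᵥ y) {C D : Set (Fin N → ℝ)} (hk : KS k C D) :
    KS k (L '' C) (L' '' D) := by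
  rintro _ ⟨g, hg, rfl⟩
  rw [perpIn_image h, finrank_span_image]
  exact (hk g hg).imp_left (isSimplicialCone_image L)

/-- the linear bijections with the rows `q` and `p` -/
theorem exists_equivs (p q : Fin N → (Fin N → ℝ))
    (hpq : ∀ i j, q i ⬝ᵥ p j = if i = j then 1 else 0) :
    ∃ L L' : (Fin N → ℝ) ≃ₗ[ℝ] (Fin N → ℝ), (∀ x y, L x ⬝ᵥ L' y = x ⬝ᵥ y) ∧
      (∀ x i, L x i = q i ⬝ᵥ x) ∧ (∀ y i, L' y i = y ⬝ᵥ p i) := by
  let Q : Matrix (Fin N) (Fin N) ℝ := Matrix.of q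
  let P : Matrix (Fin N) (Fin N) ℝ := Matrix.of p
  have h1 : Q * Pᵀ = 1 := by
    ext i j
    rw [Matrix.mul_apply, Matrix.one_apply, ← hpq i j]
    rfl
  have h2 : Pᵀ * Q = 1 := mul_eq_one_comm.1 h1
  have h3 : P * Qᵀ = 1 := by
    have := congrArg Matrix.transpose h1
    rwa [Matrix.transpose_mul, Matrix.transpose_transpose, Matrix.transpose_one] at this
  have h4 : Qᵀ * P = 1 := mul_eq_one_comm.1 h3
  let L : (Fin N → ℝ) ≃ₗ[ℝ] (Fin N → ℝ) :=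
    LinearEquiv.ofLinearMap (Matrix.toLin' Q) (Matrix.toLin' Pᵀ)
      (by rw [← Matrix.toLin'_mul, h1, Matrix.toLin'_one])
      (by rw [← Matrix.toLin'_mul, h2, Matrix.toLin'_one])
  let L' : (Fin N → ℝ) ≃ₗ[ℝ] (Fin N → ℝ) :=
    LinearEquiv.ofLinearMap (Matrix.toLin' P) (Matrix.toLin' Qᵀ)
      (by rw [← Matrix.toLin'_mul, h3, Matrix.toLin'_one])
      (by rw [← Matrix.toLin'_mul, h4, Matrix.toLin'_one])
  refine ⟨L, L', fun x y => ?_, fun x i => ?_, fun y i => ?_⟩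
  · show (Q *ᵥ x) ⬝ᵥ (P *ᵥ y) = x ⬝ᵥ y
    rw [Matrix.dotProduct_mulVec, ← Matrix.mulVec_transpose, Matrix.mulVec_mulVec]
    have h5 : Pᵀ * Q = 1 := h2
    rw [h5, Matrix.one_mulVec]
  · rfl
  · show p i ⬝ᵥ y = y ⬝ᵥ p i
    exact dotProduct_comm _ _

end

end Pool.Agent.Helper1.SD
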