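import Mathlib

/-!
# MP_3cffc3_co, module S1: separators from a map to the grid
-/

namespace Pool.Agent.Helper53.STPS1

open scoped Classical
open Finset

/-- residue classes do not change along steps avoiding the class `a` -/
lemma div_step {k a x : ℕ} (ha : a < k) (h : (x + 1) % k ≠ a) :
    (x + 1 + k - a) / k = (x + k - a) / k := by
  have h1 : x + 1 + k - a = (x + k - a) + 1 := by omega
  rw [h1, Nat.succ_div]
  have h2 : ¬ k ∣ (x + k - a) + 1 := by
    rintro ⟨q, hq⟩
    apply h
    have h3 : x + 1 + k = k * q + a := by omega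
    have h4 : (x + 1 + k) % k = (k * q + a) % k := by rw [h3]
    rw [Nat.add_mod_right, Nat.mul_add_mod, Nat.mod_eq_of_lt ha] at h4
    exact h4
  rw [if_neg h2, add_zero]

lemma div_eq_of_close {k a x y : ℕ} (ha : a < k) (hx : x % k ≠ a) (hy : y % k ≠ a)
    (h1 : x ≤ y + 1) (h2 : y ≤ x + 1) : (x + k - a) / k = (y + k - a) / k := by
  rcases (by omega : x = y ∨ x = y + 1 ∨ y = x + 1) with h | h | h
  · rw [h]
  · subst h
    exact div_step ha hx
  · subst h
    exact (div_step ha hy).symm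

/-- the values with a given quotient -/
lemma mem_box {k a x A : ℕ} (ha : a < k) (hx : x % k ≠ a) (h : (x + k - a) / k = A) :
    x ∈ (Finset.range (k - 1)).image (fun t => A * k + 1 + t + a - k) := by
  have hk : 0 < k := by omega
  have h1 : A * k ≤ x + k - a := by
    rw [← h]
    exact Nat.div_mul_le_self _ _
  have h2 : x + k - a < A * k + k := by
    have := Nat.lt_div_mul_add hk (a := x + k - a)
    rwa [h] at this
  have h3 : x + k - a ≠ A * k := by
    intro h3
    apply hx
    have h4 : (x + k) % k = (k * A + a) % k := by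
      rw [mul_comm k A]
      congr 1
      omega
    rw [Nat.add_mod_right, Nat.mul_add_mod, Nat.mod_eq_of_lt ha] at h4
    exact h4
  rw [Finset.mem_image]
  refine ⟨x + k - a - A * k - 1, ?_, ?_⟩
  · rw [Finset.mem_range]
    omega
  · omega

theorem sep_of_map {V : Type} [Finite V] (G : SimpleGraph V) (φ : V → ℕ × ℕ)
    (h1 : ∀ u v, G.Adj u v → (φ u).1 ≤ (φ v).1 + 1 ∧ (φ u).2 ≤ (φ v).2 + 1)
    (h4 : ∀ p, {v | φ v = p}.ncard ≤ 4) (H : G.Subgraph) :
    ∃ S : Set V, S ⊆ H.verts ∧ (S.ncard : ℝ) ≤ 5 * (H.verts.ncard : ℝ) ^ (1 - (1 / 2 : ℝ)) ∧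
      ∀ K : (H.deleteVerts S).coe.ConnectedComponent,
        (K.supp.ncard : ℝ) ≤ 2 / 3 * H.verts.ncard := by
  have := Fintype.ofFinite V
  set m := H.verts.ncard with hm
  set k := Nat.sqrt (m / 6) + 1 with hk
  have hk0 : 0 < k := Nat.succ_pos _
  have hka : 6 * (k - 1) ^ 2 ≤ m := by
    have h2 := Nat.sqrt_le' (m / 6)
    have h3 : k - 1 = Nat.sqrt (m / 6) := by omega
    rw [h3]
    omega
  have hkb : m < 6 * k ^ 2 := by
    have h2 := Nat.lt_succ_sqrt' (m / 6)
    have h3 : m / 6 < k ^ 2 := h2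
    omega
  set V0 : Finset V := univ.filter (fun v => v ∈ H.verts) with hV0
  have hV0c : #V0 = m := by
    rw [hm, Set.ncard_eq_toFinset_card', hV0]
    congr 1
    ext v
    simp
  have pig : ∀ f : V → ℕ, ∃ a, a < k ∧ (#{v ∈ V0 | f v % k = a} : ℝ) ≤ (m : ℝ) / k := by
    intro f
    obtain ⟨a, ha, ha2⟩ := Finset.exists_card_fiber_le_of_card_le_nsmul (M := ℝ) (s := V0)
      (t := Finset.range k) (f := fun v => f v % k) (b := (m : ℝ) / k)
      ⟨0, Finset.mem_range.2 hk0⟩ (by
        rw [hV0c, Finset.card_range, nsmul_eq_mul]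
        have : (k : ℝ) ≠ 0 := by positivity
        field_simp
        exact le_rfl)
    exact ⟨a, Finset.mem_range.1 ha, ha2⟩
  obtain ⟨a, ha, ha2⟩ := pig (fun v => (φ v).1)
  obtain ⟨b, hb, hb2⟩ := pig (fun v => (φ v).2)
  set S : Finset V := {v ∈ V0 | (φ v).1 % k = a} ∪ {v ∈ V0 | (φ v).2 % k = b} with hS
  have hSm : ∀ v, v ∈ S ↔ v ∈ H.verts ∧ ((φ v).1 % k = a ∨ (φ v).2 % k = b) := by
    intro v
    simp only [hS, hV0, Finset.mem_union, Finset.mem_filter, Finset.mem_univ, true_and]
    tauto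
  refine ⟨(S : Set V), ?_, ?_, ?_⟩
  · intro v hv
    rw [Finset.mem_coe, hSm] at hv
    exact hv.1
  · rw [Set.ncard_coe_finset]
    have h5 : (#S : ℝ) ≤ 2 * ((m : ℝ) / k) := by
      have : #S ≤ #{v ∈ V0 | (φ v).1 % k = a} + #{v ∈ V0 | (φ v).2 % k = b} :=
        Finset.card_union_le _ _
      have : (#S : ℝ) ≤ #{v ∈ V0 | (φ v).1 % k = a} + #{v ∈ V0 | (φ v).2 % k = b} := by
        exact_mod_cast this
      linarith
    refine h5.trans ?_
    rw [show (1 - (1 / 2 : ℝ)) = 1 / 2 by norm_num, ← Real.sqrt_eq_rpow]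
    have hk0' : (0 : ℝ) < k := by exact_mod_cast hk0
    set q := Real.sqrt (m : ℝ) with hq
    have hq0 : 0 ≤ q := Real.sqrt_nonneg _
    have hqq : q * q = m := Real.mul_self_sqrt (Nat.cast_nonneg _)
    have hkb' : (m : ℝ) < 6 * (k : ℝ) ^ 2 := by exact_mod_cast hkb
    have h6 : 2 * q ≤ 5 * k := by
      by_contra hcon
      push Not at hcon
      nlinarith
    rw [mul_div_assoc', div_le_iff₀ hk0', ← hqq]
    nlinarith
  · intro K
    -- the invariants
    set g : (H.deleteVerts (S : Set V)).verts → ℕ × ℕ := fun v =>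
      (((φ v).1 + k - a) / k, ((φ v).2 + k - b) / k) with hg
    have hmem : ∀ v : (H.deleteVerts (S : Set V)).verts, (φ v).1 % k ≠ a ∧ (φ v).2 % k ≠ b := by
      rintro ⟨v, hv⟩
      rw [SimpleGraph.Subgraph.deleteVerts_verts] at hv
      obtain ⟨hv1, hv2⟩ := hv
      rw [Finset.mem_coe, hSm] at hv2
      constructor
      · intro h; exact hv2 ⟨hv1, Or.inl h⟩
      · intro h; exact hv2 ⟨hv1, Or.inr h⟩
    have hadj : ∀ u v, (H.deleteVerts (S : Set V)).coe.Adj u v → g u = g v := by
      intro u v huv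
      have hG : G.Adj u v := (H.deleteVerts (S : Set V)).adj_sub huv
      have e1 := h1 _ _ hG
      have e2 := h1 _ _ hG.symm
      rw [hg, Prod.mk.injEq]
      exact ⟨div_eq_of_close ha (hmem u).1 (hmem v).1 e1.1 e2.1,
        div_eq_of_close hb (hmem u).2 (hmem v).2 e1.2 e2.2⟩
    have hreach : ∀ u v, (H.deleteVerts (S : Set V)).coe.Reachable u v → g u = g v := by
      rintro u v ⟨p⟩
      induction p with
      | nil => rfl
      | cons h _ ih => exact (hadj _ _ h).trans ih
    obtain ⟨u, hu⟩ := K.nonempty_supp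
    have hK : ∀ v ∈ K.supp, g v = g u := by
      intro v hv
      apply hreach
      rw [SimpleGraph.ConnectedComponent.mem_supp_iff] at hu hv
      rw [← hu] at hv
      exact SimpleGraph.ConnectedComponent.exact hv
    set box : Finset (ℕ × ℕ) :=
      ((Finset.range (k - 1)).image (fun t => (g u).1 * k + 1 + t + a - k)) ×ˢ
      ((Finset.range (k - 1)).image (fun t => (g u).2 * k + 1 + t + b - k)) with hbox
    have hboxc : box.card ≤ (k - 1) ^ 2 := by
      rw [hbox, Finset.card_product, sq]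
      refine Nat.mul_le_mul ?_ ?_ <;>
      · refine Finset.card_image_le.trans ?_
        rw [Finset.card_range]
    set KV : Finset V := univ.filter (fun v => ∃ h : v ∈ (H.deleteVerts (S : Set V)).verts,
      (⟨v, h⟩ : (H.deleteVerts (S : Set V)).verts) ∈ K.supp) with hKV
    have hKc : K.supp.ncard ≤ #KV := by
      rw [← Set.ncard_coe_finset]
      refine Set.ncard_le_ncard_of_injOn (fun v => (v : V)) ?_ ?_ (Set.toFinite _)
      · intro v hv
        rw [Finset.mem_coe, hKV, Finset.mem_filter]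
        exact ⟨Finset.mem_univ _, v.2, hv⟩
      · intro v _ w _ hvw
        exact Subtype.ext hvw
    have hKV2 : #KV ≤ 4 * box.card := by
      have e1 : #KV ≤ 4 * #(KV.image φ) := by
        refine Finset.card_le_mul_card_image KV 4 ?_
        intro p _
        refine le_trans ?_ (h4 p)
        rw [← Set.ncard_coe_finset]
        refine Set.ncard_le_ncard ?_ (Set.toFinite _)
        intro v hv
        rw [Finset.mem_coe, Finset.mem_filter] at hv
        exact hv.2
      refine e1.trans (Nat.mul_le_mul_left _ (Finset.card_le_card ?_))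
      intro p hp
      obtain ⟨v, hv, rfl⟩ := Finset.mem_image.1 hp
      rw [hKV, Finset.mem_filter] at hv
      obtain ⟨_, hv1, hv2⟩ := hv
      have e2 := hK _ hv2
      have e3 := hmem ⟨v, hv1⟩
      rw [hbox, Finset.mem_product]
      rw [hg, Prod.mk.injEq] at e2
      exact ⟨mem_box ha e3.1 e2.1, mem_box hb e3.2 e2.2⟩
    have hfin : 3 * K.supp.ncard ≤ 2 * m := by
      have : K.supp.ncard ≤ 4 * (k - 1) ^ 2 := hKc.trans (hKV2.trans (Nat.mul_le_mul_left _ hboxc))
      omega
    have : (3 : ℝ) * K.supp.ncard ≤ 2 * m := by exact_mod_cast hfin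
    linarith

end Pool.Agent.Helper53.STPS1
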