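import Mathlib

set_option autoImplicit false

namespace Pool.Agent.Helper53.Spec

/-- `x` is nilpotent: some power `x ^ (n + 1)` vanishes. -/
def Nil {S : Type*} [NonUnitalRing S] (x : S) : Prop :=
  ∃ n : ℕ, (fun y => x * y)^[n] x = 0

/-- `lowerPow C k` is the span of all products of `k + 1` elements of `C`. -/
def lowerPow {F B : Type*} [Field F] [NonUnitalRing B] [Module F B] (C : Submodule F B) :
    ℕ → Submodule F B
  | 0 => C
  | k + 1 => Submodule.span F {z | ∃ x ∈ C, ∃ y ∈ lowerPow C k, z = x * y}

/-- The radical `N` is special: there is a class `M` of prime rings, hereditary on nonzero ideals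
and closed under essential extensions, such that a ring has no nonzero homomorphic image free of
nonzero one-sided nil ideals if and only if it has no nonzero homomorphic image in `M`. -/
def NSpecial : Prop :=
  ∃ M : (S : Type) → NonUnitalRing S → Prop,
    (∀ (S : Type) [iS : NonUnitalRing S], M S iS →
        Nontrivial S ∧ ∀ a b : S, (∀ r : S, a * r * b = 0) → a = 0 ∨ b = 0) ∧
    (∀ (A K : Type) [iA : NonUnitalRing A] [iK : NonUnitalRing K] (f : A →ₙ+* K),
        Function.Injective f →
        (∀ (k : K) (a : A), k * f a ∈ Set.range f ∧ f a * k ∈ Set.range f) →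
        ((Nontrivial A → M K iK → M A iA) ∧
         ((∀ J : AddSubgroup K, (∀ (k x : K), x ∈ J → k * x ∈ J ∧ x * k ∈ J) → J ≠ ⊥ →
             ∃ a : A, f a ≠ 0 ∧ f a ∈ J) → M A iA → M K iK))) ∧
    (∀ (R : Type) [iR : NonUnitalRing R],
      (∀ (S : Type) [iS : NonUnitalRing S] (g : R →ₙ+* S), Function.Surjective g →
          (∀ L : AddSubgroup S,
             ((∀ (r x : S), x ∈ L → r * x ∈ L) ∨ (∀ (r x : S), x ∈ L → x * r ∈ L)) →
             (∀ x ∈ L, Nil x) → L = ⊥) →
          Subsingleton S) ↔
      (∀ (S : Type) [iS : NonUnitalRing S] (g : R →ₙ+* S), Function.Surjective g →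
          M S iS → Subsingleton S))

end Pool.Agent.Helper53.Spec
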