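import Mathlib
import Pool.Agent.Helper53.SpecDefs

set_option autoImplicit false

namespace Pool.Agent.Helper53.Spec

section Basic
variable {S T : Type*} [NonUnitalRing S] [NonUnitalRing T]

/-- `pw x n` is the power `x ^ (n + 1)`. -/
def pw (x : S) (n : ℕ) : S := (fun y => x * y)^[n] x

lemma pw_zero (x : S) : pw x 0 = x := rfl

lemma pw_succ (x : S) (n : ℕ) : pw x (n + 1) = x * pw x n := by
  unfold pw
  rw [Function.iterate_succ_apply']

lemma pw_succ' (x : S) (n : ℕ) : pw x (n + 1) = pw x n * x := by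
  induction n with
  | zero => rw [pw_succ, pw_zero]
  | succ n ih => rw [pw_succ x (n + 1), ih, ← mul_assoc, ← pw_succ, pw_succ x n, ← pw_succ x n, ih]

lemma nil_iff (x : S) : Nil x ↔ ∃ n, pw x n = 0 := Iff.rfl

lemma map_pw (f : S →ₙ+* T) (x : S) (n : ℕ) : f (pw x n) = pw (f x) n := by
  induction n with
  | zero => rfl
  | succ n ih => rw [pw_succ, pw_succ, map_mul, ih]

lemma pw_mul (x y : S) (n : ℕ) : pw (x * y) (n + 1) = x * pw (y * x) n * y := by
  induction n with
  | zero => rw [pw_succ, pw_zero, pw_zero]; simp only [mul_assoc]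
  | succ n ih =>
    rw [pw_succ, ih, pw_succ (y * x) n]; simp only [mul_assoc]

lemma Nil.comm {x y : S} (h : Nil (x * y)) : Nil (y * x) := by
  obtain ⟨n, hn⟩ := h
  refine ⟨n + 1, ?_⟩
  change pw (y * x) (n + 1) = 0
  rw [pw_mul]
  have : pw (x * y) n = 0 := hn
  rw [this]
  simp

lemma Nil.map {x : S} (h : Nil x) (f : S →ₙ+* T) : Nil (f x) := by
  obtain ⟨n, hn⟩ := h
  refine ⟨n, ?_⟩
  change pw (f x) n = 0
  rw [← map_pw]
  have : pw x n = 0 := hn
  rw [this, map_zero]

lemma pw_eq_zero_of_le {x : S} {n m : ℕ} (h : pw x n = 0) (hm : n ≤ m) : pw x m = 0 := by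
  induction m, hm using Nat.le_induction with
  | base => exact h
  | succ m _ ih => rw [pw_succ, ih, mul_zero]

end Basic

section Tree

variable (𝔐 : List ℕ → Type) [∀ s, NonUnitalRing (𝔐 s)]
  (Φ : ∀ (i : ℕ) (s : List ℕ), 𝔐 s →ₙ+* 𝔐 (i :: s))

variable {𝔐} in
/-- The set of edges where `f` does not follow the transition maps. -/
def exc (f : ∀ s, 𝔐 s) : Set (ℕ × List ℕ) :=
  {p | f (p.1 :: p.2) ≠ Φ p.1 p.2 (f p.2)}

/-- The ring of all families which follow the transition maps with finitely many exceptions. -/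
def treeRing : NonUnitalSubring (∀ s, 𝔐 s) where
  carrier := {f | (exc Φ f).Finite}
  add_mem' := by
    intro f g hf hg
    refine (hf.union hg).subset ?_
    intro p hp
    by_contra h
    simp only [exc, Set.mem_union, Set.mem_setOf_eq, not_or, not_not] at h
    exact hp (by simp [h.1, h.2])
  zero_mem' := by
    have : exc Φ (0 : ∀ s, 𝔐 s) = ∅ := by
      ext p
      simp [exc]
    simp [this]
  neg_mem' := by
    intro f hf
    refine hf.subset ?_
    intro p hp
    by_contra h
    simp only [exc, Set.mem_setOf_eq, not_not] at h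
    exact hp (by simp [h])
  mul_mem' := by
    intro f g hf hg
    refine (hf.union hg).subset ?_
    intro p hp
    by_contra h
    simp only [exc, Set.mem_union, Set.mem_setOf_eq, not_or, not_not] at h
    exact hp (by simp [h.1, h.2])

lemma mem_treeRing (f : ∀ s, 𝔐 s) : f ∈ treeRing 𝔐 Φ ↔ (exc Φ f).Finite := Iff.rfl

variable {𝔐}

open Classical in
/-- The family supported on the cone at `t` which has value `x` at `t` and follows the maps. -/
noncomputable def ext (t : List ℕ) (x : 𝔐 t) : ∀ s, 𝔐 s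
  | [] => if h : t = [] then h ▸ x else 0
  | i :: s => if h : t = i :: s then h ▸ x else Φ i s (ext t x s)

lemma ext_self (t : List ℕ) (x : 𝔐 t) : ext Φ t x t = x := by
  cases t with
  | nil => simp [ext]
  | cons i s => simp [ext]

lemma ext_cons (t : List ℕ) (x : 𝔐 t) (i : ℕ) (s : List ℕ) (h : t ≠ i :: s) :
    ext Φ t x (i :: s) = Φ i s (ext Φ t x s) := by
  simp [ext, h]

lemma ext_mem (t : List ℕ) (x : 𝔐 t) : ext Φ t x ∈ treeRing 𝔐 Φ := by
  rw [mem_treeRing]
  refine Set.Finite.subset (Set.Subsingleton.finite (s := {p : ℕ × List ℕ | t = p.1 :: p.2}) ?_) ?_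
  · rintro ⟨i, s⟩ h ⟨j, u⟩ h'
    simp only [Set.mem_setOf_eq] at h h'
    rw [h] at h'
    simpa using h'
  · intro p hp
    by_contra h
    exact hp (ext_cons Φ t x p.1 p.2 h)

/-- `f` vanishes outside the cone at `t`. -/
def InCone (t : List ℕ) (f : ∀ s, 𝔐 s) : Prop := ∀ s, ¬ t <:+ s → f s = 0

lemma ext_inCone (t : List ℕ) (x : 𝔐 t) : InCone t (ext Φ t x) := by
  intro s hs
  induction s with
  | nil =>
    have : t ≠ [] := by
      rintro rfl
      exact hs (List.nil_suffix)
    simp [ext, this]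
  | cons i s ih =>
    have h1 : t ≠ i :: s := by
      rintro rfl
      exact hs (List.suffix_refl _)
    have h2 : ¬ t <:+ s := fun h => hs (h.trans (List.suffix_cons i s))
    rw [ext_cons Φ t x i s h1, ih h2, map_zero]

lemma ext_add (t : List ℕ) (x y : 𝔐 t) : ext Φ t (x + y) = ext Φ t x + ext Φ t y := by
  funext s
  induction s with
  | nil =>
    by_cases h : t = []
    · subst h; simp [ext]
    · simp [ext, h]
  | cons i s ih =>
    by_cases h : t = i :: s
    · subst h; simp [ext]
    · rw [ext_cons Φ t _ i s h, Pi.add_apply, ext_cons Φ t _ i s h, ext_cons Φ t _ i s h, ih,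
        Pi.add_apply, map_add]

/-- Propagation of zero inside a cone without exceptional edges. -/
lemma eq_zero_of_cone {t : List ℕ} {f : ∀ s, 𝔐 s}
    (h : ∀ i s, t <:+ s → f (i :: s) = Φ i s (f s)) (h0 : f t = 0) :
    ∀ s, t <:+ s → f s = 0 := by
  intro s
  induction s with
  | nil =>
    intro hs
    have : t = [] := List.suffix_nil.1 hs
    subst this
    exact h0
  | cons i s ih =>
    intro hs
    rcases List.suffix_cons_iff.1 hs with h1 | h1
    · subst h1
      exact h0
    · rw [h i s h1, ih h1, map_zero]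

lemma child_of_suffix {t s : List ℕ} (h : t <:+ s) (hne : s ≠ t) : ∃ i, (i :: t) <:+ s := by
  obtain ⟨u, rfl⟩ := h
  have hu : u ≠ [] := by
    rintro rfl
    simp at hne
  refine ⟨u.getLast hu, u.dropLast, ?_⟩
  have := List.dropLast_append_getLast hu
  conv_rhs => rw [← this]
  simp

lemma child_unique {t s : List ℕ} {i j : ℕ} (hi : (i :: t) <:+ s) (hj : (j :: t) <:+ s) :
    i = j := by
  have h := List.suffix_of_suffix_length_le hi hj (by simp)
  have h2 := h.eq_of_length (by simp)
  simpa using h2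

open Classical in
/-- Restriction of a family to the cone at `t`. -/
noncomputable def restr (t : List ℕ) (f : ∀ s, 𝔐 s) : ∀ s, 𝔐 s := fun s => if t <:+ s then f s else 0

lemma restr_inCone (t : List ℕ) (f : ∀ s, 𝔐 s) : InCone t (restr t f) := by
  intro s hs
  simp [restr, hs]

lemma restr_mem (t : List ℕ) (f : ∀ s, 𝔐 s) (hf : f ∈ treeRing 𝔐 Φ) :
    restr t f ∈ treeRing 𝔐 Φ := by
  rw [mem_treeRing] at hf ⊢
  refine Set.Finite.subset (hf.union (Set.Subsingleton.finite
    (s := {p : ℕ × List ℕ | t = p.1 :: p.2}) ?_)) ?_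
  · rintro ⟨i, s⟩ h ⟨j, u⟩ h'
    simp only [Set.mem_setOf_eq] at h h'
    rw [h] at h'
    simpa using h'
  · rintro ⟨i, s⟩ hp
    by_contra h
    simp only [exc, Set.mem_union, Set.mem_setOf_eq, not_or, not_not] at h
    apply hp
    show restr t f (i :: s) = Φ i s (restr t f s)
    by_cases h1 : t <:+ s
    · have h2 : t <:+ i :: s := h1.trans (List.suffix_cons i s)
      simp [restr, h1, h2, h.1]
    · have h2 : ¬ t <:+ i :: s := by
        intro h3
        rcases List.suffix_cons_iff.1 h3 with h4 | h4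
        · exact h.2 h4
        · exact h1 h4
      simp [restr, h1, h2]

variable {S : Type} [NonUnitalRing S] (g : treeRing 𝔐 Φ →ₙ+* S)

lemma map_eq_zero_of_children (t : List ℕ)
    (hch : ∀ (i : ℕ) (f : treeRing 𝔐 Φ), InCone (i :: t) f.1 → g f = 0)
    (h : treeRing 𝔐 Φ) (hc : InCone t h.1) (h0 : h.1 t = 0) : g h = 0 := by
  classical
  have hE : (exc Φ h.1).Finite := h.2
  -- the set of relevant children
  have hJ : {i : ℕ | ∃ s, (i :: t) <:+ s ∧ h.1 s ≠ 0}.Finite := by
    have hsub : {i : ℕ | ∃ s, (i :: t) <:+ s ∧ h.1 s ≠ 0} ⊆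
        ⋃ p ∈ exc Φ h.1, {i | (i :: t) <:+ p.1 :: p.2} := by
      rintro i ⟨s, hs, hs0⟩
      by_contra hcon
      simp only [Set.mem_iUnion, Set.mem_setOf_eq, not_exists] at hcon
      have hno : ∀ j u, (i :: t) <:+ j :: u → h.1 (j :: u) = Φ j u (h.1 u) := by
        intro j u hju
        by_contra hne
        exact hcon (j, u) hne hju
      apply hs0
      refine eq_zero_of_cone Φ (t := i :: t) ?_ ?_ s hs
      · intro j u hu
        exact hno j u (hu.trans (List.suffix_cons j u))
      · rw [hno i t (List.suffix_refl _), h0, map_zero]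
    refine Set.Finite.subset (hE.biUnion fun p _ => ?_) hsub
    exact Set.Subsingleton.finite fun i hi j hj => child_unique hi hj
  have hsum : h = ∑ i ∈ hJ.toFinset, (⟨restr (i :: t) h.1, restr_mem Φ _ _ h.2⟩ : treeRing 𝔐 Φ) := by
    apply Subtype.ext
    have e : (((∑ i ∈ hJ.toFinset, (⟨restr (i :: t) h.1, restr_mem Φ _ _ h.2⟩ : treeRing 𝔐 Φ) :
        treeRing 𝔐 Φ)) : ∀ s, 𝔐 s) = ∑ i ∈ hJ.toFinset, restr (i :: t) h.1 := by
      rw [AddSubmonoidClass.coe_finset_sum]
    rw [e]
    funext s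
    rw [Finset.sum_apply]
    by_cases hts : t <:+ s
    · by_cases hst : s = t
      · subst hst
        rw [h0]
        symm
        apply Finset.sum_eq_zero
        intro i _
        have : ¬ (i :: s) <:+ s := by
          intro h3
          have := h3.length_le
          simp at this
        simp [restr, this]
      · obtain ⟨i, hi⟩ := child_of_suffix hts hst
        have hz : ∀ j ∈ hJ.toFinset, j ≠ i → restr (j :: t) h.1 s = 0 := by
          intro j _ hji
          have : ¬ (j :: t) <:+ s := fun h3 => hji (child_unique h3 hi)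
          simp [restr, this]
        by_cases hiJ : i ∈ hJ.toFinset
        · rw [Finset.sum_eq_single_of_mem i hiJ hz]
          simp [restr, hi]
        · rw [Finset.sum_eq_zero]
          · by_contra hne
            apply hiJ
            simp only [Set.Finite.mem_toFinset, Set.mem_setOf_eq]
            exact ⟨s, hi, hne⟩
          · intro j hj
            exact hz j hj (by rintro rfl; exact hiJ hj)
    · rw [hc s hts]
      symm
      apply Finset.sum_eq_zero
      intro i _
      have : ¬ (i :: t) <:+ s := fun h3 => hts ((List.suffix_cons i t).trans h3)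
      simp [restr, this]
  rw [hsum, map_sum]
  apply Finset.sum_eq_zero
  intro i _
  exact hch i _ (restr_inCone _ _)

lemma coe_pw (f : treeRing 𝔐 Φ) (n : ℕ) (s : List ℕ) : (pw f n).1 s = pw (f.1 s) n := by
  induction n with
  | zero => rfl
  | succ n ih =>
    rw [pw_succ, pw_succ, ← ih]
    rfl

/-- Every prime image of the tree ring has a nonzero element generating a nil left ideal. -/
theorem exists_nil_of_prime
    (H1 : ∀ i s (x : 𝔐 s), Nil (Φ i s x))
    (H3 : ∀ s (x : 𝔐 s), x ∈ AddSubgroup.closure {z : 𝔐 s | ∀ y, Nil (y * z)})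
    (hg : Function.Surjective g) [Nontrivial S]
    (hp : ∀ a b : S, (∀ r : S, a * r * b = 0) → a = 0 ∨ b = 0) :
    ∃ z : S, z ≠ 0 ∧ ∀ r, Nil (r * z) := by
  classical
  by_cases hA : ∃ t : List ℕ, (∃ f : treeRing 𝔐 Φ, InCone t f.1 ∧ g f ≠ 0) ∧
      ∀ (i : ℕ) (f : treeRing 𝔐 Φ), InCone (i :: t) f.1 → g f = 0
  · obtain ⟨t, ⟨f, hft, hf⟩, hch⟩ := hA
    let e : 𝔐 t → treeRing 𝔐 Φ := fun x => ⟨ext Φ t x, ext_mem Φ t x⟩
    have he_add : ∀ x y, e (x + y) = e x + e y := fun x y => Subtype.ext (ext_add Φ t x y)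
    have he : ∀ f : treeRing 𝔐 Φ, InCone t f.1 → g f = g (e (f.1 t)) := by
      intro f hf
      have := map_eq_zero_of_children Φ g t hch (f - e (f.1 t)) (by
        intro s hs
        show f.1 s - ext Φ t (f.1 t) s = 0
        rw [hf s hs, ext_inCone Φ t _ s hs, sub_zero]) (by
        show f.1 t - ext Φ t (f.1 t) t = 0
        rw [ext_self, sub_self])
      rw [map_sub, sub_eq_zero] at this
      exact this
    obtain ⟨z, hz, hgz⟩ : ∃ z : 𝔐 t, (∀ y, Nil (y * z)) ∧ g (e z) ≠ 0 := by
      by_contra hcon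
      push Not at hcon
      have hall : ∀ x : 𝔐 t, g (e x) = 0 := by
        let φ : 𝔐 t →+ S := AddMonoidHom.mk' (fun x => g (e x)) (fun x y => by
          rw [he_add, map_add])
        intro x
        have hx := H3 t x
        have hle : AddSubgroup.closure {z : 𝔐 t | ∀ y, Nil (y * z)} ≤ φ.ker := by
          rw [AddSubgroup.closure_le]
          intro z hz
          exact hcon z hz
        exact hle hx
      apply hf
      rw [he f hft]
      exact hall _
    refine ⟨g (e z), hgz, fun r => ?_⟩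
    obtain ⟨ρ, rfl⟩ := hg r
    rw [← map_mul]
    obtain ⟨n, hn⟩ := hz (ρ.1 t)
    refine ⟨n, ?_⟩
    change pw (g (ρ * e z)) n = 0
    rw [← map_pw]
    apply map_eq_zero_of_children Φ g t hch
    · intro s hs
      rw [coe_pw]
      have h1 : (ρ * e z).1 s = 0 := by
        show ρ.1 s * ext Φ t z s = 0
        rw [ext_inCone Φ t z s hs, mul_zero]
      rw [h1]
      cases n with
      | zero => rfl
      | succ n => rw [pw_succ, zero_mul]
    · rw [coe_pw]
      have h1 : (ρ * e z).1 t = ρ.1 t * z := by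
        show ρ.1 t * ext Φ t z t = ρ.1 t * z
        rw [ext_self]
      rw [h1]
      exact hn
  · push Not at hA
    -- an infinite branch
    let P : List ℕ → Prop := fun t => ∃ f : treeRing 𝔐 Φ, InCone t f.1 ∧ g f ≠ 0
    have hroot : P [] := by
      obtain ⟨a, ha⟩ := exists_ne (0 : S)
      obtain ⟨f, rfl⟩ := hg a
      exact ⟨f, fun s hs => absurd (List.nil_suffix) hs, ha⟩
    have hstep : ∀ t : {t // P t}, ∃ i : ℕ, P (i :: t.1) := by
      rintro ⟨t, f, hf⟩
      obtain ⟨i, f', h1, h2⟩ := hA t ⟨f, hf⟩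
      exact ⟨i, f', h1, h2⟩
    choose nx hnx using hstep
    let T : ℕ → {t // P t} := fun n => Nat.rec ⟨[], hroot⟩ (fun _ t => ⟨nx t :: t.1, hnx t⟩) n
    have hT : ∀ n, (T (n + 1)).1 = nx (T n) :: (T n).1 := fun n => rfl
    have hlen : ∀ n, (T n).1.length = n := by
      intro n
      induction n with
      | zero => rfl
      | succ n ih => rw [hT, List.length_cons, ih]
    have hnil : ∀ h : treeRing 𝔐 Φ, Nil (g h) := by
      intro h
      have hE : (exc Φ h.1).Finite := h.2
      obtain ⟨N, hN⟩ : ∃ N : ℕ, ∀ p ∈ exc Φ h.1, p.2.length < N := by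
        obtain ⟨N, hN⟩ := (hE.image (fun p => p.2.length)).bddAbove
        exact ⟨N + 1, fun p hp => Nat.lt_succ_of_le (hN ⟨p, hp, rfl⟩)⟩
      have hcone : ∀ i s, (T N).1 <:+ s → h.1 (i :: s) = Φ i s (h.1 s) := by
        intro i s hs
        by_contra hne
        have h1 := hN (i, s) hne
        have h2 := hs.length_le
        rw [hlen] at h2
        simp only at h1
        omega
      obtain ⟨m, hm⟩ := H1 (nx (T N)) (T N).1 (h.1 (T N).1)
      have h0 : (pw h m).1 (T (N + 1)).1 = 0 := by
        rw [coe_pw, hT, hcone _ _ (List.suffix_refl _)]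
        exact hm
      have hz : ∀ s, (T (N + 1)).1 <:+ s → (pw h m).1 s = 0 := by
        refine eq_zero_of_cone Φ ?_ h0
        intro i s hs
        rw [coe_pw, coe_pw, map_pw, hcone i s]
        refine List.IsSuffix.trans ?_ hs
        rw [hT]
        exact List.suffix_cons _ _
      obtain ⟨f, hf, hgf⟩ := (T (N + 1)).2
      refine ⟨m, ?_⟩
      change pw (g h) m = 0
      rw [← map_pw]
      refine (hp (g (pw h m)) (g f) fun r => ?_).resolve_right hgf
      obtain ⟨ρ, rfl⟩ := hg r
      rw [← map_mul, ← map_mul]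
      have : pw h m * ρ * f = 0 := by
        apply Subtype.ext
        funext s
        show (pw h m).1 s * ρ.1 s * f.1 s = 0
        by_cases hs : (T (N + 1)).1 <:+ s
        · rw [hz s hs, zero_mul, zero_mul]
        · rw [hf s hs, mul_zero]
      rw [this, map_zero]
    obtain ⟨a, ha⟩ := exists_ne (0 : S)
    refine ⟨a, ha, fun r => ?_⟩
    obtain ⟨h, hh⟩ := hg (r * a)
    rw [← hh]
    exact hnil h

/-- The tree ring has no nonzero nil one-sided ideals. -/
theorem no_nil_ideals
    (H2 : ∀ s (x : 𝔐 s), x ≠ 0 → {i : ℕ | ∃ y, ¬ Nil (y * Φ i s x)}.Infinite)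
    (L : AddSubgroup (treeRing 𝔐 Φ))
    (hL : (∀ r x : treeRing 𝔐 Φ, x ∈ L → r * x ∈ L) ∨ (∀ r x : treeRing 𝔐 Φ, x ∈ L → x * r ∈ L))
    (hnil : ∀ x ∈ L, Nil x) : L = ⊥ := by
  rw [AddSubgroup.eq_bot_iff_forall]
  intro f hfL
  by_contra hf0
  obtain ⟨s, hs⟩ : ∃ s, f.1 s ≠ 0 := by
    by_contra h
    push Not at h
    exact hf0 (Subtype.ext (funext h))
  have hE : (exc Φ f.1).Finite := f.2
  have hE' : {i : ℕ | (i, s) ∈ exc Φ f.1}.Finite :=
    hE.preimage (fun i _ j _ h => by simpa using h)
  obtain ⟨i, ⟨y, hy⟩, hi⟩ := ((H2 s (f.1 s) hs).diff hE').nonempty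
  have hfi : f.1 (i :: s) = Φ i s (f.1 s) := by
    by_contra h
    exact hi h
  let e : treeRing 𝔐 Φ := ⟨ext Φ (i :: s) y, ext_mem Φ _ _⟩
  have key : ∀ h : treeRing 𝔐 Φ, Nil h → Nil (h.1 (i :: s)) := by
    rintro h ⟨n, hn⟩
    refine ⟨n, ?_⟩
    change pw (h.1 (i :: s)) n = 0
    rw [← coe_pw]
    have : pw h n = 0 := hn
    rw [this]
    rfl
  rcases hL with hL | hL
  · have h1 := key _ (hnil _ (hL e f hfL))
    apply hy
    have h2 : (e * f).1 (i :: s) = y * Φ i s (f.1 s) := by
      show ext Φ (i :: s) y (i :: s) * f.1 (i :: s) = _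
      rw [ext_self, hfi]
    rwa [h2] at h1
  · have h1 := key _ (hnil _ (hL e f hfL))
    apply hy
    have h2 : (f * e).1 (i :: s) = Φ i s (f.1 s) * y := by
      show f.1 (i :: s) * ext Φ (i :: s) y (i :: s) = _
      rw [ext_self, hfi]
    rw [h2] at h1
    exact h1.comm

end Tree

end Pool.Agent.Helper53.Spec
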