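import Mathlib
import Pool.Agent.Helper53.SpecTree

set_option autoImplicit false

namespace Pool.Agent.Helper53.Spec

lemma Nil.of_injective {S T : Type*} [NonUnitalRing S] [NonUnitalRing T] (f : S →ₙ+* T)
    (hf : Function.Injective f) {x : S} (h : Nil (f x)) : Nil x := by
  obtain ⟨n, hn⟩ := h
  refine ⟨n, hf ?_⟩
  rw [map_zero]
  have : pw (f x) n = 0 := hn
  rw [← map_pw] at this
  exact this

/-- If `N` is special, then a nonzero ring without nonzero nil one-sided ideals has a prime image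
in which no nonzero element generates a nil left ideal. -/
theorem core (h : NSpecial) (R : Type) [NonUnitalRing R] [Nontrivial R]
    (ha : ∀ L : AddSubgroup R,
      ((∀ (r x : R), x ∈ L → r * x ∈ L) ∨ (∀ (r x : R), x ∈ L → x * r ∈ L)) →
      (∀ x ∈ L, Nil x) → L = ⊥)
    (hb : ∀ (S : Type) [NonUnitalRing S] (g : R →ₙ+* S), Function.Surjective g →
      Nontrivial S → (∀ a b : S, (∀ r : S, a * r * b = 0) → a = 0 ∨ b = 0) →
      ∃ z : S, z ≠ 0 ∧ ∀ r, Nil (r * z)) : False := by
  obtain ⟨M, h1, h2, h3⟩ := h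
  have hR : ¬ ∀ (S : Type) [iS : NonUnitalRing S] (g : R →ₙ+* S), Function.Surjective g →
          M S iS → Subsingleton S := by
    intro hcon
    have := (h3 R).2 hcon R (NonUnitalRingHom.id R) Function.surjective_id ha
    exact not_subsingleton R this
  push Not at hR
  obtain ⟨S, iS, g, hg, hMS, hS⟩ := hR
  obtain ⟨hnt, hp⟩ := h1 S hMS
  obtain ⟨z, hz0, hz⟩ := hb S g hg hnt hp
  -- the two-sided ideal generated by the left ideal `S z`
  let G : Set S := {x | ∃ r, x = r * z ∨ ∃ s, x = r * z * s}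
  let C : AddSubgroup S := AddSubgroup.closure G
  have hCl : ∀ s x, x ∈ C → s * x ∈ C := by
    intro s x hx
    have hle : C ≤ C.comap (AddMonoidHom.mulLeft s) := by
      rw [AddSubgroup.closure_le]
      rintro _ ⟨r, rfl | ⟨s', rfl⟩⟩
      · exact AddSubgroup.subset_closure ⟨s * r, Or.inl (by simp [mul_assoc])⟩
      · exact AddSubgroup.subset_closure ⟨s * r, Or.inr ⟨s', by simp [mul_assoc]⟩⟩
    exact hle hx
  have hCr : ∀ s x, x ∈ C → x * s ∈ C := by
    intro s x hx
    have hle : C ≤ C.comap (AddMonoidHom.mulRight s) := by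
      rw [AddSubgroup.closure_le]
      rintro _ ⟨r, rfl | ⟨s', rfl⟩⟩
      · exact AddSubgroup.subset_closure ⟨r, Or.inr ⟨s, rfl⟩⟩
      · exact AddSubgroup.subset_closure ⟨r, Or.inr ⟨s' * s, by simp [mul_assoc]⟩⟩
    exact hle hx
  let T : NonUnitalSubring S :=
    { C with
      mul_mem' := fun {a b} _ hb => hCl a b hb }
  have hTC : ∀ x, x ∈ T ↔ x ∈ C := fun x => Iff.rfl
  let f : T →ₙ+* S := NonUnitalSubringClass.subtype T
  have hf : Function.Injective f := Subtype.val_injective
  obtain ⟨r0, hr0⟩ : ∃ r, r * z ≠ 0 := by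
    by_contra hcon
    push Not at hcon
    rcases hp z z (fun r => by rw [mul_assoc, hcon, mul_zero]) with h | h <;> exact hz0 h
  have hTnt : Nontrivial T := by
    refine ⟨⟨⟨r0 * z, AddSubgroup.subset_closure ⟨r0, Or.inl rfl⟩⟩, 0, ?_⟩⟩
    intro h
    exact hr0 (congrArg Subtype.val h)
  have hMT := (h2 T S f hf (fun k a => ⟨⟨⟨k * a.1, hCl _ _ a.2⟩, rfl⟩,
    ⟨⟨a.1 * k, hCr _ _ a.2⟩, rfl⟩⟩)).1 hTnt hMS
  have hT : ¬ ∀ (S' : Type) [iS : NonUnitalRing S'] (g : T →ₙ+* S'), Function.Surjective g →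
          (∀ L : AddSubgroup S',
             ((∀ (r x : S'), x ∈ L → r * x ∈ L) ∨ (∀ (r x : S'), x ∈ L → x * r ∈ L)) →
             (∀ x ∈ L, Nil x) → L = ⊥) →
          Subsingleton S' := by
    intro hcon
    have := (h3 T).1 hcon T (NonUnitalRingHom.id T) Function.surjective_id hMT
    exact not_subsingleton T this
  apply hT
  intro S' iS' g' hg' hss
  -- each generator is mapped to zero
  have hgen : ∀ (x : S) (hx : x ∈ G), g' ⟨x, AddSubgroup.subset_closure hx⟩ = 0 := by
    intro x hx
    set t : T := ⟨x, AddSubgroup.subset_closure hx⟩ with ht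
    have hnil : ∀ t' : T, Nil (t' * t) := by
      intro t'
      apply Nil.of_injective f hf
      show Nil (t'.1 * x)
      obtain ⟨r, rfl | ⟨s, rfl⟩⟩ := hx
      · rw [← mul_assoc]
        exact hz _
      · have e : t'.1 * (r * z * s) = (t'.1 * r * z) * s := by simp only [mul_assoc]
        rw [e]
        apply Nil.comm
        have e2 : s * (t'.1 * r * z) = (s * t'.1 * r) * z := by simp only [mul_assoc]
        rw [e2]
        exact hz _
    have hzero : ∀ y : S', y * g' t = 0 := by
      have hL := hss (AddMonoidHom.mulRight (g' t)).range (Or.inl (by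
        rintro r _ ⟨y, rfl⟩
        exact ⟨r * y, by simp [mul_assoc]⟩)) (by
        rintro _ ⟨y, rfl⟩
        obtain ⟨t', rfl⟩ := hg' y
        simp only [AddMonoidHom.coe_mulRight]
        rw [← map_mul]
        exact (hnil t').map g')
      intro y
      have : y * g' t ∈ (AddMonoidHom.mulRight (g' t)).range := ⟨y, rfl⟩
      rw [hL] at this
      simpa using this
    have hL := hss (AddSubgroup.zmultiples (g' t)) (Or.inl (by
      intro r x hx
      obtain ⟨k, rfl⟩ := AddSubgroup.mem_zmultiples_iff.1 hx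
      rw [mul_smul_comm, hzero, smul_zero]
      exact zero_mem _)) (by
      intro x hx
      obtain ⟨k, rfl⟩ := AddSubgroup.mem_zmultiples_iff.1 hx
      refine ⟨1, ?_⟩
      show k • g' t * k • g' t = 0
      rw [mul_smul_comm, hzero, smul_zero])
    have : g' t ∈ AddSubgroup.zmultiples (g' t) := AddSubgroup.mem_zmultiples _
    rw [hL] at this
    simpa using this
  have hall' : ∀ (x : S) (hx : x ∈ AddSubgroup.closure G), g' ⟨x, hx⟩ = 0 := by
    intro x hx
    induction hx using AddSubgroup.closure_induction with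
    | mem x hx => exact hgen x hx
    | zero => exact map_zero g'
    | add x y hx hy h1 h2 =>
      have : (⟨x + y, C.add_mem hx hy⟩ : T) = ⟨x, hx⟩ + ⟨y, hy⟩ := rfl
      rw [this, map_add, h1, h2, add_zero]
    | neg x hx h1 =>
      have : (⟨-x, C.neg_mem hx⟩ : T) = -⟨x, hx⟩ := rfl
      rw [this, map_neg, h1, neg_zero]
  have hall : ∀ t : T, g' t = 0 := fun t => hall' t.1 t.2
  refine ⟨fun a b => ?_⟩
  obtain ⟨a', rfl⟩ := hg' a
  obtain ⟨b', rfl⟩ := hg' b
  rw [hall, hall]

end Pool.Agent.Helper53.Spec
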