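import Mathlib

set_option autoImplicit false

namespace Pool.Agent.Helper53.Spec

open Matrix Finset

section Lev

variable {S : Type*} [Ring S] (J : AddSubgroup S) (hJl : ∀ s x, x ∈ J → s * x ∈ J)
  (hJr : ∀ s x, x ∈ J → x * s ∈ J)
include hJl hJr

lemma add_pow_mod {a z : S} (hza : z * a ∈ J) (N : ℕ) :
    (a + z) ^ N - ∑ j ∈ range (N + 1), a ^ j * z ^ (N - j) ∈ J := by
  induction N with
  | zero => simp [J.zero_mem]
  | succ N ih =>
    have e : (a + z) ^ (N + 1) - ∑ j ∈ range (N + 1 + 1), a ^ j * z ^ (N + 1 - j) =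
        ((a + z) ^ N - ∑ j ∈ range (N + 1), a ^ j * z ^ (N - j)) * (a + z) +
          ∑ j ∈ range N, a ^ j * z ^ (N - j - 1) * (z * a) := by
      have e1 : ∑ j ∈ range (N + 1 + 1), a ^ j * z ^ (N + 1 - j) =
          (∑ j ∈ range (N + 1), a ^ j * z ^ (N - j)) * z + a ^ (N + 1) := by
        rw [sum_range_succ, Finset.sum_mul]
        congr 1
        · apply sum_congr rfl
          intro j hj
          have hj' : j ≤ N := Nat.lt_succ_iff.1 (mem_range.1 hj)
          rw [Nat.succ_sub hj', pow_succ, mul_assoc]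
        · simp
      have e2 : (∑ j ∈ range (N + 1), a ^ j * z ^ (N - j)) * a =
          (∑ j ∈ range N, a ^ j * z ^ (N - j - 1) * (z * a)) + a ^ (N + 1) := by
        rw [sum_range_succ, add_mul, Finset.sum_mul]
        congr 1
        · apply sum_congr rfl
          intro j hj
          have hj' : j < N := mem_range.1 hj
          obtain ⟨d, hd⟩ : ∃ d, N - j = d + 1 := ⟨N - j - 1, by omega⟩
          rw [hd, pow_succ]
          simp only [mul_assoc, Nat.add_sub_cancel]
        · simp [pow_succ]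
      rw [e1, pow_succ, sub_mul, mul_add, mul_add (∑ j ∈ range (N + 1), a ^ j * z ^ (N - j)), e2]
      abel
    rw [e]
    refine J.add_mem (hJr _ _ ih) (J.sum_mem fun j _ => hJl _ _ hza)

lemma lev (hsp : ∀ T : AddSubgroup S, (∀ s t, t ∈ T → s * t ∈ T) →
      (∀ t ∈ T, ∀ u ∈ T, t * u ∈ J) → T ≤ J) :
    ∀ (k : ℕ) (T : AddSubgroup S), (∀ s t, t ∈ T → s * t ∈ T) →
      (∀ z ∈ T, ∀ t ∈ T, t * z ^ k ∈ J) → T ≤ J := by
  intro k
  induction k with
  | zero =>
    intro T _ h t ht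
    simpa using h t ht t ht
  | succ m ih =>
    intro T hT h
    rcases Nat.eq_zero_or_pos m with rfl | hm
    · exact hsp T hT fun t ht u hu => by simpa using h u hu t ht
    · apply ih T hT
      intro a ha t ht
      -- the left ideal `T a ^ m`
      have hTpow : ∀ (j : ℕ) (t : S), t ∈ T → t * a ^ j ∈ T := by
        intro j t ht
        cases j with
        | zero => simpa using ht
        | succ j => rw [pow_succ, ← mul_assoc]; exact hT _ _ ha
      let T2 : AddSubgroup S := T.map (AddMonoidHom.mulRight (a ^ m))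
      have hT2 : T2 ≤ J := by
        apply ih T2
        · rintro s _ ⟨t, ht, rfl⟩
          exact ⟨s * t, hT _ _ ht, by simp [mul_assoc]⟩
        · rintro _ ⟨t0, ht0, rfl⟩ _ ⟨t, ht, rfl⟩
          simp only [AddMonoidHom.coe_mulRight]
          set z := t0 * a ^ m with hz
          have hzT : z ∈ T := hTpow m t0 ht0
          have hza : z * a ∈ J := by
            rw [hz, mul_assoc, ← pow_succ]
            exact h a ha t0 ht0
          have h1 := add_pow_mod J hJl hJr hza (m + 1)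
          have h2 : t * (a + z) ^ (m + 1) ∈ J := h _ (T.add_mem ha hzT) t ht
          have h3 : t * (∑ j ∈ range (m + 1 + 1), a ^ j * z ^ (m + 1 - j)) * z ^ (m - 1) ∈ J := by
            have h4 := J.sub_mem h2 (hJl t _ h1)
            rw [← mul_sub, sub_sub_cancel] at h4
            exact hJr _ _ h4
          rw [Finset.mul_sum, Finset.sum_mul] at h3
          rw [sum_range_succ, sum_range_succ] at h3
          have h5 : ∑ j ∈ range m, t * (a ^ j * z ^ (m + 1 - j)) * z ^ (m - 1) ∈ J := by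
            apply J.sum_mem
            intro j hj
            have hj' : j < m := mem_range.1 hj
            have e : t * (a ^ j * z ^ (m + 1 - j)) * z ^ (m - 1) =
                (t * a ^ j * z ^ (m + 1)) * z ^ (m - 1 - j) := by
              have : z ^ (m + 1 - j) * z ^ (m - 1) = z ^ (m + 1) * z ^ (m - 1 - j) := by
                rw [← pow_add, ← pow_add]; congr 1; omega
              calc t * (a ^ j * z ^ (m + 1 - j)) * z ^ (m - 1) =
                  t * a ^ j * (z ^ (m + 1 - j) * z ^ (m - 1)) := by simp only [mul_assoc]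
                _ = _ := by rw [this]; simp only [mul_assoc]
            rw [e]
            exact hJr _ _ (h z hzT _ (hTpow j t ht))
          have h6 : t * (a ^ (m + 1) * z ^ (m + 1 - (m + 1))) * z ^ (m - 1) ∈ J := by
            have : t * (a ^ (m + 1) * z ^ (m + 1 - (m + 1))) = t * a ^ (m + 1) := by simp
            rw [this]
            exact hJr _ _ (h a ha t ht)
          have h7 : t * (a ^ m * z ^ (m + 1 - m)) * z ^ (m - 1) ∈ J := by
            have h8 := J.sub_mem (J.sub_mem h3 h6) h5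
            have e : ∀ x y w : S, x + y + w - w - x = y := by intro x y w; abel
            rwa [e] at h8
          have e : t * (a ^ m * z ^ (m + 1 - m)) * z ^ (m - 1) = t * a ^ m * z ^ m := by
            have h9 : m + 1 - m = 1 := by omega
            have h10 : z * z ^ (m - 1) = z ^ m := by
              rw [← pow_succ']; congr 1; omega
            rw [h9, pow_one, ← h10]
            simp only [mul_assoc]
          rw [← e]
          exact h7
      exact hT2 ⟨t, ht, rfl⟩

end Lev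

section Main

variable {S : Type*} [Ring S]

/-- A two-sided ideal as an additive subgroup. -/
def IsId (I : AddSubgroup S) : Prop :=
  (∀ s x, x ∈ I → s * x ∈ I) ∧ ∀ s x, x ∈ I → x * s ∈ I

lemma exists_max {n : Type*} [Fintype n] [DecidableEq n] (A : Matrix n n S)
    (hA : ¬ IsNilpotent A) :
    ∃ J : AddSubgroup S, IsId J ∧ (∀ k : ℕ, ∃ i j, (A ^ k) i j ∉ J) ∧
      ∀ I : AddSubgroup S, IsId I → J ≤ I → (∀ k : ℕ, ∃ i j, (A ^ k) i j ∉ I) → I ≤ J := by
  have h := zorn_le₀ {J : AddSubgroup S | IsId J ∧ ∀ k : ℕ, ∃ i j, (A ^ k) i j ∉ J} (by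
    intro c hc hchain
    rcases c.eq_empty_or_nonempty with rfl | hne
    · refine ⟨⊥, ⟨⟨?_, ?_⟩, ?_⟩, by simp⟩
      · intro s x hx
        rw [AddSubgroup.mem_bot] at hx ⊢
        rw [hx, mul_zero]
      · intro s x hx
        rw [AddSubgroup.mem_bot] at hx ⊢
        rw [hx, zero_mul]
      · intro k
        by_contra hcon
        push Not at hcon
        exact hA ⟨k, by ext i j; simpa using hcon i j⟩
    · have hmem : ∀ x, x ∈ sSup c ↔ ∃ I ∈ c, x ∈ I := fun x =>
        AddSubgroup.mem_sSup_of_directedOn hne hchain.directedOn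
      refine ⟨sSup c, ⟨⟨?_, ?_⟩, ?_⟩, fun z hz => le_sSup hz⟩
      · intro s x hx
        obtain ⟨I, hI, hx⟩ := (hmem x).1 hx
        exact (hmem _).2 ⟨I, hI, (hc hI).1.1 s x hx⟩
      · intro s x hx
        obtain ⟨I, hI, hx⟩ := (hmem x).1 hx
        exact (hmem _).2 ⟨I, hI, (hc hI).1.2 s x hx⟩
      · intro k
        by_contra hcon
        push Not at hcon
        have h1 : ∀ p : n × n, ∃ I ∈ c, (A ^ k) p.1 p.2 ∈ I := fun p => (hmem _).1 (hcon p.1 p.2)
        choose I hI hIm using h1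
        -- an upper bound of finitely many members of a chain
        obtain ⟨I0, hI0, hI0le⟩ : ∃ I0 ∈ c, ∀ p ∈ (Finset.univ : Finset (n × n)), I p ≤ I0 := by
          have := hchain.directedOn
          obtain ⟨z, hz⟩ := hne
          classical
          induction (Finset.univ : Finset (n × n)) using Finset.induction_on with
          | empty => exact ⟨z, hz, by simp⟩
          | insert p s _ ih =>
            obtain ⟨I1, hI1, hI1le⟩ := ih
            obtain ⟨I2, hI2, h3, h4⟩ := this _ (hI p) _ hI1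
            refine ⟨I2, hI2, ?_⟩
            intro q hq
            rcases Finset.mem_insert.1 hq with rfl | hq
            · exact h3
            · exact (hI1le q hq).trans h4
        obtain ⟨i, j, hij⟩ := (hc hI0).2 k
        exact hij (hI0le (i, j) (Finset.mem_univ _) (hIm (i, j))))
  obtain ⟨J, hJ⟩ := h
  exact ⟨J, hJ.prop.1, hJ.prop.2, fun I hI hle hk => hJ.le_of_ge ⟨hI, hk⟩ hle⟩

lemma mat_mul_mem {m n p : Type*} [Fintype n] (I J : AddSubgroup S)
    (h : ∀ x ∈ I, ∀ y ∈ I, x * y ∈ J) (X : Matrix m n S) (Y : Matrix n p S)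
    (hX : ∀ i j, X i j ∈ I) (hY : ∀ i j, Y i j ∈ I) (i : m) (j : p) : (X * Y) i j ∈ J := by
  rw [Matrix.mul_apply]
  exact J.sum_mem fun k _ => h _ (hX i k) _ (hY k j)

lemma semiprime_of_max {n : Type*} [Fintype n] [DecidableEq n] (A : Matrix n n S)
    (J : AddSubgroup S) (hJ : IsId J) (hk : ∀ k : ℕ, ∃ i j, (A ^ k) i j ∉ J)
    (hmax : ∀ I : AddSubgroup S, IsId I → J ≤ I → (∀ k : ℕ, ∃ i j, (A ^ k) i j ∉ I) → I ≤ J)
    (T : AddSubgroup S) (hT : ∀ s t, t ∈ T → s * t ∈ T)
    (hTT : ∀ t ∈ T, ∀ u ∈ T, t * u ∈ J) : T ≤ J := by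
  let C : AddSubgroup S := AddSubgroup.closure {x | ∃ t ∈ T, ∃ s, x = t * s}
  have hCl : ∀ s x, x ∈ C → s * x ∈ C := by
    intro s x hx
    have hle : C ≤ C.comap (AddMonoidHom.mulLeft s) := by
      rw [AddSubgroup.closure_le]
      rintro _ ⟨t, ht, s', rfl⟩
      exact AddSubgroup.subset_closure ⟨s * t, hT _ _ ht, s', by simp [mul_assoc]⟩
    exact hle hx
  have hCr : ∀ s x, x ∈ C → x * s ∈ C := by
    intro s x hx
    have hle : C ≤ C.comap (AddMonoidHom.mulRight s) := by
      rw [AddSubgroup.closure_le]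
      rintro _ ⟨t, ht, s', rfl⟩
      exact AddSubgroup.subset_closure ⟨t, ht, s' * s, by simp [mul_assoc]⟩
    exact hle hx
  have hCC : ∀ x ∈ C, ∀ y ∈ C, x * y ∈ J := by
    intro x hx y hy
    have hle : C ≤ J.comap (AddMonoidHom.mulLeft x) := by
      rw [AddSubgroup.closure_le]
      rintro _ ⟨t, ht, s', rfl⟩
      have hle2 : C ≤ J.comap (AddMonoidHom.mulRight (t * s')) := by
        rw [AddSubgroup.closure_le]
        rintro _ ⟨u, hu, s'', rfl⟩
        show u * s'' * (t * s') ∈ J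
        have e : u * s'' * (t * s') = (u * (s'' * t)) * s' := by simp only [mul_assoc]
        rw [e]
        exact hJ.2 _ _ (hTT u hu _ (hT _ _ ht))
      exact hle2 hx
    exact hle hy
  let I : AddSubgroup S := J ⊔ C
  have hII : ∀ x ∈ I, ∀ y ∈ I, x * y ∈ J := by
    intro x hx y hy
    obtain ⟨x1, hx1, x2, hx2, rfl⟩ := AddSubgroup.mem_sup.1 hx
    obtain ⟨y1, hy1, y2, hy2, rfl⟩ := AddSubgroup.mem_sup.1 hy
    rw [add_mul, mul_add x2]
    exact J.add_mem (hJ.2 _ _ hx1) (J.add_mem (hJ.1 _ _ hy1) (hCC _ hx2 _ hy2))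
  have hI : IsId I := by
    constructor
    · intro s x hx
      obtain ⟨x1, hx1, x2, hx2, rfl⟩ := AddSubgroup.mem_sup.1 hx
      rw [mul_add]
      exact AddSubgroup.mem_sup.2 ⟨_, hJ.1 _ _ hx1, _, hCl _ _ hx2, rfl⟩
    · intro s x hx
      obtain ⟨x1, hx1, x2, hx2, rfl⟩ := AddSubgroup.mem_sup.1 hx
      rw [add_mul]
      exact AddSubgroup.mem_sup.2 ⟨_, hJ.2 _ _ hx1, _, hCr _ _ hx2, rfl⟩
  have hTI : T ≤ I := by
    intro t ht
    refine AddSubgroup.mem_sup_right (AddSubgroup.subset_closure ⟨t, ht, 1, by simp⟩)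
  refine hTI.trans (hmax I hI le_sup_left ?_)
  by_contra hcon
  push Not at hcon
  obtain ⟨k, hk'⟩ := hcon
  obtain ⟨i, j, hij⟩ := hk (k + k)
  apply hij
  rw [pow_add]
  exact mat_mul_mem I J hII _ _ hk' hk' i j

/-- Matrices which factor through `c ^ E`. -/
def facs (n : Type*) (𝔟 : AddSubgroup S) (d : S) : Set (Matrix n n S) :=
  {Z | ∃ (N : Type) (_ : Fintype N) (_ : DecidableEq N) (X : Matrix n N S) (Y : Matrix N n S),
    (∀ i j, X i j ∈ 𝔟) ∧ (∀ i j, Y i j ∈ 𝔟) ∧ Z = X * (Matrix.diagonal (fun _ : N => d) : Matrix N N S) * Y}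

lemma facs_add {n : Type*} (𝔟 : AddSubgroup S) (d : S) {Z Z' : Matrix n n S}
    (h : Z ∈ facs n 𝔟 d) (h' : Z' ∈ facs n 𝔟 d) : Z + Z' ∈ facs n 𝔟 d := by
  obtain ⟨N, hN, hN', X, Y, hX, hY, rfl⟩ := h
  obtain ⟨M, hM, hM', X', Y', hX', hY', rfl⟩ := h'
  refine ⟨N ⊕ M, inferInstance, inferInstance, Matrix.of fun i => Sum.elim (X i) (X' i),
    Matrix.of (Sum.elim Y Y'), ?_, ?_, ?_⟩
  · rintro i (j | j)
    · exact hX i j
    · exact hX' i j
  · rintro (i | i) j
    · exact hY i j
    · exact hY' i j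
  · ext i j
    simp [Matrix.mul_apply, Matrix.diagonal_apply, Fintype.sum_sum_type] <;> rfl

lemma facs_zero {n : Type*} (𝔟 : AddSubgroup S) (d : S) : (0 : Matrix n n S) ∈ facs n 𝔟 d :=
  ⟨Empty, inferInstance, inferInstance, 0, 0, by simp, by simp, by simp⟩

lemma facs_single {n : Type} [Fintype n] [DecidableEq n] (𝔟 : AddSubgroup S) (d : S) (i j : n)
    {z : S} (hz : z ∈ AddSubgroup.closure {w | ∃ x ∈ 𝔟, ∃ y ∈ 𝔟, w = x * d * y}) :
    Matrix.single i j z ∈ facs n 𝔟 d := by
  induction hz using AddSubgroup.closure_induction with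
  | mem w hw =>
    obtain ⟨x, hx, y, hy, rfl⟩ := hw
    refine ⟨Unit, inferInstance, inferInstance, Matrix.of fun k _ => if k = i then x else 0,
      Matrix.of fun _ l => if l = j then y else 0, ?_, ?_, ?_⟩
    · intro k _
      by_cases h : k = i
      · simp [h, hx]
      · simp [h, 𝔟.zero_mem]
    · intro _ l
      by_cases h : l = j
      · simp [h, hy]
      · simp [h, 𝔟.zero_mem]
    · ext k l
      by_cases h : k = i
      · by_cases h' : l = j
        · simp [Matrix.mul_apply, Matrix.diagonal_apply, Matrix.single, h, h']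
        · have h'' : ¬ j = l := fun e => h' e.symm
          simp [Matrix.mul_apply, Matrix.diagonal_apply, Matrix.single, h, h', h'']
      · have h'' : ¬ i = k := fun e => h e.symm
        simp [Matrix.mul_apply, Matrix.diagonal_apply, Matrix.single, h, h'']
  | zero => simpa using facs_zero 𝔟 d
  | add x y _ _ hx hy =>
    rw [Matrix.single_add]
    exact facs_add 𝔟 d hx hy
  | neg x _ hx =>
    obtain ⟨N, hN, hN', X, Y, hX, hY, hXY⟩ := hx
    refine ⟨N, hN, hN', -X, Y, fun i j => 𝔟.neg_mem (hX i j), hY, ?_⟩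
    rw [Matrix.neg_mul, Matrix.neg_mul, ← hXY]
    ext k l
    by_cases h : i = k ∧ j = l
    · simp [Matrix.single, h]
    · simp [Matrix.single, h]

lemma facs_all {n : Type} [Fintype n] [DecidableEq n] (𝔟 : AddSubgroup S) (d : S)
    (Z : Matrix n n S)
    (hZ : ∀ i j, Z i j ∈ AddSubgroup.closure {w | ∃ x ∈ 𝔟, ∃ y ∈ 𝔟, w = x * d * y}) :
    Z ∈ facs n 𝔟 d := by
  rw [Matrix.matrix_eq_sum_single Z]
  have h : ∀ (s : Finset n) (f : n → Matrix n n S), (∀ i ∈ s, f i ∈ facs n 𝔟 d) →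
      ∑ i ∈ s, f i ∈ facs n 𝔟 d := by
    classical
    intro s f
    induction s using Finset.induction_on with
    | empty => intro _; simpa using facs_zero 𝔟 d
    | insert a s ha ih =>
      intro h
      rw [Finset.sum_insert ha]
      exact facs_add 𝔟 d (h a (Finset.mem_insert_self _ _))
        (ih fun i hi => h i (Finset.mem_insert_of_mem hi))
  apply h
  intro i _
  apply h
  intro j _
  exact facs_single 𝔟 d i j (hZ i j)

lemma pow_fac {n N : Type*} [Fintype n] [DecidableEq n] [Fintype N] [DecidableEq N]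
    (X : Matrix n N S) (D : Matrix N N S) (Y : Matrix N n S) (l : ℕ) :
    (X * D * Y) ^ (l + 1) = X * D * ((Y * X) * D) ^ l * Y := by
  induction l with
  | zero => simp
  | succ l ih =>
    rw [pow_succ', ih, pow_succ' (Y * X * D)]
    simp only [Matrix.mul_assoc]

lemma pow_congr {n : Type*} [Fintype n] [DecidableEq n] (J : AddSubgroup S) (hJ : IsId J)
    (V Z : Matrix n n S) (h : ∀ i j, (V - Z) i j ∈ J) (l : ℕ) :
    ∀ i j, (V ^ l - Z ^ l) i j ∈ J := by
  induction l with
  | zero => intro i j; simp [J.zero_mem]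
  | succ l ih =>
    intro i j
    have e : V ^ (l + 1) - Z ^ (l + 1) = (V ^ l - Z ^ l) * V + Z ^ l * (V - Z) := by
      rw [pow_succ, pow_succ, Matrix.sub_mul, Matrix.mul_sub]
      abel
    rw [e, Matrix.add_apply, Matrix.mul_apply, Matrix.mul_apply]
    exact J.add_mem (J.sum_mem fun k _ => hJ.2 _ _ (ih i k))
      (J.sum_mem fun k _ => hJ.1 _ _ (h k j))

/-- If `A` is a non-nilpotent matrix with entries in the ideal `𝔟`, then for every `E` there are
`c ∈ 𝔟` and a matrix `Y` over `𝔟` such that `Y * c ^ E` is not nilpotent. -/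
theorem exists_good {n : Type} [Fintype n] [DecidableEq n] (𝔟 : AddSubgroup S) (h𝔟 : IsId 𝔟)
    (A : Matrix n n S) (hA𝔟 : ∀ i j, A i j ∈ 𝔟) (hA : ¬ IsNilpotent A) (E : ℕ) :
    ∃ c ∈ 𝔟, ∃ (Q : Type) (_ : Fintype Q) (_ : DecidableEq Q) (Y : Matrix Q Q S),
      (∀ i j, Y i j ∈ 𝔟) ∧ ¬ IsNilpotent (Y * (Matrix.diagonal (fun _ : Q => c ^ E) : Matrix Q Q S)) := by
  obtain ⟨J, hJ, hk, hmax⟩ := exists_max A hA
  have hsp := semiprime_of_max A J hJ hk hmax
  -- an element with `c ^ (E + 2) ∉ J`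
  obtain ⟨c, hc, hcJ⟩ : ∃ c ∈ 𝔟, c ^ (E + 2) ∉ J := by
    by_contra hcon
    push Not at hcon
    have hle : 𝔟 ≤ J := lev J hJ.1 hJ.2 hsp (E + 2) 𝔟 h𝔟.1 fun z hz t _ => hJ.1 _ _ (hcon z hz)
    obtain ⟨i, j, hij⟩ := hk 1
    rw [pow_one] at hij
    exact hij (hle (hA𝔟 i j))
  refine ⟨c, hc, ?_⟩
  by_contra hcon
  push Not at hcon
  set C : AddSubgroup S := AddSubgroup.closure {w | ∃ x ∈ 𝔟, ∃ y ∈ 𝔟, w = x * c ^ E * y} with hCdef
  have hCl : ∀ s x, x ∈ C → s * x ∈ C := by
    intro s x hx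
    have hle : C ≤ C.comap (AddMonoidHom.mulLeft s) := by
      rw [hCdef, AddSubgroup.closure_le]
      rintro _ ⟨x, hx, y, hy, rfl⟩
      exact AddSubgroup.subset_closure ⟨s * x, h𝔟.1 _ _ hx, y, hy, by simp [mul_assoc]⟩
    exact hle hx
  have hCr : ∀ s x, x ∈ C → x * s ∈ C := by
    intro s x hx
    have hle : C ≤ C.comap (AddMonoidHom.mulRight s) := by
      rw [hCdef, AddSubgroup.closure_le]
      rintro _ ⟨x, hx, y, hy, rfl⟩
      exact AddSubgroup.subset_closure ⟨x, hx, y * s, h𝔟.2 _ _ hy, by simp [mul_assoc]⟩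
    exact hle hx
  have hI : IsId (J ⊔ C) := by
    constructor
    · intro s x hx
      obtain ⟨x1, hx1, x2, hx2, rfl⟩ := AddSubgroup.mem_sup.1 hx
      rw [mul_add]
      exact AddSubgroup.mem_sup.2 ⟨_, hJ.1 _ _ hx1, _, hCl _ _ hx2, rfl⟩
    · intro s x hx
      obtain ⟨x1, hx1, x2, hx2, rfl⟩ := AddSubgroup.mem_sup.1 hx
      rw [add_mul]
      exact AddSubgroup.mem_sup.2 ⟨_, hJ.2 _ _ hx1, _, hCr _ _ hx2, rfl⟩
  have hnot : ¬ (J ⊔ C ≤ J) := by
    intro hle
    apply hcJ
    apply hle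
    apply AddSubgroup.mem_sup_right
    refine AddSubgroup.subset_closure ⟨c, hc, c, hc, ?_⟩
    rw [← pow_succ', ← pow_succ]
  have hex : ∃ k : ℕ, ∀ i j, (A ^ k) i j ∈ J ⊔ C := by
    by_contra h
    push Not at h
    exact hnot (hmax _ hI le_sup_left h)
  obtain ⟨k, hkI⟩ := hex
  have h1 : ∀ p : n × n, ∃ w ∈ J, ∃ z ∈ C, w + z = (A ^ k) p.1 p.2 := fun p =>
    AddSubgroup.mem_sup.1 (hkI p.1 p.2)
  choose w hw z hz hwz using h1
  let Z : Matrix n n S := Matrix.of fun i j => z (i, j)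
  obtain ⟨N, hN, hN', X, Y, hX, hY, hXY⟩ := facs_all 𝔟 (c ^ E) Z (fun i j => hz (i, j))
  have hYX : ∀ i j, (Y * X) i j ∈ 𝔟 :=
    mat_mul_mem 𝔟 𝔟 (fun x _ y hy => h𝔟.1 _ _ hy) Y X hY hX
  obtain ⟨l, hl⟩ := hcon N hN hN' (Y * X) hYX
  have hZ : Z ^ (l + 1) = 0 := by
    rw [hXY, pow_fac, hl]
    simp
  obtain ⟨i, j, hij⟩ := hk (k * (l + 1))
  apply hij
  have h2 := pow_congr J hJ (A ^ k) Z (fun i j => by
    have : (A ^ k - Z) i j = w (i, j) := by
      rw [Matrix.sub_apply]
      show (A ^ k) i j - z (i, j) = w (i, j)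
      have := hwz (i, j)
      simp only at this
      rw [← this, add_sub_cancel_right]
    rw [this]
    exact hw (i, j)) (l + 1) i j
  rw [hZ, sub_zero, ← pow_mul] at h2
  exact h2

end Main

end Pool.Agent.Helper53.Spec
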