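import Mathlib
import Pool.Agent.Helper53.SpecDefs

set_option autoImplicit false

namespace Pool.Agent.Helper53.Spec

open Module Submodule

section Adapted

variable {F V : Type} [Field F] [AddCommGroup V] [Module F V]

/-- A basis adapted to a finite decreasing filtration. -/
lemma adapted [Module.Finite F V] (W : ℕ → Submodule F V) (hanti : Antitone W) (h0 : W 0 = ⊤)
    (N : ℕ) (hN : W N = ⊥) :
    ∃ (D : Type) (_ : Fintype D) (_ : DecidableEq D) (b : Basis D F V) (ℓ : D → ℕ),
      (∀ u, ℓ u < N) ∧ (∀ u, b u ∈ W (ℓ u)) ∧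
      ∀ k v, v ∈ W k → ∀ u, b.repr v u ≠ 0 → k ≤ ℓ u := by
  classical
  have hP : ∀ j, j ≤ N → ∃ s : Set V, LinearIndepOn F id s ∧ s ⊆ W (N - j) ∧
      ∀ k, N - j ≤ k → W k ≤ span F (s ∩ W k) := by
    intro j
    induction j with
    | zero =>
      intro _
      refine ⟨∅, linearIndepOn_empty F id, Set.empty_subset _, fun k hk => ?_⟩
      rw [Nat.sub_zero] at hk
      have : W k ≤ ⊥ := by rw [← hN]; exact hanti hk
      exact this.trans bot_le
    | succ j ih =>
      intro hj
      obtain ⟨s, hs, hsW, hspan⟩ := ih (by omega)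
      have hle : W (N - j) ≤ W (N - (j + 1)) := hanti (by omega)
      obtain ⟨t, htW, hst, hWt, ht⟩ := exists_linearIndepOn_id_extension hs
        (hsW.trans (show (W (N - j) : Set V) ⊆ W (N - (j + 1)) from hle))
      refine ⟨t, ht, htW, fun k hk => ?_⟩
      rcases Nat.lt_or_ge k (N - j) with h | h
      · have hkeq : k = N - (j + 1) := by omega
        subst hkeq
        have : t ∩ (W (N - (j + 1)) : Set V) = t := Set.inter_eq_left.2 htW
        rw [this]
        exact hWt
      · exact (hspan k h).trans (span_mono (Set.inter_subset_inter_left _ hst))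
  obtain ⟨s, hs, -, hspan⟩ := hP N le_rfl
  have hli : LinearIndependent F (fun x : s => (x : V)) := hs
  have hsp : ⊤ ≤ span F (Set.range (fun x : s => (x : V))) := by
    rw [Subtype.range_coe, ← h0]
    exact (hspan 0 (by omega)).trans (span_mono Set.inter_subset_left)
  let b : Basis s F V := Basis.mk hli hsp
  have hb : ∀ x : s, b x = x := fun x => by simp [b]
  haveI : Fintype s := FiniteDimensional.fintypeBasisIndex b
  refine ⟨s, inferInstance, inferInstance, b,
    fun u => Nat.findGreatest (fun k => (u : V) ∈ W k) N, ?_, ?_, ?_⟩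
  · intro u
    have h1 : Nat.findGreatest (fun k => (u : V) ∈ W k) N ≤ N := Nat.findGreatest_le N
    rcases h1.lt_or_eq with h | h
    · exact h
    · exfalso
      have h2 : (u : V) ∈ W (Nat.findGreatest (fun k => (u : V) ∈ W k) N) :=
        Nat.findGreatest_spec (P := fun k => (u : V) ∈ W k) (Nat.zero_le N)
          (by show (u : V) ∈ W 0; rw [h0]; trivial)
      rw [h, hN, mem_bot, ← hb] at h2
      exact b.ne_zero u h2
  · intro u
    rw [hb]
    exact Nat.findGreatest_spec (P := fun k => (u : V) ∈ W k) (Nat.zero_le N)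
      (by show (u : V) ∈ W 0; rw [h0]; trivial)
  · intro k v hv u hu
    have h1 : v ∈ span F (b '' {x | (x : V) ∈ W k}) := by
      refine span_mono ?_ (hspan k (by omega) hv)
      rintro x ⟨hx1, hx2⟩
      exact ⟨⟨x, hx1⟩, hx2, hb _⟩
    rw [Basis.mem_span_image] at h1
    have h2 : (u : V) ∈ W k := h1 (Finsupp.mem_support_iff.2 hu)
    have hkN : k ≤ N := by
      by_contra hk
      have : v ∈ (⊥ : Submodule F V) := by
        rw [← hN]
        exact hanti (by omega) hv
      rw [mem_bot] at this
      rw [this] at hu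
      simp at hu
    exact Nat.le_findGreatest hkN h2

end Adapted

section Rep

variable {F B : Type} [Field F] [NonUnitalRing B] [Module F B] [IsScalarTower F B B]
  [SMulCommClass F B B]

lemma mul_mem_lowerPow (k : ℕ) (x y : B) (hy : y ∈ lowerPow (⊤ : Submodule F B) k) :
    x * y ∈ lowerPow (⊤ : Submodule F B) (k + 1) :=
  subset_span ⟨x, trivial, y, hy, rfl⟩

lemma lowerPow_succ_le (k : ℕ) :
    lowerPow (⊤ : Submodule F B) (k + 1) ≤ lowerPow (⊤ : Submodule F B) k := by
  induction k with
  | zero => exact le_top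
  | succ k ih =>
    conv_lhs => rw [lowerPow]
    rw [span_le]
    rintro _ ⟨x, -, y, hy, rfl⟩
    exact mul_mem_lowerPow k x y (ih hy)

lemma lowerPow_one_mul (k : ℕ) (x y : B) (hx : x ∈ lowerPow (⊤ : Submodule F B) 1)
    (hy : y ∈ lowerPow (⊤ : Submodule F B) k) : x * y ∈ lowerPow (⊤ : Submodule F B) (k + 2) := by
  have hx' : x ∈ span F {z : B | ∃ x ∈ (⊤ : Submodule F B), ∃ y ∈ (⊤ : Submodule F B),
      z = x * y} := hx
  induction hx' using Submodule.span_induction with
  | mem z hz =>
    obtain ⟨a, -, b, -, rfl⟩ := hz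
    rw [mul_assoc]
    exact mul_mem_lowerPow _ _ _ (mul_mem_lowerPow _ _ _ hy)
  | zero => rw [zero_mul]; exact zero_mem _
  | add u v hu hv h1 h2 => rw [add_mul]; exact add_mem (h1 hu) (h2 hv)
  | smul c u hu h1 => rw [smul_mul_assoc]; exact smul_mem _ _ (h1 hu)

lemma fin_step (X : Finset B) (hX : NonUnitalAlgebra.adjoin F (X : Set B) = ⊤) (k : ℕ) :
    ∃ T : Set B, T.Finite ∧
      lowerPow (⊤ : Submodule F B) k ≤ span F T ⊔ lowerPow (⊤ : Submodule F B) (k + 1) := by
  have h1 : ∀ b : B, b ∈ span F (X : Set B) ⊔ lowerPow (⊤ : Submodule F B) 1 := by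
    intro b
    have hb : b ∈ NonUnitalAlgebra.adjoin F (X : Set B) := by rw [hX]; trivial
    induction hb using NonUnitalAlgebra.adjoin_induction with
    | mem x hx => exact mem_sup_left (subset_span hx)
    | add x y _ _ h1 h2 => exact add_mem h1 h2
    | zero => exact zero_mem _
    | mul x y _ _ _ _ => exact mem_sup_right (mul_mem_lowerPow 0 x y trivial)
    | smul r x _ h => exact smul_mem _ _ h
  induction k with
  | zero => exact ⟨X, X.finite_toSet, fun b _ => h1 b⟩
  | succ k ih =>
    obtain ⟨T, hT, hle⟩ := ih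
    refine ⟨Set.image2 (fun x y => LinearMap.mul F B x y) (X : Set B) T,
      X.finite_toSet.image2 _ hT, ?_⟩
    conv_lhs => rw [lowerPow]
    rw [span_le]
    rintro _ ⟨x, -, y, hy, rfl⟩
    obtain ⟨x0, hx0, x1, hx1, rfl⟩ := mem_sup.1 (h1 x)
    obtain ⟨y0, hy0, y1, hy1, rfl⟩ := mem_sup.1 (hle hy)
    have e : (x0 + x1) * (y0 + y1) = x0 * y0 + (x0 * y1 + x1 * (y0 + y1)) := by
      rw [add_mul, mul_add x0, add_assoc]
    rw [SetLike.mem_coe, e]
    refine add_mem (mem_sup_left ?_) (mem_sup_right (add_mem ?_ ?_))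
    · rw [← Submodule.map₂_span_span]
      exact Submodule.apply_mem_map₂ (LinearMap.mul F B) hx0 hy0
    · exact mul_mem_lowerPow _ _ _ hy1
    · exact lowerPow_one_mul _ _ _ hx1 hy

variable (F B) in
/-- The filtration of `F × B`. -/
def filt : ℕ → Submodule F (F × B)
  | 0 => ⊤
  | k + 1 => (lowerPow (⊤ : Submodule F B) k).map (LinearMap.inr F F B)

lemma filt_anti : Antitone (filt F B) := by
  refine antitone_nat_of_succ_le ?_
  intro k
  cases k with
  | zero => exact le_top
  | succ k => exact Submodule.map_mono (lowerPow_succ_le k)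

/-- The left regular representation of `B` on `F × B`. -/
def lreg (b : B) : (F × B) →ₗ[F] (F × B) where
  toFun v := (0, v.1 • b + b * v.2)
  map_add' v w := by
    ext
    · simp
    · simp [add_smul, mul_add]; abel
  map_smul' c v := by
    ext
    · simp
    · simp [mul_smul, smul_add, mul_smul_comm]

lemma lreg_apply (b : B) (v : F × B) : lreg b v = (0, v.1 • b + b * v.2) := rfl

lemma lreg_filt (b : B) (k : ℕ) (v : F × B) (hv : v ∈ filt F B k) :
    lreg b v ∈ filt F B (k + 1) := by
  cases k with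
  | zero => exact ⟨v.1 • b + b * v.2, trivial, rfl⟩
  | succ k =>
    obtain ⟨y, hy, rfl⟩ := hv
    refine ⟨b * y, mul_mem_lowerPow _ _ _ hy, ?_⟩
    simp [lreg_apply]

lemma finite_quot (X : Finset B) (hX : NonUnitalAlgebra.adjoin F (X : Set B) = ⊤) (N : ℕ) :
    Module.Finite F ((F × B) ⧸ filt F B N) := by
  have hstep : ∀ k, ∃ T : Set (F × B), T.Finite ∧ filt F B k ≤ span F T ⊔ filt F B (k + 1) := by
    intro k
    cases k with
    | zero =>
      refine ⟨{(1, 0)}, Set.finite_singleton _, fun v _ => ?_⟩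
      have e : v = v.1 • ((1 : F), (0 : B)) + LinearMap.inr F F B v.2 := by
        ext <;> simp
      rw [e]
      exact add_mem (mem_sup_left (smul_mem _ _ (subset_span rfl)))
        (mem_sup_right ⟨v.2, trivial, rfl⟩)
    | succ k =>
      obtain ⟨T, hT, hle⟩ := fin_step X hX k
      refine ⟨LinearMap.inr F F B '' T, hT.image _, ?_⟩
      rw [← Submodule.map_span]
      show _ ≤ _ ⊔ (lowerPow (⊤ : Submodule F B) (k + 1)).map (LinearMap.inr F F B)
      rw [← Submodule.map_sup]
      exact Submodule.map_mono hle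
  have hall : ∀ k, ∃ T : Set (F × B), T.Finite ∧ ⊤ ≤ span F T ⊔ filt F B k := by
    intro k
    induction k with
    | zero => exact ⟨∅, Set.finite_empty, le_sup_right⟩
    | succ k ih =>
      obtain ⟨T, hT, hle⟩ := ih
      obtain ⟨T', hT', hle'⟩ := hstep k
      refine ⟨T ∪ T', hT.union hT', ?_⟩
      rw [span_union]
      refine hle.trans (sup_le (le_sup_left.trans le_sup_left) (hle'.trans ?_))
      exact sup_le (le_sup_right.trans le_sup_left) le_sup_right
  obtain ⟨T, hT, hle⟩ := hall N
  rw [Module.finite_def]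
  have : (⊤ : Submodule F ((F × B) ⧸ filt F B N)) = (span F T).map (filt F B N).mkQ := by
    apply le_antisymm _ le_top
    rintro w -
    obtain ⟨v, rfl⟩ := (filt F B N).mkQ_surjective w
    obtain ⟨a, ha, c, hc, rfl⟩ := mem_sup.1 (hle (show v ∈ ⊤ from trivial))
    refine ⟨a, ha, ?_⟩
    rw [map_add]
    have : (filt F B N).mkQ c = 0 := by
      rw [mkQ_apply, Quotient.mk_eq_zero]
      exact hc
    rw [this, add_zero]
  rw [this]
  exact (fg_span hT).map _

/-- A finitely generated algebra modulo a power of itself embeds in strictly triangular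
matrices. -/
theorem exists_rep (X : Finset B) (hX : NonUnitalAlgebra.adjoin F (X : Set B) = ⊤) (M : ℕ) :
    ∃ (D : Type) (_ : Fintype D) (_ : DecidableEq D) (ℓ : D → ℕ) (ρ : B → Matrix D D F),
      (∀ u, ℓ u ≤ M) ∧ (∀ a b, ρ (a + b) = ρ a + ρ b) ∧ (∀ a b, ρ (a * b) = ρ a * ρ b) ∧
      (∀ b u v, ρ b u v ≠ 0 → ℓ v < ℓ u) ∧
      ∀ b, b ∉ lowerPow (⊤ : Submodule F B) M → ρ b ≠ 0 := by
  classical
  set N := M + 1 with hNdef
  haveI := finite_quot X hX N
  let W : ℕ → Submodule F ((F × B) ⧸ filt F B N) := fun k => (filt F B k).map (filt F B N).mkQ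
  have hanti : Antitone W := fun a b hab => Submodule.map_mono (filt_anti hab)
  have h0 : W 0 = ⊤ := by
    show (⊤ : Submodule F (F × B)).map _ = ⊤
    rw [Submodule.map_top, range_mkQ]
  have hWN : W N = ⊥ := by
    show (filt F B N).map (filt F B N).mkQ = ⊥
    rw [← le_bot_iff, Submodule.map_le_iff_le_comap]
    intro v hv
    rw [mem_comap, mem_bot, mkQ_apply, Quotient.mk_eq_zero]
    exact hv
  obtain ⟨D, hD, hD', b, ℓ, hℓ, hbW, hrepr⟩ := adapted W hanti h0 N hWN
  have hinv : ∀ a : B, filt F B N ≤ (filt F B N).comap (lreg a) := fun a v hv =>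
    filt_anti (Nat.le_succ N) (lreg_filt a N v hv)
  let L : B → ((F × B) ⧸ filt F B N) →ₗ[F] ((F × B) ⧸ filt F B N) := fun a =>
    mapQ _ _ (lreg a) (hinv a)
  have hL : ∀ a v, L a ((filt F B N).mkQ v) = (filt F B N).mkQ (lreg a v) := fun a v => rfl
  have hLadd : ∀ a c, L (a + c) = L a + L c := by
    intro a c
    apply linearMap_qext
    ext v : 1
    · apply LinearMap.ext
      intro x
      simp only [LinearMap.comp_apply, LinearMap.add_apply, hL, ← map_add]
      congr 1
      ext <;> simp [lreg_apply, smul_add, add_mul]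
    · apply LinearMap.ext
      intro x
      simp only [LinearMap.comp_apply, LinearMap.add_apply, hL, ← map_add]
      congr 1
      ext <;> simp [lreg_apply, smul_add, add_mul]
  have hLmul : ∀ a c, L (a * c) = L a * L c := by
    intro a c
    apply linearMap_qext
    ext v : 1
    · apply LinearMap.ext
      intro x
      simp only [LinearMap.comp_apply, Module.End.mul_apply, hL]
      congr 1
      ext <;> simp [lreg_apply, mul_assoc, mul_smul_comm]
    · apply LinearMap.ext
      intro x
      simp only [LinearMap.comp_apply, Module.End.mul_apply, hL]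
      congr 1
      ext <;> simp [lreg_apply, mul_assoc, mul_smul_comm]
  refine ⟨D, hD, hD', ℓ, fun a => LinearMap.toMatrix b b (L a), fun u => Nat.lt_succ_iff.1 (hℓ u),
    ?_, ?_, ?_, ?_⟩
  · intro a c
    simp only [hLadd, map_add]
  · intro a c
    simp only [hLmul]
    exact LinearMap.toMatrix_mul b (L a) (L c)
  · intro a u v huv
    have huv' : (LinearMap.toMatrix b b (L a)) u v ≠ 0 := huv
    rw [LinearMap.toMatrix_apply] at huv'
    have h1 : L a (b v) ∈ W (ℓ v + 1) := by
      obtain ⟨w, hw, hwb⟩ := hbW v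
      rw [← hwb, hL]
      exact ⟨_, lreg_filt a _ w hw, rfl⟩
    exact hrepr _ _ h1 u huv'
  · intro a ha h
    apply ha
    have h1 : L a = 0 := by
      apply (LinearMap.toMatrix b b).injective
      rw [map_zero]
      exact h
    have h2 : (filt F B N).mkQ (lreg a ((1 : F), (0 : B))) = 0 := by
      rw [← hL, h1, LinearMap.zero_apply]
    rw [mkQ_apply, Quotient.mk_eq_zero] at h2
    obtain ⟨y, hy, hy'⟩ := h2
    have : y = a := by
      have := congrArg Prod.snd hy'
      simpa [lreg_apply] using this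
    rwa [← this]

end Rep

end Pool.Agent.Helper53.Spec
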