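import Mathlib
import Pool.Agent.Helper53.SpecCore
import Pool.Agent.Helper53.SpecLev
import Pool.Agent.Helper53.SpecRep

set_option autoImplicit false

namespace Pool.Agent.Helper53.Spec

open Matrix Finset

section Mat

variable {B : Type} [NonUnitalRing B]

lemma pw_add {S : Type*} [NonUnitalRing S] (x : S) (m n : ℕ) :
    pw x m * pw x n = pw x (m + n + 1) := by
  induction m with
  | zero => rw [pw_zero, zero_add, pw_succ]
  | succ m ih => rw [pw_succ, mul_assoc, ih, ← pw_succ]; congr 1; omega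

/-- Strictly triangular matrices are nilpotent. -/
lemma nil_of_strict {I : Type} [Fintype I] (lam : I → ℕ) (M : ℕ) (hM : ∀ a, lam a ≤ M)
    (w : Matrix I I B) (hw : ∀ a b, w a b ≠ 0 → lam b < lam a) : Nil w := by
  have h : ∀ n a b, (pw w n) a b ≠ 0 → lam b + n + 1 ≤ lam a := by
    intro n
    induction n with
    | zero => intro a b h; exact hw a b h
    | succ n ih =>
      intro a b h
      rw [pw_succ, Matrix.mul_apply] at h
      obtain ⟨c, -, hc⟩ := Finset.exists_ne_zero_of_sum_ne_zero h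
      have h1 : w a c ≠ 0 := fun e => hc (by rw [e, zero_mul])
      have h2 : (pw w n) c b ≠ 0 := fun e => hc (by rw [e, mul_zero])
      have := hw a c h1
      have := ih c b h2
      omega
  refine ⟨M, ?_⟩
  change pw w M = 0
  ext a b
  by_contra hne
  have := h M a b hne
  have := hM a
  omega

/-- A matrix supported on one column with nilpotent diagonal entry is nilpotent. -/
lemma nil_of_column {I : Type} [Fintype I] (j : I) (w : Matrix I I B)
    (hw : ∀ a b, b ≠ j → w a b = 0) (hj : Nil (w j j)) : Nil w := by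
  have h : ∀ n a b, b ≠ j → (pw w n) a b = 0 := by
    intro n a b hb
    cases n with
    | zero => exact hw a b hb
    | succ n =>
      rw [pw_succ', Matrix.mul_apply]
      exact Finset.sum_eq_zero fun c _ => by rw [hw c b hb, mul_zero]
  have hstep : ∀ n a b, (pw w (n + 1)) a b = w a j * (pw w n) j b := by
    intro n a b
    rw [pw_succ, Matrix.mul_apply]
    exact Finset.sum_eq_single_of_mem j (Finset.mem_univ _) fun c _ hc => by
      rw [hw a c hc, zero_mul]
  have hd : ∀ n, (pw w n) j j = pw (w j j) n := by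
    intro n
    induction n with
    | zero => rfl
    | succ n ih => rw [hstep, ih, ← pw_succ]
  obtain ⟨n, hn⟩ := hj
  refine ⟨n + 1, ?_⟩
  change pw w (n + 1) = 0
  ext a b
  rw [hstep]
  by_cases hb : b = j
  · subst hb
    rw [hd]
    have : pw (w b b) n = 0 := hn
    rw [this, mul_zero]
    rfl
  · rw [h n j b hb, mul_zero]
    rfl

/-- Every matrix over a nil ring is a sum of matrices generating nil left ideals. -/
lemma mem_closure_columns {I : Type} [Fintype I] (hB : ∀ b : B, Nil b) (x : Matrix I I B) :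
    x ∈ AddSubgroup.closure {z : Matrix I I B | ∀ y, Nil (y * z)} := by
  classical
  have hx : x = ∑ j : I, (Matrix.of fun a b => if b = j then x a b else 0 : Matrix I I B) := by
    ext a b
    rw [Matrix.sum_apply]
    simp
  rw [hx]
  refine AddSubgroup.sum_mem _ fun j _ => AddSubgroup.subset_closure ?_
  intro y
  apply nil_of_column j
  · intro a b hb
    rw [Matrix.mul_apply]
    exact Finset.sum_eq_zero fun c _ => by simp [hb]
  · exact hB _

/-- Compression of a matrix whose rows are supported in a block. -/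
lemma not_nil_of_block {I Q : Type} [Fintype I] [Fintype Q] (e : Q → I)
    (he : Function.Injective e) (w : Matrix I I B) (hw : ∀ a b, a ∉ Set.range e → w a b = 0)
    (h : ¬ Nil (w.submatrix e e)) : ¬ Nil w := by
  have h0 : ∀ n a b, a ∉ Set.range e → (pw w n) a b = 0 := by
    intro n a b ha
    cases n with
    | zero => exact hw a b ha
    | succ n =>
      rw [pw_succ, Matrix.mul_apply]
      exact Finset.sum_eq_zero fun c _ => by rw [hw a c ha, zero_mul]
  have h1 : ∀ n, pw (w.submatrix e e) n = (pw w n).submatrix e e := by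
    intro n
    induction n with
    | zero => rfl
    | succ n ih =>
      rw [pw_succ, ih, pw_succ]
      ext s t
      rw [Matrix.submatrix_apply, Matrix.mul_apply, Matrix.mul_apply]
      exact Fintype.sum_of_injective e he _ _
        (fun c hc => by rw [h0 n c _ hc, mul_zero]) (fun _ => rfl)
  rintro ⟨n, hn⟩
  apply h
  refine ⟨n, ?_⟩
  change pw (w.submatrix e e) n = 0
  have : pw w n = 0 := hn
  rw [h1, this]
  rfl

/-- Apply a homomorphism into matrices entrywise. -/
def amp (I : Type) {K : Type} [Fintype I] [Fintype K] (φ : B →ₙ+* Matrix K K B) :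
    Matrix I I B →ₙ+* Matrix (I × K) (I × K) B where
  toFun x := Matrix.of fun p q => φ (x p.1 q.1) p.2 q.2
  map_zero' := by
    ext p q
    simp
  map_add' x y := by
    ext p q
    simp
  map_mul' x y := by
    ext p q
    simp only [Matrix.of_apply, Matrix.mul_apply, Fintype.sum_prod_type, map_sum, map_mul,
      Matrix.sum_apply]

end Mat

section Phi

variable {F B : Type} [Field F] [NonUnitalRing B] [Module F B] [IsScalarTower F B B]
  [SMulCommClass F B B]

/-- `cp γ k = γ ^ k` for `k ≥ 1`. -/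
def cp (γ : B) : ℕ → B
  | 0 => 0
  | k + 1 => pw γ k

lemma cp_mul (γ : B) {a b : ℕ} (ha : 0 < a) (hb : 0 < b) : cp γ a * cp γ b = cp γ (a + b) := by
  obtain ⟨a, rfl⟩ := Nat.exists_eq_succ_of_ne_zero ha.ne'
  obtain ⟨b, rfl⟩ := Nat.exists_eq_succ_of_ne_zero hb.ne'
  show pw γ a * pw γ b = cp γ (a + 1 + (b + 1))
  rw [pw_add, show a + 1 + (b + 1) = (a + b + 1) + 1 by omega]
  rfl

/-- The homomorphism `b ↦ (ρ(b)_{uv} γ ^ (ℓ u - ℓ v))`, with multiplicity `Q`. -/
def phi {D Q : Type} [Fintype D] [Fintype Q] [DecidableEq Q] (ℓ : D → ℕ) (γ : B)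
    (ρ : B → Matrix D D F) (hadd : ∀ a b, ρ (a + b) = ρ a + ρ b)
    (hmul : ∀ a b, ρ (a * b) = ρ a * ρ b) (hst : ∀ b u v, ρ b u v ≠ 0 → ℓ v < ℓ u) :
    B →ₙ+* Matrix (D × Q) (D × Q) B where
  toFun b := Matrix.of fun p q => if p.2 = q.2 then ρ b p.1 q.1 • cp γ (ℓ p.1 - ℓ q.1) else 0
  map_zero' := by
    have h0 : ρ 0 = 0 := by
      have := hadd 0 0
      rw [add_zero] at this
      simpa using this
    ext p q
    simp [h0]
  map_add' a b := by
    ext p q
    simp only [hadd, Matrix.of_apply, Matrix.add_apply]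
    split_ifs
    · rw [add_smul]
    · rw [add_zero]
  map_mul' a b := by
    ext ⟨u, s⟩ ⟨v, t⟩
    simp only [hmul, Matrix.of_apply, Matrix.mul_apply, Fintype.sum_prod_type]
    by_cases hst' : s = t
    · subst hst'
      simp only [if_true]
      rw [Finset.sum_smul]
      apply Finset.sum_congr rfl
      intro w _
      rw [Finset.sum_eq_single_of_mem s (Finset.mem_univ _) (fun r _ hr => by
        simp [Ne.symm hr])]
      simp only [if_true]
      rw [smul_mul_smul_comm]
      by_cases h1 : ρ a u w = 0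
      · simp [h1]
      · by_cases h2 : ρ b w v = 0
        · simp [h2]
        · have h3 := hst a u w h1
          have h4 := hst b w v h2
          rw [cp_mul γ (by omega) (by omega)]
          congr 2
          omega
    · simp only [hst', if_false]
      symm
      apply Finset.sum_eq_zero
      intro w _
      apply Finset.sum_eq_zero
      intro r _
      by_cases h1 : s = r
      · subst h1
        simp [hst']
      · simp [h1]

end Phi

section Step

variable {F B : Type} [Field F] [NonUnitalRing B] [Module F B] [IsScalarTower F B B]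
  [SMulCommClass F B B]

lemma not_nil_step {I D Q : Type} [Fintype I] [Fintype D] [Fintype Q] [DecidableEq Q]
    (ℓ : D → ℕ) (γ : B) (ρ : B → Matrix D D F) (hadd : ∀ a b, ρ (a + b) = ρ a + ρ b)
    (hmul : ∀ a b, ρ (a * b) = ρ a * ρ b) (hst : ∀ b u v, ρ b u v ≠ 0 → ℓ v < ℓ u)
    (M : ℕ) (hℓ : ∀ u, ℓ u ≤ M) (Y : Matrix Q Q B)
    (hY : ¬ Nil (Matrix.of fun s t => Y s t * pw γ M : Matrix Q Q B))
    (x : Matrix I I B) (p q : I) (hρ : ρ (x p q) ≠ 0) :
    ∃ y : Matrix (I × (D × Q)) (I × (D × Q)) B,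
      ¬ Nil (y * amp I (phi (Q := Q) ℓ γ ρ hadd hmul hst) x) := by
  classical
  obtain ⟨u, v, huv⟩ : ∃ u v, ρ (x p q) u v ≠ 0 := by
    by_contra hcon
    push Not at hcon
    exact hρ (Matrix.ext hcon)
  set lam := ρ (x p q) u v with hlam
  have hlt := hst _ u v huv
  have hle := hℓ u
  have hΦ : ∀ (p : I) (u : D) (t : Q) (q : I) (v : D) (t' : Q),
      (amp I (phi (Q := Q) ℓ γ ρ hadd hmul hst) x) (p, (u, t)) (q, (v, t')) =
        if t = t' then ρ (x p q) u v • cp γ (ℓ u - ℓ v) else 0 := fun p u t q v t' => rfl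
  let y : Matrix (I × (D × Q)) (I × (D × Q)) B :=
    Matrix.of fun a b => if a.1 = q ∧ a.2.1 = v ∧ b.1 = p ∧ b.2.1 = u then
      lam⁻¹ • (Y a.2.2 b.2.2 * pw γ (M - (ℓ u - ℓ v))) else 0
  refine ⟨y, ?_⟩
  refine not_nil_of_block (fun t : Q => (q, (v, t)))
    (fun t t' h => by simpa using h) _ ?_ ?_
  · intro a b ha
    rw [Matrix.mul_apply]
    refine Finset.sum_eq_zero fun c _ => ?_
    have : y a c = 0 := by
      show (if _ then _ else _) = _
      rw [if_neg]
      rintro ⟨h1, h2, -⟩
      exact ha ⟨a.2.2, by rw [← h1, ← h2]⟩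
    rw [this, zero_mul]
  · have e : ((y * amp I (phi (Q := Q) ℓ γ ρ hadd hmul hst) x).submatrix
          (fun t : Q => (q, (v, t))) (fun t : Q => (q, (v, t)))) =
        (Matrix.of fun s t => Y s t * pw γ M : Matrix Q Q B) := by
      ext t' t
      rw [Matrix.submatrix_apply, Matrix.mul_apply]
      rw [Finset.sum_eq_single_of_mem (p, (u, t)) (Finset.mem_univ _)]
      · rw [hΦ, if_pos rfl, ← hlam]
        have : y (q, (v, t')) (p, (u, t)) =
            lam⁻¹ • (Y t' t * pw γ (M - (ℓ u - ℓ v))) := by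
          show (if _ then _ else _) = _
          rw [if_pos ⟨rfl, rfl, rfl, rfl⟩]
        rw [this, smul_mul_smul_comm, inv_mul_cancel₀ huv, one_smul, Matrix.of_apply,
          mul_assoc]
        congr 1
        obtain ⟨κ, hκ⟩ : ∃ κ, ℓ u - ℓ v = κ + 1 := ⟨ℓ u - ℓ v - 1, by omega⟩
        rw [hκ]
        show pw γ (M - (κ + 1)) * pw γ κ = pw γ M
        rw [pw_add]
        congr 1
        omega
      · rintro ⟨p', u', t''⟩ - hne'
        rw [hΦ]
        by_cases h1 : p' = p ∧ u' = u
        · obtain ⟨rfl, rfl⟩ := h1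
          have : t'' ≠ t := by
            rintro rfl
            exact hne' rfl
          rw [if_neg this, mul_zero]
        · have : y (q, (v, t')) (p', (u', t'')) = 0 := by
            show (if _ then _ else _) = _
            rw [if_neg]
            rintro ⟨-, -, h3, h4⟩
            exact h1 ⟨h3, h4⟩
          rw [this, zero_mul]
    rw [e]
    exact hY

end Step

section Idx

variable (K : ℕ → Type)

/-- Index types along the tree. -/
def Idx : List ℕ → Type
  | [] => Unit
  | i :: s => Idx s × K i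

variable [∀ i, Fintype (K i)]

noncomputable instance instIdx : ∀ s, Fintype (Idx K s)
  | [] => inferInstanceAs (Fintype Unit)
  | i :: s => by
      haveI := instIdx s
      exact inferInstanceAs (Fintype (Idx K s × K i))

end Idx

section Final

variable {F B : Type} [Field F] [NonUnitalRing B] [Module F B] [IsScalarTower F B B]
  [SMulCommClass F B B]

omit [IsScalarTower F B B] [SMulCommClass F B B] in
lemma umul_inr (s : Unitization F B) (b : B) :
    s * (b : Unitization F B) = ((s.fst • b + s.snd * b : B) : Unitization F B) := by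
  apply Unitization.ext
  · simp [Unitization.fst_mul]
  · simp [Unitization.snd_mul]

omit [IsScalarTower F B B] [SMulCommClass F B B] in
lemma inr_umul (s : Unitization F B) (b : B) :
    (b : Unitization F B) * s = ((s.fst • b + b * s.snd : B) : Unitization F B) := by
  apply Unitization.ext
  · simp [Unitization.fst_mul]
  · simp [Unitization.snd_mul]

lemma good_of_not_nil (F : Type) {B : Type} [Field F] [NonUnitalRing B] [Module F B]
    [IsScalarTower F B B] [SMulCommClass F B B] {n : ℕ} (A : Matrix (Fin n) (Fin n) B) (hA : ¬ Nil A) (i : ℕ) :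
    ∃ (γ : B) (Q : Type) (_ : Fintype Q) (Y : Matrix Q Q B),
      ¬ Nil (Matrix.of fun s t => Y s t * pw γ i : Matrix Q Q B) := by
  let S := Unitization F B
  let j : B →ₙ+* S := (Unitization.inrNonUnitalAlgHom F B : B →ₙ+* S)
  have hj : Function.Injective j := Unitization.inr_injective
  have hjl : ∀ (s : S) (b : B), ∃ b', s * j b = j b' := fun s b => ⟨_, umul_inr s b⟩
  have hjr : ∀ (s : S) (b : B), ∃ b', j b * s = j b' := fun s b => ⟨_, inr_umul s b⟩
  let 𝔟 : AddSubgroup S := (j : B →+ S).range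
  have h𝔟 : IsId 𝔟 := by
    constructor
    · rintro s _ ⟨b, rfl⟩
      obtain ⟨b', hb'⟩ := hjl s b
      exact ⟨b', hb'.symm⟩
    · rintro s _ ⟨b, rfl⟩
      obtain ⟨b', hb'⟩ := hjr s b
      exact ⟨b', hb'.symm⟩
  -- powers
  have hpwS : ∀ (x : S) (k : ℕ), pw x k = x ^ (k + 1) := by
    intro x k
    induction k with
    | zero => simp [pw_zero]
    | succ k ih => rw [pw_succ, ih, ← pow_succ']
  have hpwM : ∀ {N : Type} [Fintype N] [DecidableEq N] (x : Matrix N N S) (k : ℕ),
      pw x k = x ^ (k + 1) := by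
    intro N _ _ x k
    induction k with
    | zero => simp [pw_zero]
    | succ k ih => rw [pw_succ, ih, ← pow_succ']
  have hmap : ∀ {N : Type} [Fintype N] (x : Matrix N N B) (k : ℕ),
      (pw x k).map j = pw (x.map j) k := by
    intro N _ x k
    induction k with
    | zero => rfl
    | succ k ih => rw [pw_succ, pw_succ, ← ih, Matrix.map_mul]
  have hAn : ¬ IsNilpotent (A.map j) := by
    rintro ⟨k, hk⟩
    apply hA
    refine ⟨k, ?_⟩
    change pw A k = 0
    have h1 : (pw A k).map j = 0 := by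
      rw [hmap, hpwM, pow_succ, hk, zero_mul]
    ext a b
    apply hj
    rw [Matrix.zero_apply, map_zero]
    exact congrFun (congrFun h1 a) b
  obtain ⟨c, ⟨γ, rfl⟩, Q, hQ, hQ', Y, hY, hYn⟩ := exists_good 𝔟 h𝔟 (A.map j)
    (fun a b => ⟨A a b, rfl⟩) hAn (i + 1)
  choose y hy using hY
  refine ⟨γ, Q, hQ, Matrix.of y, ?_⟩
  rintro ⟨k, hk⟩
  apply hYn
  refine ⟨k + 1, ?_⟩
  have e : Y * (Matrix.diagonal (fun _ : Q => (j γ) ^ (i + 1)) : Matrix Q Q S) =
      (Matrix.of fun s t => (Matrix.of y) s t * pw γ i : Matrix Q Q B).map j := by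
    refine Matrix.ext fun s t => ?_
    rw [Matrix.mul_diagonal, Matrix.map_apply, Matrix.of_apply, map_mul, map_pw, hpwS, ← hy s t]
    rfl
  have hk' : pw (Matrix.of fun s t => (Matrix.of y) s t * pw γ i : Matrix Q Q B) k = 0 := hk
  change (Y * (Matrix.diagonal (fun _ : Q => (j γ) ^ (i + 1)) : Matrix Q Q S)) ^ (k + 1) = 0
  rw [e, ← hpwM, ← hmap, hk']
  refine Matrix.ext fun s t => ?_
  rw [Matrix.map_apply, Matrix.zero_apply, Matrix.zero_apply, map_zero]

/-- The finitely generated case. -/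
theorem main_fg (hnil : ∀ b : B, Nil b) (X : Finset B)
    (hX : NonUnitalAlgebra.adjoin F (X : Set B) = ⊤)
    (hres : ∀ b : B, b ≠ 0 → ∃ k, b ∉ lowerPow (⊤ : Submodule F B) k)
    {n : ℕ} (A : Matrix (Fin n) (Fin n) B) (hA : ¬ Nil A) :
    ∃ (R : Type) (_ : NonUnitalRing R), Nontrivial R ∧
      (∀ L : AddSubgroup R,
        ((∀ (r x : R), x ∈ L → r * x ∈ L) ∨ (∀ (r x : R), x ∈ L → x * r ∈ L)) →
        (∀ x ∈ L, Nil x) → L = ⊥) ∧
      ∀ (S : Type) [NonUnitalRing S] (g : R →ₙ+* S), Function.Surjective g →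
        Nontrivial S → (∀ a b : S, (∀ r : S, a * r * b = 0) → a = 0 ∨ b = 0) →
        ∃ z : S, z ≠ 0 ∧ ∀ r, Nil (r * z) := by
  classical
  have hgood := fun i => good_of_not_nil F A hA i
  choose γ Q hQ Y hY using hgood
  have hrep := fun i => exists_rep (F := F) (B := B) X hX i
  choose D hD hD' ℓ ρ hℓ hadd hmul hst hne using hrep
  let K : ℕ → Type := fun i => D i × Q i
  let 𝔐 : List ℕ → Type := fun s => Matrix (Idx K s) (Idx K s) B
  letI : ∀ s, NonUnitalRing (𝔐 s) := fun s =>
    inferInstanceAs (NonUnitalRing (Matrix (Idx K s) (Idx K s) B))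
  let Φ : ∀ (i : ℕ) (s : List ℕ), 𝔐 s →ₙ+* 𝔐 (i :: s) := fun i s =>
    amp (Idx K s) (phi (Q := Q i) (ℓ i) (γ i) (ρ i) (hadd i) (hmul i) (hst i))
  have hΦ : ∀ (i : ℕ) (s : List ℕ) (x : 𝔐 s) (p : Idx K s) (u : D i) (t : Q i) (q : Idx K s)
      (v : D i) (t' : Q i),
      (Φ i s x : Matrix (Idx K s × (D i × Q i)) (Idx K s × (D i × Q i)) B) (p, (u, t)) (q, (v, t')) =
        if t = t' then ρ i ((x : Matrix (Idx K s) (Idx K s) B) p q) u v •
          cp (γ i) (ℓ i u - ℓ i v) else 0 := fun i s x p u t q v t' => rfl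
  have H1 : ∀ i s (x : 𝔐 s), Nil (Φ i s x) := by
    intro i s x
    refine nil_of_strict (I := Idx K s × (D i × Q i)) (fun p => ℓ i p.2.1) i
      (fun a => hℓ i _) (Φ i s x) ?_
    rintro ⟨p, u, t⟩ ⟨q, v, t'⟩ hne
    rw [hΦ] at hne
    apply hst i _ u v
    intro h0
    apply hne
    rw [h0]
    simp
  have H3 : ∀ s (x : 𝔐 s), x ∈ AddSubgroup.closure {z : 𝔐 s | ∀ y, Nil (y * z)} := fun s x =>
    mem_closure_columns (I := Idx K s) hnil x
  have H2 : ∀ s (x : 𝔐 s), x ≠ 0 → {i : ℕ | ∃ y, ¬ Nil (y * Φ i s x)}.Infinite := by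
    intro s x hx
    obtain ⟨p, q, hpq⟩ : ∃ p q, (x : Matrix (Idx K s) (Idx K s) B) p q ≠ 0 := by
      by_contra hcon
      push Not at hcon
      exact hx (Matrix.ext hcon)
    obtain ⟨k0, hk0⟩ := hres _ hpq
    have hlow : ∀ i, k0 ≤ i → (x : Matrix (Idx K s) (Idx K s) B) p q ∉
        lowerPow (⊤ : Submodule F B) i := by
      intro i hi hmem
      exact hk0 (antitone_nat_of_succ_le (f := lowerPow (⊤ : Submodule F B))
        (fun k => lowerPow_succ_le k) hi hmem)
    refine (Set.infinite_of_not_bddAbove (s := {i | k0 ≤ i}) ?_).mono ?_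
    · rintro ⟨N, hN⟩
      have := hN (show k0 ≤ max k0 N + 1 by omega)
      omega
    · intro i hi
      have hρ := hne i _ (hlow i hi)
      exact not_nil_step (I := Idx K s) (ℓ i) (γ i) (ρ i) (hadd i) (hmul i) (hst i) i (hℓ i)
        (Y i) (hY i) x p q hρ
  -- the tree ring
  have hnt : Nontrivial (treeRing 𝔐 Φ) := by
    -- a nonzero entry of `A`
    obtain ⟨a, ha⟩ : ∃ a : B, a ≠ 0 := by
      by_contra hcon
      push Not at hcon
      apply hA
      refine ⟨0, ?_⟩
      ext i j
      exact hcon _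
    let x : 𝔐 [] := (Matrix.of fun _ _ => a : Matrix (Idx K []) (Idx K []) B)
    refine ⟨⟨⟨ext Φ [] x, ext_mem Φ [] x⟩, 0, ?_⟩⟩
    intro h
    have h1 := congrFun (congrArg Subtype.val h) []
    have h2 : x = 0 := by
      rw [← ext_self Φ [] x]
      exact h1
    apply ha
    exact congrFun (congrFun h2 ()) ()
  refine ⟨treeRing 𝔐 Φ, inferInstance, hnt, fun L hL hLn => no_nil_ideals Φ H2 L hL hLn, ?_⟩
  intro S _ g hg hnt hp
  exact exists_nil_of_prime Φ g H1 H3 hg hp

end Final

end Pool.Agent.Helper53.Spec
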