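import Pool.Agent.Helper53.SubMACHINE2

/-!
# Subspace theorem project, module MACHINE: the Roth machine
-/

set_option autoImplicit false
set_option linter.unusedSectionVars false

namespace Pool.Agent.Helper53.Sub

open Pool.Agent.Helper10.Sub MvPolynomial Finset

/-- the statement of module ROTHH -/
def RothHStmt (ι : Type) [Fintype ι] [DecidableEq ι] : Prop :=
  ∀ (b : ℕ) (ε : ℝ), 0 < ε → ∃ ω c : ℝ, 0 < ω ∧ 0 < c ∧
    ∀ (r : Fin b → ℕ), (∀ h, 1 ≤ r h) → (∀ h h', h < h' → (r h' : ℝ) ≤ ω * r h) →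
    ∀ (P : MvPolynomial (Fin b × ι) ℤ), P ≠ 0 → (∀ e ∈ P.support, ∀ h, ∑ i, e (h, i) = r h) →
    ∀ (B : ℝ), 1 ≤ B → (∀ e, |((P.coeff e : ℤ) : ℝ)| ≤ B) →
    ∀ (m : Fin b → ι → ℤ), (∀ h, Prim (m h)) →
    (∀ h h', Real.log B + c * r h' ≤ ω * (r h * Real.log (htv (m h)))) →
    ∃ k : (Fin b × ι) →₀ ℕ, wtB r k ≤ ε ∧ ∃ z : Fin b → ι → ℚ,
      (∀ h, ∑ i, (m h i : ℚ) * z h i = 0) ∧
      eval (fun q => z q.1 q.2) (hd k (map (Int.castRingHom ℚ) P)) ≠ 0

/-- the statement of module GRID -/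
def GridStmt (ι : Type) [Fintype ι] [DecidableEq ι] : Prop :=
  ∀ {b n' : ℕ} (G : MvPolynomial (Fin b × ι) ℚ)
    (r : Fin b → ℕ) (_ : ∀ e ∈ G.support, ∀ h, ∑ i, e (h, i) ≤ r h)
    (y : Fin b → Fin n' → ι → ℚ) (z : Fin b → ι → ℚ)
    (_ : ∀ h, z h ∈ Submodule.span ℚ (Set.range (y h)))
    (_ : eval (fun q => z q.1 q.2) G ≠ 0) (N : ℕ),
    ∃ u : Fin b → Fin n' → ℕ, (∀ h j, u h j ≤ N) ∧ ∃ k : (Fin b × ι) →₀ ℕ,
      (∀ h, ∑ i, k (h, i) ≤ n' * (r h / (N + 1))) ∧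
      eval (fun q => ∑ j, (u q.1 j : ℚ) * y q.1 j q.2) (hd k G) ≠ 0

variable {ι : Type} [Fintype ι] [DecidableEq ι] {T : Type} [Fintype T] {p : T → ℕ}
  [∀ t, Fact (p t).Prime]

/-- the statement of module AUX -/
def AuxStmt (S : Sys ι T p) : Prop :=
  ∀ (ε : ℝ), 0 < ε → ∃ b0 : ℕ, ∀ b : ℕ, b0 ≤ b → ∃ K : ℝ, 1 ≤ K ∧
    ∀ r : Fin b → ℕ, (∀ h, 1 ≤ r h) →
    ∃ P : MvPolynomial (Fin b × ι) ℤ, P ≠ 0 ∧ (∀ e ∈ P.support, ∀ h, ∑ i, e (h, i) = r h) ∧
      (∀ e, |((P.coeff e : ℤ) : ℝ)| ≤ K ^ (∑ h, r h)) ∧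
      (∀ e ∈ (linSub S.A⁻¹ P).support, ∀ i,
        |(∑ h, (e (h, i) : ℝ) / r h) - b / Fintype.card ι| ≤ ε * b) ∧
      (∀ t, ∀ e ∈ (linSub (S.A' t)⁻¹ P).support, ∀ i,
        |(∑ h, (e (h, i) : ℝ) / r h) - b / Fintype.card ι| ≤ ε * b)

/-- the data attached to a member of the set -/
structure Dat (S : Sys ι T p) (c : ι → ℝ) (c' : T → ι → ℝ) (δ C1 : ℝ) where
  m : ι → ℤ
  Q : ℝ
  y : Fin (Fintype.card ι - 1) → ι → ℚ
  hm : Prim m
  hQ : 1 ≤ Q
  hQ1 : Q ^ δ ≤ htv m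
  hQ2 : htv m ≤ Q ^ C1
  hy : LinearIndependent ℚ y
  hyP : ∀ j, PVec (pprod p) (y j)
  hmy : ∀ j, ∑ i, (m i : ℚ) * y j i = 0
  hL : ∀ j i, |S.L (y j) i| ≤ Q ^ (c i)
  hL' : ∀ t j i, ‖S.L' t (y j) i‖ ≤ Q ^ (c' t i)

/-- if the set is infinite then there are data with arbitrarily large `Q` -/
lemma exists_dat (S : Sys ι T p) (c : ι → ℝ) (c' : T → ι → ℝ) (δ C1 : ℝ)
    (hinf : {m : ι → ℤ | Prim m ∧ ∃ Q : ℝ, 1 ≤ Q ∧ Q ^ δ ≤ htv m ∧ htv m ≤ Q ^ C1 ∧
      ∃ y : Fin (Fintype.card ι - 1) → ι → ℚ, LinearIndependent ℚ y ∧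
        (∀ j, PVec (pprod p) (y j)) ∧ (∀ j, ∑ i, (m i : ℚ) * y j i = 0) ∧
        (∀ j i, |S.L (y j) i| ≤ Q ^ (c i)) ∧
        (∀ t j i, ‖S.L' t (y j) i‖ ≤ Q ^ (c' t i))}.Infinite) (X : ℝ) :
    ∃ d : Dat S c c' δ C1, X ≤ d.Q := by
  by_contra hcon
  push Not at hcon
  apply hinf
  refine (finite_htv (ι := ι) ((max X 1) ^ |C1|)).subset ?_
  rintro m ⟨hm, Q, hQ, hQ1, hQ2, y, hy, hyP, hmy, hL, hL'⟩
  have h := hcon ⟨m, Q, y, hm, hQ, hQ1, hQ2, hy, hyP, hmy, hL, hL'⟩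
  simp only at h
  rw [Set.mem_ofPred_eq]
  refine hQ2.trans ?_
  calc Q ^ C1 ≤ Q ^ |C1| := Real.rpow_le_rpow_of_exponent_le hQ (le_abs_self _)
    _ ≤ (max X 1) ^ |C1| :=
        Real.rpow_le_rpow (by linarith) (h.le.trans (le_max_left _ _)) (abs_nonneg _)

/-- a rapidly growing sequence of data -/
lemma exists_seq (S : Sys ι T p) (c : ι → ℝ) (c' : T → ι → ℝ) (δ C1 : ℝ)
    (h : ∀ X : ℝ, ∃ d : Dat S c c' δ C1, X ≤ d.Q) (L g : ℝ) (hL : 0 ≤ L) (hg : 1 ≤ g) :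
    ∃ d : ℕ → Dat S c c' δ C1, (∀ k, L ≤ Real.log (d k).Q) ∧
      ∀ k l, k < l → g * Real.log (d k).Q ≤ Real.log (d l).Q := by
  choose f hf using h
  let d : ℕ → Dat S c c' δ C1 := fun k => Nat.rec (f (Real.exp L))
    (fun _ e => f (max (Real.exp L) (e.Q ^ g))) k
  have hd0 : d 0 = f (Real.exp L) := rfl
  have hds : ∀ k, d (k + 1) = f (max (Real.exp L) ((d k).Q ^ g)) := fun k => rfl
  have hX : ∀ k, Real.exp L ≤ (d k).Q := by
    intro k
    cases k with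
    | zero => rw [hd0]; exact hf _
    | succ k => rw [hds]; exact (le_max_left _ _).trans (hf _)
  have hlog : ∀ k, L ≤ Real.log (d k).Q := by
    intro k
    rw [Real.le_log_iff_exp_le (lt_of_lt_of_le (Real.exp_pos _) (hX k))]
    exact hX k
  have hstep : ∀ k, g * Real.log (d k).Q ≤ Real.log (d (k + 1)).Q := by
    intro k
    have h0 : 0 < (d k).Q := lt_of_lt_of_le (Real.exp_pos _) (hX k)
    rw [← Real.log_rpow h0]
    refine Real.log_le_log (Real.rpow_pos_of_pos h0 _) ?_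
    rw [hds]
    exact (le_max_right _ _).trans (hf _)
  have hmono : ∀ k j, Real.log (d (k + 1)).Q ≤ Real.log (d (k + 1 + j)).Q := by
    intro k j
    induction j with
    | zero => exact le_rfl
    | succ j ih =>
      refine ih.trans ?_
      have h1 := hstep (k + 1 + j)
      have h2 := hL.trans (hlog (k + 1 + j))
      have h3 : Real.log (d (k + 1 + j)).Q ≤ g * Real.log (d (k + 1 + j)).Q := by nlinarith
      exact h3.trans h1
  refine ⟨d, hlog, fun k l hkl => ?_⟩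
  obtain ⟨j, rfl⟩ := Nat.exists_eq_add_of_lt hkl
  have h1 := (hstep k).trans (hmono k j)
  rwa [show k + 1 + j = k + j + 1 by ring] at h1

lemma cast_eval {F : Type*} [Field F] [CharZero F] {σ : Type*} (z : σ → ℚ) (k : σ →₀ ℕ)
    (P : MvPolynomial σ ℤ) :
    ((eval z (hd k (MvPolynomial.map (Int.castRingHom ℚ) P)) : ℚ) : F) =
      eval (fun q => (z q : F)) (hd k (MvPolynomial.map (Int.castRingHom F) P)) := by
  have h := MvPolynomial.map_eval (Rat.castHom F) z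
    (hd k (MvPolynomial.map (Int.castRingHom ℚ) P))
  rw [map_hd, MvPolynomial.map_map] at h
  have h2 : (Rat.castHom F).comp (Int.castRingHom ℚ) = Int.castRingHom F := RingHom.ext_int _ _
  rw [h2] at h
  exact h

/-- the estimate at one place -/
lemma place_est {F : Type*} [NormedField F] [CharZero F] {b : ℕ} (hι : 1 ≤ Fintype.card ι)
    (c : ι → ℝ) (C0 : ℝ) (hC0 : ∑ i, |c i| ≤ C0) (D : ℝ) (hD1 : 1 ≤ D)
    (r : Fin b → ℕ) (hr : ∀ h, 1 ≤ r h) (Q : Fin b → ℝ) (hQ : ∀ h, 1 < Q h) (R ε : ℝ)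
    (hR : 0 < R) (hε : 0 < ε) (hε1 : ε ≤ 1)
    (h1 : ∀ h, R ≤ r h * Real.log (Q h)) (h2 : ∀ h, r h * Real.log (Q h) ≤ (1 + ε) * R)
    (k : (Fin b × ι) →₀ ℕ) (v : F) (supp : Finset ((Fin b × ι) →₀ ℕ))
    (hJ : ∀ J ∈ supp, ∀ i, |(∑ h, (J (h, i) : ℝ) / r h) - b / Fintype.card ι| ≤ ε * b)
    (hD : ∀ E : ℝ, 0 ≤ E → (∀ J ∈ supp, ∏ q : Fin b × ι, (Q q.1 ^ c q.2) ^ (J q) ≤ E) →
      ‖v‖ ≤ D ^ (∑ h, r h) * (∏ q : Fin b × ι, (Q q.1 ^ C0) ^ (k q)) * E) :
    ‖v‖ ≤ Real.exp ((∑ h, r h : ℕ) * Real.log D + C0 * (2 * R * wtB r k) +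
      R * ((b / Fintype.card ι) * (∑ i, c i) + 3 * ε * b * C0)) := by
  have hC00 : 0 ≤ C0 := (Finset.sum_nonneg fun i _ => abs_nonneg (c i)).trans hC0
  have h3 := hD (Real.exp (R * ((b / Fintype.card ι) * (∑ i, c i) + 3 * ε * b * C0)))
    (Real.exp_pos _).le
    (fun J hJs => main_term hι c C0 hC0 r hr Q hQ R ε hR hε hε1 h1 h2 J (hJ J hJs))
  refine h3.trans ?_
  rw [Real.exp_add, Real.exp_add]
  refine mul_le_mul_of_nonneg_right ?_ (Real.exp_pos _).le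
  refine mul_le_mul ?_ (deriv_term C0 hC00 r hr Q hQ R ε hR hε1 h2 k) ?_ (Real.exp_pos _).le
  · have hD0 : 0 < D := by linarith
    rw [mul_comm, ← Real.rpow_def_of_pos hD0, Real.rpow_natCast]
  · exact Finset.prod_nonneg fun q _ => pow_nonneg (Real.rpow_nonneg
      (by linarith [hQ q.1]) _) _

set_option maxHeartbeats 4000000 in
theorem machine_of (S : Sys ι T p) (hp : Function.Injective p) (hι : 2 ≤ Fintype.card ι)
    (hroth : RothHStmt ι) (hgrid : GridStmt ι) (haux : AuxStmt S)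
    (c : ι → ℝ) (c' : T → ι → ℝ) (hc : ∑ i, c i + ∑ t, ∑ i, c' t i < 0)
    (δ C1 : ℝ) (hδ : 0 < δ) :
    {m : ι → ℤ | Prim m ∧ ∃ Q : ℝ, 1 ≤ Q ∧ Q ^ δ ≤ htv m ∧ htv m ≤ Q ^ C1 ∧
      ∃ y : Fin (Fintype.card ι - 1) → ι → ℚ, LinearIndependent ℚ y ∧
        (∀ j, PVec (pprod p) (y j)) ∧ (∀ j, ∑ i, (m i : ℚ) * y j i = 0) ∧
        (∀ j i, |S.L (y j) i| ≤ Q ^ (c i)) ∧
        (∀ t j i, ‖S.L' t (y j) i‖ ≤ Q ^ (c' t i))}.Finite := by
  by_contra hfin
  have hdat := exists_dat S c c' δ C1 hfin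
  have hι1 : 1 ≤ Fintype.card ι := by omega
  set n : ℝ := (Fintype.card ι : ℝ) with hn
  have hn1 : (1 : ℝ) ≤ n := by rw [hn]; exact_mod_cast hι1
  have hn0 : 0 < n := by linarith
  set κ : ℝ := -(∑ i, c i + ∑ t, ∑ i, c' t i) with hκ
  have hκ0 : 0 < κ := by linarith
  set C0 : ℝ := ∑ i, |c i| + ∑ t, ∑ i, |c' t i| with hC0
  have hC0a : ∑ i, |c i| ≤ C0 := by
    have : 0 ≤ ∑ t, ∑ i, |c' t i| :=
      Finset.sum_nonneg fun t _ => Finset.sum_nonneg fun i _ => abs_nonneg _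
    linarith
  have hC0b : ∀ t, ∑ i, |c' t i| ≤ C0 := by
    intro t
    have h1 : 0 ≤ ∑ i, |c i| := Finset.sum_nonneg fun i _ => abs_nonneg _
    have h2 : ∑ i, |c' t i| ≤ ∑ t, ∑ i, |c' t i| :=
      Finset.single_le_sum (f := fun t => ∑ i, |c' t i|)
        (fun t _ => Finset.sum_nonneg fun i _ => abs_nonneg _) (Finset.mem_univ t)
    linarith
  have hC00 : 0 ≤ C0 := (Finset.sum_nonneg fun i _ => abs_nonneg (c i)).trans hC0a
  have hci : ∀ i, |c i| ≤ C0 := fun i =>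
    (Finset.single_le_sum (f := fun i => |c i|) (fun i _ => abs_nonneg _)
      (Finset.mem_univ i)).trans hC0a
  have hci' : ∀ t i, |c' t i| ≤ C0 := fun t i =>
    (Finset.single_le_sum (f := fun i => |c' t i|) (fun i _ => abs_nonneg _)
      (Finset.mem_univ i)).trans (hC0b t)
  set s : ℝ := 1 + (Fintype.card T : ℝ) with hs
  have hs0 : 0 ≤ s := by positivity
  set ε : ℝ := min 1 (κ / (4 * n * (7 * s * C0 + 1))) with hεdef
  have hden : 0 < 4 * n * (7 * s * C0 + 1) := by positivity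
  have hε : 0 < ε := lt_min one_pos (by positivity)
  have hε1 : ε ≤ 1 := min_le_left _ _
  have hε2 : 7 * s * C0 * ε ≤ κ / (4 * n) := by
    have h1 : ε ≤ κ / (4 * n * (7 * s * C0 + 1)) := min_le_right _ _
    rw [le_div_iff₀ hden] at h1
    rw [le_div_iff₀ (by positivity)]
    have h2 : 0 ≤ 4 * n * ε := by positivity
    nlinarith
  obtain ⟨b0, hb0⟩ := haux ε hε
  set b : ℕ := max b0 1 with hb
  have hb1 : (1 : ℝ) ≤ b := by
    have : 1 ≤ b := le_max_right _ _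
    exact_mod_cast this
  obtain ⟨K, hK, hauxP⟩ := hb0 b (le_max_left _ _)
  obtain ⟨ω, cc, hω, hcc, hR⟩ := hroth b ε hε
  set n' : ℕ := Fintype.card ι - 1 with hn'
  set N : ℕ := ⌈n / ε⌉₊ with hN
  have hN1 : (n' : ℝ) / (N + 1) ≤ ε := by
    have h1 : n / ε ≤ N := Nat.le_ceil _
    have h2 : (n' : ℝ) ≤ n := by rw [hn]; exact_mod_cast Nat.sub_le _ _
    rw [div_le_iff₀ hε] at h1
    rw [div_le_iff₀ (by positivity)]
    nlinarith
  obtain ⟨D, hD1, hD⟩ := place_bound (b := b) S.A (isUnit_iff_ne_zero.2 S.detA) c K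
    ((n' : ℝ) * N) C0 hK (by positivity) hci
  have hDt := fun t => place_bound (b := b) (S.A' t) (isUnit_iff_ne_zero.2 (S.detA' t)) (c' t) K
    ((n' : ℝ) * N) C0 hK (by positivity) (hci' t)
  choose D' hD'1 hD' using hDt
  set Λ : ℝ := Real.log D + ∑ t, Real.log (D' t) with hΛ
  have hΛ0 : 0 ≤ Λ :=
    add_nonneg (Real.log_nonneg hD1) (Finset.sum_nonneg fun t _ => Real.log_nonneg (hD'1 t))
  have hlogK : 0 ≤ Real.log K := Real.log_nonneg hK
  set L : ℝ := 1 + 8 * n * Λ / κ + 2 * (b * Real.log K + cc) / (ω * δ) with hL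
  have hL1a : 0 ≤ 8 * n * Λ / κ := by positivity
  have hL1b : 0 ≤ 2 * (b * Real.log K + cc) / (ω * δ) := by positivity
  have hL1 : 1 ≤ L := by linarith
  have hL0 : 0 < L := by linarith
  have hL2 : 2 * Λ / L ≤ κ / (4 * n) := by
    have h1 : 8 * n * Λ / κ ≤ L := by linarith
    rw [div_le_iff₀ hκ0] at h1
    rw [div_le_div_iff₀ hL0 (by positivity)]
    linarith
  have hL3 : 2 * (b * Real.log K + cc) ≤ ω * δ * L := by
    have h1 : 2 * (b * Real.log K + cc) / (ω * δ) ≤ L := by linarith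
    rw [div_le_iff₀ (by positivity)] at h1
    linarith
  obtain ⟨d, hdL, hdg⟩ := exists_seq S c c' δ C1 hdat L (2 / ω + 1) hL0.le
    (by have : 0 < 2 / ω := by positivity
        linarith)
  -- the chosen data
  set Q : Fin b → ℝ := fun h => (d h).Q with hQdef
  have hℓ : ∀ h, L ≤ Real.log (Q h) := fun h => hdL h
  have hℓ0 : ∀ h, 0 < Real.log (Q h) := fun h => lt_of_lt_of_le hL0 (hℓ h)
  have hQ1' : ∀ h, 1 ≤ Q h := fun h => (d h).hQ
  have hQ1 : ∀ h, 1 < Q h := fun h => by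
    rw [← Real.log_pos_iff (by linarith [hQ1' h])]
    exact hℓ0 h
  have hQ0 : ∀ h, 0 < Q h := fun h => by linarith [hQ1' h]
  set R : ℝ := ((∑ h, Real.log (Q h)) + 1) / ε with hRdef
  have hR0 : 0 < R := by
    have : 0 ≤ ∑ h, Real.log (Q h) := Finset.sum_nonneg fun h _ => (hℓ0 h).le
    positivity
  have hεR : ∀ h, Real.log (Q h) ≤ ε * R := by
    intro h
    have h1 : Real.log (Q h) ≤ ∑ h, Real.log (Q h) :=
      Finset.single_le_sum (f := fun h => Real.log (Q h)) (fun h _ => (hℓ0 h).le)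
        (Finset.mem_univ h)
    have h2 : ε * R = (∑ h, Real.log (Q h)) + 1 := by
      rw [hRdef]; field_simp
    linarith
  set r : Fin b → ℕ := fun h => ⌈R / Real.log (Q h)⌉₊ with hr
  have hr1 : ∀ h, 1 ≤ r h := fun h => Nat.ceil_pos.2 (div_pos hR0 (hℓ0 h))
  have h1 : ∀ h, R ≤ r h * Real.log (Q h) := by
    intro h
    have := Nat.le_ceil (R / Real.log (Q h))
    rwa [div_le_iff₀ (hℓ0 h)] at this
  have h2 : ∀ h, r h * Real.log (Q h) ≤ (1 + ε) * R := by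
    intro h
    have h3 : (r h : ℝ) < R / Real.log (Q h) + 1 := Nat.ceil_lt_add_one (by
      have := hℓ0 h
      positivity)
    have h4 : (r h : ℝ) * Real.log (Q h) ≤ (R / Real.log (Q h) + 1) * Real.log (Q h) :=
      mul_le_mul_of_nonneg_right h3.le (hℓ0 h).le
    have h5 : (R / Real.log (Q h) + 1) * Real.log (Q h) = R + Real.log (Q h) := by
      have := (hℓ0 h).ne'
      field_simp
    have := hεR h
    linarith
  have h2' : ∀ h, r h * Real.log (Q h) ≤ 2 * R := by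
    intro h
    have := h2 h
    nlinarith
  have hrL : ∀ h, (r h : ℝ) * L ≤ 2 * R := by
    intro h
    exact (mul_le_mul_of_nonneg_left (hℓ h) (Nat.cast_nonneg _)).trans (h2' h)
  have hsumr : ((∑ h, r h : ℕ) : ℝ) * L ≤ 2 * R * b := by
    push_cast
    rw [Finset.sum_mul]
    refine (Finset.sum_le_sum fun h _ => hrL h).trans (le_of_eq ?_)
    rw [Finset.sum_const, Finset.card_univ, Fintype.card_fin, nsmul_eq_mul]
    ring
  have hrr : ∀ h h', h < h' → (r h' : ℝ) ≤ ω * r h := by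
    intro h h' hh
    have h3 := hdg h h' hh
    have h4 : (2 / ω) * Real.log (Q h) ≤ Real.log (Q h') := by
      have := (hℓ0 h).le
      have h5 : (2 / ω + 1) * Real.log (Q h) ≤ Real.log (Q h') := h3
      linarith
    have h5 := h2' h'
    have h6 : (r h' : ℝ) * ((2 / ω) * Real.log (Q h)) ≤ 2 * R :=
      (mul_le_mul_of_nonneg_left h4 (Nat.cast_nonneg _)).trans h5
    have h7 := h1 h
    have h8 : (r h' : ℝ) * ((2 / ω) * Real.log (Q h)) ≤ 2 * (r h * Real.log (Q h)) := by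
      linarith
    have h9 := hℓ0 h
    have h10 : (r h' : ℝ) * (2 / ω) ≤ 2 * r h := by
      have : ((r h' : ℝ) * (2 / ω)) * Real.log (Q h) ≤ (2 * r h) * Real.log (Q h) := by
        linarith
      exact le_of_mul_le_mul_right this h9
    rw [mul_div_assoc', div_le_iff₀ hω] at h10
    linarith
  -- the auxiliary polynomial
  obtain ⟨P, hP0, hPb, hPc, hPJ, hPJ'⟩ := hauxP r hr1
  have hKR : 1 ≤ K ^ (∑ h, r h) := one_le_pow₀ hK
  -- Roth's lemma
  obtain ⟨k1, hk1, z, hz, hzP⟩ := hR r hr1 hrr P hP0 hPb (K ^ (∑ h, r h)) hKR hPc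
    (fun h => (d h).m) (fun h => (d h).hm) (by
      intro h h'
      rw [Real.log_pow]
      have e1 : δ * Real.log (Q h) ≤ Real.log (htv (d h).m) := by
        rw [← Real.log_rpow (hQ0 h)]
        exact Real.log_le_log (Real.rpow_pos_of_pos (hQ0 h) _) (d h).hQ1
      have e2 : ω * δ * R ≤ ω * (r h * Real.log (htv (d h).m)) := by
        have e3 : (r h : ℝ) * (δ * Real.log (Q h)) ≤ r h * Real.log (htv (d h).m) :=
          mul_le_mul_of_nonneg_left e1 (Nat.cast_nonneg _)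
        have e4 : δ * R ≤ δ * (r h * Real.log (Q h)) := mul_le_mul_of_nonneg_left (h1 h) hδ.le
        have e5 : δ * R ≤ r h * Real.log (htv (d h).m) := by linarith
        have := mul_le_mul_of_nonneg_left e5 hω.le
        linarith
      refine le_trans ?_ e2
      have e6 : (((∑ h, r h : ℕ) : ℝ) * Real.log K + cc * r h') * L ≤ (ω * δ * R) * L := by
        have e7 := mul_le_mul_of_nonneg_right hsumr hlogK
        have e8 := mul_le_mul_of_nonneg_left (hrL h') hcc.le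
        have e9 := mul_le_mul_of_nonneg_right hL3 hR0.le
        nlinarith
      exact le_of_mul_le_mul_right e6 hL0)
  -- the grid lemma
  have hn'1 : Fintype.card ι = n' + 1 := by omega
  obtain ⟨u, hu, k2, hk2, hne⟩ := hgrid (n' := n') (hd k1 (map (Int.castRingHom ℚ) P)) r
    (by
      intro e he h
      have e1 := support_hd k1 _ he
      have e2 : e + k1 ∈ P.support := by
        rw [mem_support_iff, coeff_map] at e1
        rw [mem_support_iff]
        intro h0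
        rw [h0, map_zero] at e1
        exact e1 rfl
      rw [← hPb _ e2 h]
      refine Finset.sum_le_sum fun i _ => ?_
      rw [Finsupp.add_apply]
      exact Nat.le_add_right _ _)
    (fun h => (d h).y) z
    (fun h => mem_span_of_orth hn'1 (prim_ne_zero hι (d h).hm) _ (d h).hy (d h).hmy _ (hz h))
    hzP N
  set z' : Fin b × ι → ℚ := fun q => ∑ j, (u q.1 j : ℚ) * (d q.1).y j q.2 with hz'
  rw [hd_hd, map_mul, map_natCast] at hne
  have hv0 := right_ne_zero_of_mul hne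
  set k := k2 + k1 with hk
  set v : ℚ := eval z' (hd k (map (Int.castRingHom ℚ) P)) with hv
  have hwt : wtB r k ≤ 2 * b * ε := by
    have e1 : wtB r k = wtB r k2 + wtB r k1 := by
      unfold wtB
      rw [← Finset.sum_add_distrib]
      refine Finset.sum_congr rfl fun h _ => ?_
      rw [← add_div, ← Nat.cast_add, ← Finset.sum_add_distrib]
      rfl
    have e2 : wtB r k2 ≤ b * ε := by
      unfold wtB
      have e3 : ∀ h ∈ (Finset.univ : Finset (Fin b)),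
          ((∑ i, k2 (h, i) : ℕ) : ℝ) / (r h : ℝ) ≤ ε := by
        intro h _
        have hrp : (0 : ℝ) < r h := by exact_mod_cast hr1 h
        rw [div_le_iff₀ hrp]
        have e4 : ((∑ i, k2 (h, i) : ℕ) : ℝ) ≤ (n' : ℝ) * ((r h / (N + 1) : ℕ) : ℝ) := by
          exact_mod_cast hk2 h
        have e5 : ((r h / (N + 1) : ℕ) : ℝ) ≤ (r h : ℝ) / (N + 1) := by
          have := Nat.cast_div_le (α := ℝ) (m := r h) (n := N + 1)
          push_cast at this
          exact this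
        have e6 : (n' : ℝ) * ((r h / (N + 1) : ℕ) : ℝ) ≤ (n' : ℝ) * ((r h : ℝ) / (N + 1)) :=
          mul_le_mul_of_nonneg_left e5 (Nat.cast_nonneg _)
        have e7 : (n' : ℝ) * ((r h : ℝ) / (N + 1)) = (n' : ℝ) / (N + 1) * r h := by ring
        have e8 := mul_le_mul_of_nonneg_right hN1 hrp.le
        linarith
      refine (Finset.sum_le_sum e3).trans (le_of_eq ?_)
      rw [Finset.sum_const, Finset.card_univ, Fintype.card_fin, nsmul_eq_mul]
    have e9 : ε ≤ b * ε := by nlinarith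
    linarith
  -- the value is an element of `ℤ[1/P]`
  have hvP : PInt (pprod p) v := by
    rw [← mem_pring, hv, ← map_hd]
    refine eval_mem_pring _ _ fun q => ?_
    rw [hz']
    refine Subring.sum_mem _ fun j _ => Subring.mul_mem _ ?_ ?_
    · exact natCast_mem _ _
    · exact (d q.1).hyP j q.2
  have hlow := one_le_prod hp hv0 hvP
  -- the archimedean place
  have hinf : |(v : ℝ)| ≤ Real.exp ((∑ h, r h : ℕ) * Real.log D + C0 * (2 * R * wtB r k) +
      R * ((b / Fintype.card ι) * (∑ i, c i) + 3 * ε * b * C0)) := by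
    rw [← Real.norm_eq_abs]
    refine place_est (F := ℝ) hι1 c C0 hC0a D hD1 r hr1 Q hQ1 R ε hR0 hε hε1 h1 h2 k (v : ℝ)
      (linSub S.A⁻¹ P).support hPJ ?_
    intro E hE hJE
    rw [hv, cast_eval]
    refine hD r P hPb hPc Q hQ1' (fun q => ((z' q : ℚ) : ℝ)) ?_ E hE hJE k
    intro h i
    exact comb_bound (F := ℝ) (S.A i) (d h).y (u h) N (hu h) (Q h ^ c i)
      (fun j => (d h).hL j i)
  -- the p-adic places
  have hpad : ∀ t, ‖(v : ℚ_[p t])‖ ≤ Real.exp ((∑ h, r h : ℕ) * Real.log (D' t) +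
      C0 * (2 * R * wtB r k) +
      R * ((b / Fintype.card ι) * (∑ i, c' t i) + 3 * ε * b * C0)) := by
    intro t
    refine place_est (F := ℚ_[p t]) hι1 (c' t) C0 (hC0b t) (D' t) (hD'1 t) r hr1 Q hQ1 R ε hR0
      hε hε1 h1 h2 k (v : ℚ_[p t]) (linSub (S.A' t)⁻¹ P).support (hPJ' t) ?_
    intro E hE hJE
    rw [hv, cast_eval]
    refine hD' t r P hPb hPc Q hQ1' (fun q => ((z' q : ℚ) : ℚ_[p t])) ?_ E hE hJE k
    intro h i
    exact comb_bound (F := ℚ_[p t]) (S.A' t i) (d h).y (u h) N (hu h) (Q h ^ c' t i)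
      (fun j => (d h).hL' t j i)
  -- the contradiction
  have hup : |(v : ℝ)| * ∏ t, ‖(v : ℚ_[p t])‖ ≤ Real.exp
      (((∑ h, r h : ℕ) * Real.log D + C0 * (2 * R * wtB r k) +
      R * ((b / Fintype.card ι) * (∑ i, c i) + 3 * ε * b * C0)) +
      ∑ t, ((∑ h, r h : ℕ) * Real.log (D' t) +
      C0 * (2 * R * wtB r k) +
      R * ((b / Fintype.card ι) * (∑ i, c' t i) + 3 * ε * b * C0))) := by
    rw [Real.exp_add, Real.exp_sum]
    exact mul_le_mul hinf (Finset.prod_le_prod (fun t _ => norm_nonneg _) fun t _ => hpad t)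
      (Finset.prod_nonneg fun t _ => norm_nonneg _) (Real.exp_pos _).le
  have htot : (((∑ h, r h : ℕ) * Real.log D + C0 * (2 * R * wtB r k) +
      R * ((b / Fintype.card ι) * (∑ i, c i) + 3 * ε * b * C0)) +
      ∑ t, ((∑ h, r h : ℕ) * Real.log (D' t) +
      C0 * (2 * R * wtB r k) +
      R * ((b / Fintype.card ι) * (∑ i, c' t i) + 3 * ε * b * C0))) =
      (∑ h, r h : ℕ) * Λ + s * (C0 * (2 * R * wtB r k)) + R * ((b / n) * (-κ)) +
        s * (R * (3 * ε * b * C0)) := by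
    simp_rw [mul_add]
    rw [Finset.sum_add_distrib, Finset.sum_add_distrib, Finset.sum_add_distrib,
      Finset.sum_const, Finset.sum_const, Finset.card_univ, nsmul_eq_mul, nsmul_eq_mul,
      ← Finset.mul_sum, ← Finset.mul_sum, ← Finset.mul_sum, hκ, hs, hΛ]
    ring
  rw [htot] at hup
  have hneg : (∑ h, r h : ℕ) * Λ + s * (C0 * (2 * R * wtB r k)) + R * ((b / n) * (-κ)) +
        s * (R * (3 * ε * b * C0)) < 0 := by
    have e1 : ((∑ h, r h : ℕ) : ℝ) * Λ ≤ R * b * (κ / (4 * n)) := by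
      have e2 : ((∑ h, r h : ℕ) : ℝ) ≤ 2 * R * b / L := by
        rw [le_div_iff₀ hL0]; exact hsumr
      have e3 := mul_le_mul_of_nonneg_right e2 hΛ0
      have e4 : 2 * R * b / L * Λ = R * b * (2 * Λ / L) := by ring
      have e5 := mul_le_mul_of_nonneg_left hL2 (by positivity : 0 ≤ R * b)
      linarith
    have e6 : s * (C0 * (2 * R * wtB r k)) ≤ s * (C0 * (2 * R * (2 * b * ε))) := by
      gcongr
    have e7 : s * (C0 * (2 * R * (2 * b * ε))) + s * (R * (3 * ε * b * C0)) =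
        R * b * (7 * s * C0 * ε) := by ring
    have e8 := mul_le_mul_of_nonneg_left hε2 (by positivity : 0 ≤ R * b)
    have e9 : R * ((b / n) * (-κ)) = - (R * b * (κ / n)) := by ring
    have e10 : R * b * (κ / n) = 4 * (R * b * (κ / (4 * n))) := by
      field_simp
    have e11 : 0 < R * b * (κ / (4 * n)) := by positivity
    linarith
  have hlt : Real.exp ((∑ h, r h : ℕ) * Λ + s * (C0 * (2 * R * wtB r k)) +
      R * ((b / n) * (-κ)) + s * (R * (3 * ε * b * C0))) < 1 := by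
    rw [Real.exp_lt_one_iff]
    exact hneg
  linarith

end Pool.Agent.Helper53.Sub
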