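import Pool.Agent.Helper10.Sub.Hasse

/-!
# Subspace theorem project, module MACHINE, part 1: weighted norms of polynomials, bound at a place
-/

set_option autoImplicit false

namespace Pool.Agent.Helper53.Sub

open Pool.Agent.Helper10.Sub MvPolynomial Finset

section wn

variable {σ : Type*} [Fintype σ] {F : Type*} [NormedField F]

/-- monomial weight -/
noncomputable def mw (w : σ → ℝ) (e : σ →₀ ℕ) : ℝ := ∏ i, w i ^ e i

lemma mw_nonneg {w : σ → ℝ} (hw : ∀ i, 0 ≤ w i) (e : σ →₀ ℕ) : 0 ≤ mw w e :=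
  Finset.prod_nonneg fun i _ => pow_nonneg (hw i) _

lemma mw_add (w : σ → ℝ) (e e' : σ →₀ ℕ) : mw w (e + e') = mw w e * mw w e' := by
  unfold mw
  rw [← Finset.prod_mul_distrib]
  exact Finset.prod_congr rfl fun i _ => by rw [Finsupp.add_apply, pow_add]

lemma mw_zero (w : σ → ℝ) : mw w 0 = 1 := by simp [mw]

lemma mw_single [DecidableEq σ] (w : σ → ℝ) (i : σ) : mw w (Finsupp.single i 1) = w i := by
  unfold mw
  rw [Finset.prod_eq_single i]
  · simp
  · intro j _ hj
    rw [Finsupp.single_apply, if_neg (Ne.symm hj), pow_zero]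
  · simp

/-- weighted sum of the absolute values of the coefficients -/
noncomputable def wn (w : σ → ℝ) (P : MvPolynomial σ F) : ℝ :=
  ∑ e ∈ P.support, ‖coeff e P‖ * mw w e

lemma wn_eq {w : σ → ℝ} {P : MvPolynomial σ F} {s : Finset (σ →₀ ℕ)} (h : P.support ⊆ s) :
    wn w P = ∑ e ∈ s, ‖coeff e P‖ * mw w e := by
  unfold wn
  refine Finset.sum_subset h fun e _ he => ?_
  rw [notMem_support_iff.1 he, norm_zero, zero_mul]

lemma wn_nonneg {w : σ → ℝ} (hw : ∀ i, 0 ≤ w i) (P : MvPolynomial σ F) : 0 ≤ wn w P :=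
  Finset.sum_nonneg fun e _ => mul_nonneg (norm_nonneg _) (mw_nonneg hw e)

lemma wn_zero (w : σ → ℝ) : wn w (0 : MvPolynomial σ F) = 0 := by simp [wn]

lemma wn_add_le {w : σ → ℝ} (hw : ∀ i, 0 ≤ w i) (P Q : MvPolynomial σ F) :
    wn w (P + Q) ≤ wn w P + wn w Q := by
  classical
  rw [wn_eq (P := P) (Finset.subset_union_left (s₂ := Q.support)),
    wn_eq (P := Q) (Finset.subset_union_right (s₁ := P.support)),
    wn_eq (P := P + Q) (support_add (p := P) (q := Q)), ← Finset.sum_add_distrib]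
  refine Finset.sum_le_sum fun e _ => ?_
  rw [← add_mul, coeff_add]
  exact mul_le_mul_of_nonneg_right (norm_add_le _ _) (mw_nonneg hw e)

lemma wn_sum_le {w : σ → ℝ} (hw : ∀ i, 0 ≤ w i) {α : Type*} (s : Finset α)
    (f : α → MvPolynomial σ F) : wn w (∑ a ∈ s, f a) ≤ ∑ a ∈ s, wn w (f a) := by
  classical
  induction s using Finset.induction_on with
  | empty => simp [wn_zero]
  | insert a s ha ih =>
    rw [Finset.sum_insert ha, Finset.sum_insert ha]
    exact (wn_add_le hw _ _).trans (by linarith)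

lemma wn_monomial {w : σ → ℝ} (e : σ →₀ ℕ) (a : F) :
    wn w (monomial e a) = ‖a‖ * mw w e := by
  classical
  rw [wn_eq (s := {e}) support_monomial_subset, Finset.sum_singleton, coeff_monomial, if_pos rfl]

lemma wn_C (w : σ → ℝ) (a : F) : wn w (C a : MvPolynomial σ F) = ‖a‖ := by
  have := wn_monomial (w := w) (0 : σ →₀ ℕ) a
  rw [mw_zero, mul_one] at this
  exact this

lemma wn_X [DecidableEq σ] (w : σ → ℝ) (i : σ) : wn w (X i : MvPolynomial σ F) = w i := by
  have := wn_monomial (w := w) (Finsupp.single i 1) (1 : F)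
  rw [mw_single, norm_one, one_mul] at this
  exact this

lemma wn_mul_le {w : σ → ℝ} (hw : ∀ i, 0 ≤ w i) (P Q : MvPolynomial σ F) :
    wn w (P * Q) ≤ wn w P * wn w Q := by
  classical
  have h : P * Q = ∑ e ∈ P.support, ∑ e' ∈ Q.support,
      monomial (e + e') (coeff e P * coeff e' Q) := by
    conv_lhs => rw [P.as_sum, Q.as_sum]
    rw [Finset.sum_mul_sum]
    refine Finset.sum_congr rfl fun e _ => Finset.sum_congr rfl fun e' _ => ?_
    rw [monomial_mul]
  rw [h]
  refine (wn_sum_le hw _ _).trans ?_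
  calc ∑ e ∈ P.support, wn w (∑ e' ∈ Q.support, monomial (e + e') (coeff e P * coeff e' Q))
      ≤ ∑ e ∈ P.support, ∑ e' ∈ Q.support,
          (‖coeff e P‖ * mw w e) * (‖coeff e' Q‖ * mw w e') := by
        refine Finset.sum_le_sum fun e _ => (wn_sum_le hw _ _).trans (le_of_eq ?_)
        refine Finset.sum_congr rfl fun e' _ => ?_
        rw [wn_monomial, norm_mul, mw_add]
        ring
    _ = wn w P * wn w Q := by
        unfold wn
        rw [Finset.sum_mul_sum]

lemma wn_one (w : σ → ℝ) : wn w (1 : MvPolynomial σ F) = 1 := by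
  have := wn_C w (1 : F)
  rwa [map_one, norm_one] at this

lemma wn_pow_le {w : σ → ℝ} (hw : ∀ i, 0 ≤ w i) (P : MvPolynomial σ F) (n : ℕ) :
    wn w (P ^ n) ≤ wn w P ^ n := by
  induction n with
  | zero => rw [pow_zero, pow_zero, wn_one]
  | succ n ih =>
    rw [pow_succ, pow_succ]
    exact (wn_mul_le hw _ _).trans (mul_le_mul_of_nonneg_right ih (wn_nonneg hw _))

lemma wn_prod_le {w : σ → ℝ} (hw : ∀ i, 0 ≤ w i) {α : Type*} (s : Finset α)
    (f : α → MvPolynomial σ F) : wn w (∏ a ∈ s, f a) ≤ ∏ a ∈ s, wn w (f a) := by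
  classical
  induction s using Finset.induction_on with
  | empty => simp [wn_one]
  | insert a s ha ih =>
    rw [Finset.prod_insert ha, Finset.prod_insert ha]
    exact (wn_mul_le hw _ _).trans (mul_le_mul_of_nonneg_left ih (wn_nonneg hw _))

lemma coeff_le_wn {w : σ → ℝ} (hw : ∀ i, 0 ≤ w i) (P : MvPolynomial σ F) (e : σ →₀ ℕ) :
    ‖coeff e P‖ * mw w e ≤ wn w P := by
  by_cases he : e ∈ P.support
  · exact Finset.single_le_sum (f := fun e => ‖coeff e P‖ * mw w e)
      (fun e _ => mul_nonneg (norm_nonneg _) (mw_nonneg hw e)) he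
  · rw [notMem_support_iff.1 he, norm_zero, zero_mul]
    exact wn_nonneg hw _

/-- norm of a substitution -/
lemma wn_aeval_le {τ : Type*} [Fintype τ] {w : σ → ℝ} (hw : ∀ i, 0 ≤ w i) {R : Type*}
    [CommRing R] [Algebra R F]
    (P : MvPolynomial τ R) (g : τ → MvPolynomial σ F) :
    wn w (aeval g P) ≤ ∑ e ∈ P.support, ‖algebraMap R F (coeff e P)‖ *
      ∏ i, wn w (g i) ^ e i := by
  classical
  have h : aeval g P = ∑ e ∈ P.support, C (algebraMap R F (coeff e P)) * ∏ i, g i ^ e i := by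
    rw [aeval_def, eval₂_eq']
    rfl
  rw [h]
  refine (wn_sum_le hw _ _).trans (Finset.sum_le_sum fun e _ => ?_)
  refine (wn_mul_le hw _ _).trans ?_
  rw [wn_C]
  refine mul_le_mul_of_nonneg_left ?_ (norm_nonneg _)
  refine (wn_prod_le hw _ _).trans ?_
  exact Finset.prod_le_prod (fun i _ => wn_nonneg hw _) (fun i _ => wn_pow_le hw _ _)

end wn

section place

set_option linter.unusedSectionVars false

variable {ι : Type*} [Fintype ι] [DecidableEq ι] {F : Type*} [NormedField F]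

lemma norm_int_le (z : ℤ) : ‖(z : F)‖ ≤ |((z : ℤ) : ℝ)| := by
  have := norm_zsmul_le z (1 : F)
  simpa [Int.norm_eq_abs] using this

/-- block homogeneous polynomials are homogeneous -/
lemma homog_of_blocks {b : ℕ} {R : Type*} [CommRing R] {P : MvPolynomial (Fin b × ι) R}
    {r : Fin b → ℕ} (h : ∀ e ∈ P.support, ∀ h, ∑ i, e (h, i) = r h) :
    P.IsHomogeneous (∑ h, r h) := by
  intro e he
  rw [Finsupp.weight_apply, Finsupp.sum_fintype _ _ (by simp)]
  simp only [Pi.one_apply, smul_eq_mul, mul_one]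
  rw [Fintype.sum_prod_type]
  exact Finset.sum_congr rfl fun j _ => h e (mem_support_iff.2 he) j

lemma sum_of_homog {σ : Type*} [Fintype σ] {R : Type*} [CommRing R] {P : MvPolynomial σ R}
    {n : ℕ} (h : P.IsHomogeneous n) {e : σ →₀ ℕ} (he : e ∈ P.support) : ∑ i, e i = n := by
  have := h (mem_support_iff.1 he)
  rw [Finsupp.weight_apply, Finsupp.sum_fintype _ _ (by simp)] at this
  simpa using this

lemma linSub_homog {b : ℕ} (M : Matrix ι ι F) {P : MvPolynomial (Fin b × ι) ℤ} {n : ℕ}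
    (h : P.IsHomogeneous n) : (linSub M P).IsHomogeneous n := by
  have := h.aeval (S := F) (fun q : Fin b × ι => ∑ j, C (M q.2 j) * X (q.1, j)) (n := 1) ?_
  · rwa [one_mul] at this
  · intro q
    refine IsHomogeneous.sum _ _ _ fun j _ => ?_
    have := (isHomogeneous_C (Fin b × ι) (M q.2 j)).mul (isHomogeneous_X F (q.1, j))
    rwa [zero_add] at this

/-- number of monomials of a polynomial with bounded exponents -/
lemma card_support_le {σ : Type*} [Fintype σ] [DecidableEq σ] {R : Type*} [CommRing R]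
    (P : MvPolynomial σ R) (s : σ → ℕ)
    (h : ∀ e ∈ P.support, ∀ i, e i ≤ s i) : #P.support ≤ 2 ^ (∑ i, s i) := by
  classical
  have h1 : #P.support ≤ #(Fintype.piFinset fun i => range (s i + 1)) := by
    refine Finset.card_le_card_of_injOn (fun e => (e : σ → ℕ)) ?_ ?_
    · intro e he
      simp only [Finset.mem_coe, Fintype.mem_piFinset, Finset.mem_range]
      intro i
      exact Nat.lt_succ_of_le (h e he i)
    · intro e _ e' _ hee
      exact DFunLike.coe_injective hee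
  refine h1.trans ?_
  rw [Fintype.card_piFinset, ← Finset.prod_pow_eq_pow_sum]
  refine Finset.prod_le_prod' fun i _ => ?_
  rw [Finset.card_range]
  exact Nat.lt_two_pow_self

lemma aeval_linSub {b : ℕ} (A : Matrix ι ι F) (hA : IsUnit A.det)
    (P : MvPolynomial (Fin b × ι) ℤ) :
    aeval (fun q : Fin b × ι => ∑ j, C (A q.2 j) * X (q.1, j)) (linSub A⁻¹ P) =
      map (Int.castRingHom F) P := by
  have h1 : ((aeval (fun q : Fin b × ι => (∑ j, C (A q.2 j) * X (q.1, j) :
      MvPolynomial (Fin b × ι) F)) :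
        MvPolynomial (Fin b × ι) F →ₐ[F] MvPolynomial (Fin b × ι) F).toRingHom.comp
      ((aeval (fun q : Fin b × ι => (∑ j, C (A⁻¹ q.2 j) * X (q.1, j) :
        MvPolynomial (Fin b × ι) F)) :
          MvPolynomial (Fin b × ι) ℤ →ₐ[ℤ] MvPolynomial (Fin b × ι) F).toRingHom)) =
      MvPolynomial.map (Int.castRingHom F) := by
    apply MvPolynomial.ringHom_ext
    · intro z
      simp
    · intro q
      simp only [AlgHom.toRingHom_eq_coe, RingHom.coe_comp, RingHom.coe_coe, Function.comp_apply,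
        aeval_X, map_X, map_sum, map_mul]
      have h2 : ∀ j, (aeval (fun q : Fin b × ι => (∑ j, C (A q.2 j) * X (q.1, j) :
          MvPolynomial (Fin b × ι) F))) (C (A⁻¹ q.2 j)) * ∑ l, C (A j l) * X (q.1, l) =
          ∑ l, C (A⁻¹ q.2 j * A j l) * X (q.1, l) := by
        intro j
        rw [aeval_C, Finset.mul_sum]
        refine Finset.sum_congr rfl fun l _ => ?_
        rw [C_mul, algebraMap_eq, mul_assoc]
      rw [Finset.sum_congr rfl fun j _ => h2 j, Finset.sum_comm]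
      simp_rw [← Finset.sum_mul, ← map_sum]
      have h3 : ∀ l, ∑ j, A⁻¹ q.2 j * A j l = if q.2 = l then 1 else 0 := by
        intro l
        have := congrFun (congrFun (Matrix.nonsing_inv_mul A hA) q.2) l
        rw [Matrix.mul_apply, Matrix.one_apply] at this
        exact this
      simp_rw [h3]
      rw [Finset.sum_eq_single q.2]
      · simp
      · intro l _ hl
        rw [if_neg (Ne.symm hl)]
        simp
      · simp
  exact congrArg (fun f => f P) h1

lemma shift_aeval_lin {b : ℕ} (A : Matrix ι ι F) (z : Fin b × ι → F)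
    (G : MvPolynomial (Fin b × ι) F) :
    shift z (aeval (fun q : Fin b × ι => ∑ j, C (A q.2 j) * X (q.1, j)) G) =
      aeval (fun q : Fin b × ι => (∑ j, C (A q.2 j) * X (q.1, j)) +
        C (∑ j, A q.2 j * z (q.1, j))) G := by
  rw [← AlgHom.comp_apply]
  congr 1
  apply MvPolynomial.algHom_ext
  intro q
  rw [AlgHom.comp_apply, aeval_X, aeval_X, map_sum, map_sum, ← Finset.sum_add_distrib]
  refine Finset.sum_congr rfl fun j _ => ?_
  rw [map_mul, shift_C, shift_X, C_mul]
  ring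

lemma wn_lin {b : ℕ} {w : Fin b × ι → ℝ} (hw : ∀ i, 0 ≤ w i) (M : Matrix ι ι F)
    (q : Fin b × ι) :
    wn w (∑ j, C (M q.2 j) * X (q.1, j) : MvPolynomial (Fin b × ι) F) ≤
      ∑ j, ‖M q.2 j‖ * w (q.1, j) := by
  refine (wn_sum_le hw _ _).trans (Finset.sum_le_sum fun j _ => ?_)
  refine (wn_mul_le hw _ _).trans ?_
  rw [wn_C, wn_X]

lemma row_le (M : Matrix ι ι F) (i : ι) : ∑ j, ‖M i j‖ ≤ ∑ i, ∑ j, ‖M i j‖ :=
  Finset.single_le_sum (f := fun i => ∑ j, ‖M i j‖)
    (fun i _ => Finset.sum_nonneg fun j _ => norm_nonneg _) (Finset.mem_univ i)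

theorem place_bound {b : ℕ} (A : Matrix ι ι F) (hA : IsUnit A.det) (c : ι → ℝ) (K N' C0 : ℝ)
    (hK : 1 ≤ K) (hN : 0 ≤ N') (hC0 : ∀ i, |c i| ≤ C0) :
    ∃ D : ℝ, 1 ≤ D ∧ ∀ (r : Fin b → ℕ) (P : MvPolynomial (Fin b × ι) ℤ),
      (∀ e ∈ P.support, ∀ h, ∑ i, e (h, i) = r h) →
      (∀ e, |((P.coeff e : ℤ) : ℝ)| ≤ K ^ (∑ h, r h)) →
      ∀ (Q : Fin b → ℝ), (∀ h, 1 ≤ Q h) → ∀ z : Fin b × ι → F,
      (∀ h i, ‖∑ j, A i j * z (h, j)‖ ≤ N' * Q h ^ c i) →
      ∀ E : ℝ, 0 ≤ E → (∀ J ∈ (linSub A⁻¹ P).support,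
        ∏ q : Fin b × ι, (Q q.1 ^ c q.2) ^ (J q) ≤ E) →
      ∀ k : (Fin b × ι) →₀ ℕ, ‖eval z (hd k (map (Int.castRingHom F) P))‖ ≤
        D ^ (∑ h, r h) * (∏ q : Fin b × ι, (Q q.1 ^ C0) ^ (k q)) * E := by
  set a : ℝ := ∑ i, ∑ j, ‖A i j‖ with ha
  set μ : ℝ := 1 + ∑ i, ∑ j, ‖A⁻¹ i j‖ with hμ
  have ha0 : 0 ≤ a := Finset.sum_nonneg fun i _ => Finset.sum_nonneg fun j _ => norm_nonneg _
  have hμ1 : 1 ≤ μ := by
    have : 0 ≤ ∑ i, ∑ j, ‖A⁻¹ i j‖ :=
      Finset.sum_nonneg fun i _ => Finset.sum_nonneg fun j _ => norm_nonneg _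
    linarith
  set d : ℝ := a + N' + 1 with hd'
  have hd1 : 1 ≤ d := by linarith
  refine ⟨2 ^ Fintype.card ι * K * μ * d, ?_, ?_⟩
  · have h1 : (1 : ℝ) ≤ 2 ^ Fintype.card ι := one_le_pow₀ (by norm_num)
    exact one_le_mul_of_one_le_of_one_le (one_le_mul_of_one_le_of_one_le
      (one_le_mul_of_one_le_of_one_le h1 hK) hμ1) hd1
  intro r P hP hcoef Q hQ z hz E hE hJ k
  set R : ℕ := ∑ h, r h with hR
  set w : Fin b × ι → ℝ := fun q => Q q.1 ^ (-C0) with hw'
  have hQ0 : ∀ h, 0 < Q h := fun h => lt_of_lt_of_le one_pos (hQ h)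
  have hw0 : ∀ q, 0 < w q := fun q => Real.rpow_pos_of_pos (hQ0 _) _
  have hw : ∀ q, 0 ≤ w q := fun q => (hw0 q).le
  set G := linSub A⁻¹ P with hG
  have hPhom := homog_of_blocks hP
  have hGhom : G.IsHomogeneous R := linSub_homog _ hPhom
  -- the norm of `G`
  have hGn : wn (fun _ => 1) G ≤ (2 ^ Fintype.card ι * K * μ) ^ R := by
    refine (wn_aeval_le (fun _ => zero_le_one) P _).trans ?_
    have h1 : ∀ e ∈ P.support, ‖algebraMap ℤ F (coeff e P)‖ *
        ∏ q : Fin b × ι, wn (fun _ => (1 : ℝ))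
          (∑ j, C (A⁻¹ q.2 j) * X (q.1, j) : MvPolynomial (Fin b × ι) F) ^ e q ≤
        K ^ R * μ ^ R := by
      intro e he
      refine mul_le_mul ?_ ?_ ?_ (by positivity)
      · rw [algebraMap_int_eq]
        exact (norm_int_le _).trans (hcoef e)
      · calc ∏ q : Fin b × ι, wn (fun _ => (1 : ℝ))
              (∑ j, C (A⁻¹ q.2 j) * X (q.1, j) : MvPolynomial (Fin b × ι) F) ^ e q
            ≤ ∏ q : Fin b × ι, μ ^ e q := by
              refine Finset.prod_le_prod (fun q _ => pow_nonneg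
                (wn_nonneg (fun _ => zero_le_one) _) _) fun q _ => ?_
              refine pow_le_pow_left₀ (wn_nonneg (fun _ => zero_le_one) _) ?_ _
              refine (wn_lin (fun _ => zero_le_one) _ _).trans ?_
              simp only [mul_one]
              have := row_le A⁻¹ q.2
              linarith
          _ = μ ^ R := by
              rw [Finset.prod_pow_eq_pow_sum, sum_of_homog hPhom he]
      · exact Finset.prod_nonneg fun q _ => pow_nonneg (wn_nonneg (fun _ => zero_le_one) _) _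
    refine (Finset.sum_le_sum h1).trans ?_
    rw [Finset.sum_const, nsmul_eq_mul, mul_pow, mul_pow, mul_assoc]
    refine mul_le_mul_of_nonneg_right ?_ (by positivity)
    have h2 := card_support_le P (fun q => r q.1) (fun e he q => by
      rw [← hP e he q.1]
      exact Finset.single_le_sum (f := fun i => e (q.1, i)) (fun i _ => Nat.zero_le _)
        (Finset.mem_univ q.2))
    have h3 : ∑ q : Fin b × ι, r q.1 = Fintype.card ι * R := by
      rw [Fintype.sum_prod_type, hR, Finset.mul_sum]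
      exact Finset.sum_congr rfl fun h _ => by simp
    rw [h3, pow_mul] at h2
    exact_mod_cast h2
  -- the shifted polynomial
  have hshift : shift z (map (Int.castRingHom F) P) = aeval (fun q : Fin b × ι =>
      (∑ j, C (A q.2 j) * X (q.1, j)) + C (∑ j, A q.2 j * z (q.1, j))) G := by
    rw [← aeval_linSub A hA P, shift_aeval_lin]
  have hlin : ∀ q : Fin b × ι, wn w ((∑ j, C (A q.2 j) * X (q.1, j)) +
      C (∑ j, A q.2 j * z (q.1, j)) : MvPolynomial (Fin b × ι) F) ≤ d * Q q.1 ^ c q.2 := by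
    intro q
    refine (wn_add_le hw _ _).trans ?_
    rw [wn_C]
    have h1 := wn_lin hw A q
    have h2 : ∑ j, ‖A q.2 j‖ * w (q.1, j) ≤ a * Q q.1 ^ c q.2 := by
      have h3 : Q q.1 ^ (-C0) ≤ Q q.1 ^ c q.2 := by
        refine Real.rpow_le_rpow_of_exponent_le (hQ _) ?_
        have := abs_le.1 (hC0 q.2)
        linarith [this.1]
      calc ∑ j, ‖A q.2 j‖ * w (q.1, j) = (∑ j, ‖A q.2 j‖) * Q q.1 ^ (-C0) := by
            rw [Finset.sum_mul]
        _ ≤ a * Q q.1 ^ c q.2 := mul_le_mul (row_le A q.2) h3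
            (Real.rpow_nonneg (hQ0 _).le _) ha0
    have h4 := hz q.1 q.2
    have h5 : 0 ≤ Q q.1 ^ c q.2 := Real.rpow_nonneg (hQ0 _).le _
    have h6 : d * Q q.1 ^ c q.2 = a * Q q.1 ^ c q.2 + N' * Q q.1 ^ c q.2 + Q q.1 ^ c q.2 := by
      rw [hd']; ring
    linarith
  have hsum : wn w (shift z (map (Int.castRingHom F) P)) ≤
      (2 ^ Fintype.card ι * K * μ) ^ R * (d ^ R * E) := by
    rw [hshift]
    refine (wn_aeval_le hw G _).trans ?_
    have h1 : ∀ J ∈ G.support, ‖algebraMap F F (coeff J G)‖ *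
        ∏ q : Fin b × ι, wn w ((∑ j, C (A q.2 j) * X (q.1, j)) +
          C (∑ j, A q.2 j * z (q.1, j)) : MvPolynomial (Fin b × ι) F) ^ J q ≤
        (‖coeff J G‖ * mw (fun _ => 1) J) * (d ^ R * E) := by
      intro J hJs
      have h2 : mw (fun _ : Fin b × ι => (1 : ℝ)) J = 1 := by simp [mw]
      rw [h2, mul_one, Algebra.algebraMap_self_apply]
      refine mul_le_mul_of_nonneg_left ?_ (norm_nonneg _)
      calc ∏ q : Fin b × ι, wn w ((∑ j, C (A q.2 j) * X (q.1, j)) +
              C (∑ j, A q.2 j * z (q.1, j)) : MvPolynomial (Fin b × ι) F) ^ J q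
          ≤ ∏ q : Fin b × ι, (d * Q q.1 ^ c q.2) ^ J q := by
            refine Finset.prod_le_prod (fun q _ => pow_nonneg (wn_nonneg hw _) _) fun q _ => ?_
            exact pow_le_pow_left₀ (wn_nonneg hw _) (hlin q) _
        _ = d ^ R * ∏ q : Fin b × ι, (Q q.1 ^ c q.2) ^ J q := by
            simp_rw [mul_pow]
            rw [Finset.prod_mul_distrib, Finset.prod_pow_eq_pow_sum, sum_of_homog hGhom hJs]
        _ ≤ d ^ R * E := mul_le_mul_of_nonneg_left (hJ J hJs) (by positivity)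
    refine (Finset.sum_le_sum h1).trans ?_
    rw [← Finset.sum_mul]
    exact mul_le_mul_of_nonneg_right hGn (mul_nonneg (by positivity) hE)
  have hcoef2 := coeff_le_wn hw (shift z (map (Int.castRingHom F) P)) k
  rw [coeff_shift] at hcoef2
  have hfin := hcoef2.trans hsum
  have hmw : mw w k * ∏ q : Fin b × ι, (Q q.1 ^ C0) ^ (k q) = 1 := by
    unfold mw
    rw [← Finset.prod_mul_distrib]
    refine Finset.prod_eq_one fun q _ => ?_
    rw [← mul_pow, hw', ← Real.rpow_add (hQ0 _), neg_add_cancel, Real.rpow_zero, one_pow]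
  have hpos : 0 ≤ ∏ q : Fin b × ι, (Q q.1 ^ C0) ^ (k q) :=
    Finset.prod_nonneg fun q _ => pow_nonneg (Real.rpow_nonneg (hQ0 _).le _) _
  calc ‖eval z (hd k (map (Int.castRingHom F) P))‖
      = ‖eval z (hd k (map (Int.castRingHom F) P))‖ * mw w k *
          ∏ q : Fin b × ι, (Q q.1 ^ C0) ^ (k q) := by rw [mul_assoc, hmw, mul_one]
    _ ≤ ((2 ^ Fintype.card ι * K * μ) ^ R * (d ^ R * E)) *
          ∏ q : Fin b × ι, (Q q.1 ^ C0) ^ (k q) := mul_le_mul_of_nonneg_right hfin hpos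
    _ = (2 ^ Fintype.card ι * K * μ * d) ^ R * (∏ q : Fin b × ι, (Q q.1 ^ C0) ^ (k q)) * E := by
        rw [mul_pow _ d]
        ring

end place

end Pool.Agent.Helper53.Sub
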