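import Pool.Agent.Helper53.SubMACHINE1

/-!
# Subspace theorem project, module MACHINE, part 2: `ℤ[1/P]`, product formula, numeric estimates
-/

set_option autoImplicit false
set_option linter.unusedSectionVars false

namespace Pool.Agent.Helper53.Sub

open Pool.Agent.Helper10.Sub MvPolynomial Finset

/-- `ℤ[1/P]` as a subring -/
def pring (P : ℕ) : Subring ℚ where
  carrier := {x | PInt P x}
  mul_mem' := by
    rintro x y ⟨k, z, hz⟩ ⟨l, w, hw⟩
    refine ⟨k + l, z * w, ?_⟩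
    rw [pow_add]
    push_cast
    rw [← hz, ← hw]
    ring
  one_mem' := ⟨0, 1, by simp⟩
  add_mem' := by
    rintro x y ⟨k, z, hz⟩ ⟨l, w, hw⟩
    refine ⟨k + l, z * P ^ l + w * P ^ k, ?_⟩
    rw [pow_add]
    push_cast
    rw [← hz, ← hw]
    ring
  zero_mem' := ⟨0, 0, by simp⟩
  neg_mem' := by
    rintro x ⟨k, z, hz⟩
    refine ⟨k, -z, ?_⟩
    push_cast
    rw [← hz]
    ring

lemma mem_pring {P : ℕ} {x : ℚ} : x ∈ pring P ↔ PInt P x := Iff.rfl

/-- values of integer polynomials -/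
lemma eval_mem_pring {σ : Type*} [Fintype σ] {P : ℕ} (G : MvPolynomial σ ℤ) (x : σ → ℚ)
    (hx : ∀ i, x i ∈ pring P) : eval x (map (Int.castRingHom ℚ) G) ∈ pring P := by
  rw [eval_map, eval₂_eq']
  refine Subring.sum_mem _ fun e _ => Subring.mul_mem _ ?_ ?_
  · exact intCast_mem _ _
  · exact Subring.prod_mem _ fun i _ => Subring.pow_mem _ (hx i) _

section prodformula

variable {T : Type*} [Fintype T] {p : T → ℕ} [∀ t, Fact (p t).Prime]

lemma int_prod (hp : Function.Injective p) (z : ℤ) (hz : z ≠ 0) :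
    1 ≤ |(z : ℝ)| * ∏ t, ‖(z : ℚ_[p t])‖ := by
  have h1 : ∀ t, ‖(z : ℚ_[p t])‖ = ((p t : ℝ) ^ padicValInt (p t) z)⁻¹ := by
    intro t
    have e1 : ((z : ℚ) : ℚ_[p t]) = (z : ℚ_[p t]) := by push_cast; rfl
    rw [← e1, Padic.eq_padicNorm, padicNorm.eq_zpow_of_nonzero (by exact_mod_cast hz),
      padicValRat.of_int]
    push_cast
    rw [zpow_neg, zpow_natCast]
  have h2 : (∏ t, (p t) ^ (padicValInt (p t) z)) ∣ z.natAbs := by
    refine Finset.prod_dvd_of_isRelPrime ?_ ?_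
    · intro t _ t' _ htt
      have : p t ≠ p t' := fun h => htt (hp h)
      have h3 : Nat.Coprime (p t) (p t') :=
        (Nat.coprime_primes (Fact.out) (Fact.out)).2 this
      exact Nat.coprime_iff_isRelPrime.1 (Nat.Coprime.pow _ _ h3)
    · intro t _
      rw [← Int.natCast_dvd]
      push_cast
      exact padicValInt_dvd z
  have h3 : (∏ t, ((p t : ℝ) ^ (padicValInt (p t) z))) ≤ |(z : ℝ)| := by
    have := Nat.le_of_dvd (Int.natAbs_pos.2 hz) h2
    have h4 : ((∏ t, (p t) ^ (padicValInt (p t) z) : ℕ) : ℝ) ≤ (z.natAbs : ℝ) := by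
      exact_mod_cast this
    rw [Nat.cast_natAbs] at h4
    push_cast at h4
    exact h4
  have hpos : 0 < ∏ t, ((p t : ℝ) ^ (padicValInt (p t) z)) := by
    refine Finset.prod_pos fun t _ => ?_
    have : 0 < p t := (Fact.out : (p t).Prime).pos
    positivity
  simp_rw [h1]
  rw [Finset.prod_inv_distrib]
  rw [← div_eq_mul_inv, one_le_div hpos]
  exact h3

lemma pprod_prod (hp : Function.Injective p) :
    ((pprod p : ℕ) : ℝ) * ∏ t, ‖((pprod p : ℕ) : ℚ_[p t])‖ = 1 := by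
  classical
  have h1 : ∀ t, ‖((pprod p : ℕ) : ℚ_[p t])‖ = ((p t : ℝ))⁻¹ := by
    intro t
    unfold pprod
    rw [Nat.cast_prod, norm_prod, Finset.prod_eq_single t]
    · rw [Padic.norm_p]
    · intro t' _ htt
      have : p t ≠ p t' := fun h => htt (hp h).symm
      have h3 : Nat.Coprime (p t) (p t') :=
        (Nat.coprime_primes (Fact.out) (Fact.out)).2 this
      rw [Padic.norm_natCast_eq_one_iff]
      exact h3
    · simp
  simp_rw [h1]
  rw [Finset.prod_inv_distrib]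
  unfold pprod
  push_cast
  refine mul_inv_cancel₀ ?_
  refine Finset.prod_ne_zero_iff.2 fun t _ => ?_
  have : 0 < p t := (Fact.out : (p t).Prime).pos
  positivity

lemma one_le_prod (hp : Function.Injective p) {v : ℚ} (hv : v ≠ 0) (h : PInt (pprod p) v) :
    1 ≤ |(v : ℝ)| * ∏ t, ‖(v : ℚ_[p t])‖ := by
  obtain ⟨k, z, hz⟩ := h
  have hP : pprod p ≠ 0 := by
    unfold pprod
    exact Finset.prod_ne_zero_iff.2 fun t _ => (Fact.out : (p t).Prime).ne_zero
  have hPq : ((pprod p : ℕ) : ℚ) ≠ 0 := by exact_mod_cast hP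
  have hz0 : z ≠ 0 := by
    rintro rfl
    rw [Int.cast_zero, mul_eq_zero] at hz
    rcases hz with hz | hz
    · exact hv hz
    · exact pow_ne_zero _ hPq hz
  have h1 := int_prod (p := p) hp z hz0
  have h2 : |(z : ℝ)| = |(v : ℝ)| * ((pprod p : ℕ) : ℝ) ^ k := by
    have : (z : ℝ) = (v : ℝ) * ((pprod p : ℕ) : ℝ) ^ k := by exact_mod_cast hz.symm
    rw [this, abs_mul, abs_pow, Nat.abs_cast]
  have h3 : ∀ t, ‖(z : ℚ_[p t])‖ = ‖(v : ℚ_[p t])‖ * ‖((pprod p : ℕ) : ℚ_[p t])‖ ^ k := by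
    intro t
    have : (z : ℚ_[p t]) = (v : ℚ_[p t]) * ((pprod p : ℕ) : ℚ_[p t]) ^ k := by
      exact_mod_cast congrArg (fun x : ℚ => (x : ℚ_[p t])) hz.symm
    rw [this, norm_mul, norm_pow]
  rw [h2] at h1
  simp_rw [h3] at h1
  rw [Finset.prod_mul_distrib, Finset.prod_pow] at h1
  have h4 := pprod_prod (p := p) hp
  calc (1 : ℝ) ≤ _ := h1
    _ = (|(v : ℝ)| * ∏ t, ‖(v : ℚ_[p t])‖) *
        (((pprod p : ℕ) : ℝ) * ∏ t, ‖((pprod p : ℕ) : ℚ_[p t])‖) ^ k := by
        rw [mul_pow]; ring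
    _ = _ := by rw [h4, one_pow, mul_one]

end prodformula

section misc

variable {ι : Type*} [Fintype ι] [DecidableEq ι]

/-- values of linear forms at small combinations -/
lemma comb_bound {F : Type*} [NormedField F] [CharZero F] (a : ι → F) {n' : ℕ}
    (y : Fin n' → ι → ℚ) (u : Fin n' → ℕ) (N : ℕ) (hu : ∀ j, u j ≤ N) (B : ℝ)
    (hB : ∀ j, ‖∑ l, a l * (y j l : F)‖ ≤ B) :
    ‖∑ l, a l * ((∑ j, (u j : ℚ) * y j l : ℚ) : F)‖ ≤ (n' * N) * B := by
  have h1 : ∑ l, a l * ((∑ j, (u j : ℚ) * y j l : ℚ) : F) =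
      ∑ j, (u j : F) * ∑ l, a l * (y j l : F) := by
    push_cast
    simp_rw [Finset.mul_sum]
    rw [Finset.sum_comm]
    refine Finset.sum_congr rfl fun j _ => Finset.sum_congr rfl fun l _ => ?_
    ring
  rw [h1]
  refine (norm_sum_le _ _).trans ?_
  have h2 : ∀ j ∈ (Finset.univ : Finset (Fin n')),
      ‖(u j : F) * ∑ l, a l * (y j l : F)‖ ≤ (N : ℝ) * B := by
    intro j _
    rw [norm_mul]
    refine mul_le_mul ?_ (hB j) (norm_nonneg _) (Nat.cast_nonneg _)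
    have := norm_int_le (F := F) (u j : ℤ)
    simp only [Int.cast_natCast, Nat.abs_cast] at this
    exact this.trans (by exact_mod_cast hu j)
  refine (Finset.sum_le_sum h2).trans (le_of_eq ?_)
  rw [Finset.sum_const, Finset.card_univ, Fintype.card_fin, nsmul_eq_mul]
  ring

lemma prim_ne_zero (hι : 2 ≤ Fintype.card ι) {m : ι → ℤ} (h : Prim m) : m ≠ 0 := by
  rintro rfl
  have := h 2 (by simp)
  rw [Int.isUnit_iff] at this
  omega

/-- the orthogonal complement of `m` is spanned by any `n - 1` independent vectors in it -/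
lemma mem_span_of_orth {n' : ℕ} (hn : Fintype.card ι = n' + 1) {m : ι → ℤ} (hm : m ≠ 0)
    (y : Fin n' → ι → ℚ) (hy : LinearIndependent ℚ y) (hmy : ∀ j, ∑ i, (m i : ℚ) * y j i = 0)
    (z : ι → ℚ) (hz : ∑ i, (m i : ℚ) * z i = 0) : z ∈ Submodule.span ℚ (Set.range y) := by
  set f : Module.Dual ℚ (ι → ℚ) := ∑ i, (m i : ℚ) • LinearMap.proj i with hf
  have hfa : ∀ x : ι → ℚ, f x = ∑ i, (m i : ℚ) * x i := by
    intro x
    rw [hf, LinearMap.sum_apply]
    rfl
  have hf0 : f ≠ 0 := by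
    intro h
    apply hm
    funext i
    have := hfa (Pi.single i 1)
    rw [h, LinearMap.zero_apply, Finset.sum_eq_single i] at this
    · simp at this
      exact_mod_cast this.symm
    · intro j _ hj
      rw [Pi.single_apply, if_neg hj, mul_zero]
    · simp
  have hk := Module.Dual.finrank_ker_add_one_of_ne_zero hf0
  rw [Module.finrank_fintype_fun_eq_card, hn] at hk
  have hle : Submodule.span ℚ (Set.range y) ≤ LinearMap.ker f := by
    rw [Submodule.span_le]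
    rintro _ ⟨j, rfl⟩
    rw [SetLike.mem_coe, LinearMap.mem_ker, hfa]
    exact hmy j
  have heq := Submodule.eq_of_le_of_finrank_eq hle (by
    rw [finrank_span_eq_card hy, Fintype.card_fin]
    omega)
  rw [heq, LinearMap.mem_ker, hfa]
  exact hz

lemma abs_le_htv (m : ι → ℤ) (i : ι) : ((m i).natAbs : ℝ) ≤ htv m := by
  unfold htv
  exact_mod_cast Finset.le_sup (f := fun i => (m i).natAbs) (Finset.mem_univ i)

lemma finite_htv (Y : ℝ) : {m : ι → ℤ | htv m ≤ Y}.Finite := by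
  refine (Set.finite_Icc (fun _ : ι => -(⌈Y⌉ : ℤ)) (fun _ => ⌈Y⌉)).subset ?_
  intro m hm
  have h : ∀ i, |m i| ≤ ⌈Y⌉ := by
    intro i
    have h1 := (abs_le_htv m i).trans hm
    have h2 : ((m i).natAbs : ℝ) = ((|m i| : ℤ) : ℝ) := by
      rw [Nat.cast_natAbs]
    rw [h2] at h1
    have h3 : ((|m i| : ℤ) : ℝ) ≤ ((⌈Y⌉ : ℤ) : ℝ) := h1.trans (Int.le_ceil Y)
    exact_mod_cast h3
  exact ⟨fun i => (abs_le.1 (h i)).1, fun i => (abs_le.1 (h i)).2⟩

end misc

section numeric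

variable {ι : Type*} [Fintype ι] [DecidableEq ι] {b : ℕ}

/-- the main term at one place -/
lemma main_term (hι : 1 ≤ Fintype.card ι) (c : ι → ℝ) (C0 : ℝ) (hC0 : ∑ i, |c i| ≤ C0)
    (r : Fin b → ℕ) (hr : ∀ h, 1 ≤ r h) (Q : Fin b → ℝ) (hQ : ∀ h, 1 < Q h) (R ε : ℝ)
    (hR : 0 < R) (hε : 0 < ε) (hε1 : ε ≤ 1)
    (h1 : ∀ h, R ≤ r h * Real.log (Q h)) (h2 : ∀ h, r h * Real.log (Q h) ≤ (1 + ε) * R)
    (J : (Fin b × ι) →₀ ℕ)
    (hJ : ∀ i, |(∑ h, (J (h, i) : ℝ) / r h) - b / Fintype.card ι| ≤ ε * b) :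
    ∏ q : Fin b × ι, (Q q.1 ^ c q.2) ^ (J q) ≤
      Real.exp (R * ((b / Fintype.card ι) * (∑ i, c i) + 3 * ε * b * C0)) := by
  have hQ0 : ∀ h, 0 < Q h := fun h => lt_trans one_pos (hQ h)
  have hlog : ∀ q : Fin b × ι, (Q q.1 ^ c q.2) ^ (J q) =
      Real.exp (c q.2 * ((J q : ℝ) * Real.log (Q q.1))) := by
    intro q
    rw [← Real.rpow_natCast, ← Real.rpow_mul (hQ0 _).le, Real.rpow_def_of_pos (hQ0 _)]
    congr 1
    ring
  simp_rw [hlog]
  rw [← Real.exp_sum]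
  apply Real.exp_le_exp.2
  rw [Fintype.sum_prod_type_right]
  have hn : (1 : ℝ) ≤ Fintype.card ι := by exact_mod_cast hι
  have hb0 : (0 : ℝ) ≤ b := Nat.cast_nonneg _
  have hkey : ∀ i, |(∑ h, (J (h, i) : ℝ) * Real.log (Q h)) - R * (b / Fintype.card ι)| ≤
      R * (3 * ε * b) := by
    intro i
    have hrp : ∀ h, (0 : ℝ) < r h := fun h => by exact_mod_cast hr h
    have e1 : ∀ h, (J (h, i) : ℝ) * Real.log (Q h) =
        R * ((J (h, i) : ℝ) / r h) + ((J (h, i) : ℝ) / r h) * (r h * Real.log (Q h) - R) := by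
      intro h
      have := (hrp h).ne'
      field_simp
      ring
    have e2 : ∑ h, (J (h, i) : ℝ) * Real.log (Q h) = R * (∑ h, (J (h, i) : ℝ) / r h) +
        ∑ h, ((J (h, i) : ℝ) / r h) * (r h * Real.log (Q h) - R) := by
      rw [Finset.sum_congr rfl fun h _ => e1 h, Finset.sum_add_distrib, Finset.mul_sum]
    have hJi := abs_le.1 (hJ i)
    set s := ∑ h, (J (h, i) : ℝ) / r h with hs
    have hs1 : s ≤ 2 * b := by
      have : (b : ℝ) / Fintype.card ι ≤ b := div_le_self hb0 hn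
      nlinarith [hJi.2]
    have e3 : 0 ≤ ∑ h, ((J (h, i) : ℝ) / r h) * (r h * Real.log (Q h) - R) :=
      Finset.sum_nonneg fun h _ => mul_nonneg (by have := hrp h; positivity)
        (by linarith [h1 h])
    have e4 : ∑ h, ((J (h, i) : ℝ) / r h) * (r h * Real.log (Q h) - R) ≤ s * (ε * R) := by
      rw [hs, Finset.sum_mul]
      refine Finset.sum_le_sum fun h _ => mul_le_mul_of_nonneg_left ?_
        (by have := hrp h; positivity)
      linarith [h2 h]
    have e5 : s * (ε * R) ≤ 2 * b * (ε * R) :=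
      mul_le_mul_of_nonneg_right hs1 (by positivity)
    rw [e2, abs_le]
    constructor
    · nlinarith [hJi.1]
    · nlinarith [hJi.2]
  have e6 : ∀ i, ∑ h, c i * ((J (h, i) : ℝ) * Real.log (Q h)) ≤
      c i * (R * (b / Fintype.card ι)) + |c i| * (R * (3 * ε * b)) := by
    intro i
    rw [← Finset.mul_sum]
    have := hkey i
    have e7 : c i * ((∑ h, (J (h, i) : ℝ) * Real.log (Q h)) - R * (b / Fintype.card ι)) ≤
        |c i| * (R * (3 * ε * b)) := by
      refine (le_abs_self _).trans ?_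
      rw [abs_mul]
      exact mul_le_mul_of_nonneg_left this (abs_nonneg _)
    linarith [e7]
  refine (Finset.sum_le_sum fun i _ => e6 i).trans ?_
  rw [Finset.sum_add_distrib, ← Finset.sum_mul, ← Finset.sum_mul]
  have e8 : (∑ i, |c i|) * (R * (3 * ε * b)) ≤ C0 * (R * (3 * ε * b)) :=
    mul_le_mul_of_nonneg_right hC0 (by positivity)
  linarith

/-- the loss from the derivative -/
lemma deriv_term (C0 : ℝ) (hC0 : 0 ≤ C0)
    (r : Fin b → ℕ) (hr : ∀ h, 1 ≤ r h) (Q : Fin b → ℝ) (hQ : ∀ h, 1 < Q h) (R ε : ℝ)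
    (hR : 0 < R) (hε1 : ε ≤ 1) (h2 : ∀ h, r h * Real.log (Q h) ≤ (1 + ε) * R)
    (k : (Fin b × ι) →₀ ℕ) :
    ∏ q : Fin b × ι, (Q q.1 ^ C0) ^ (k q) ≤ Real.exp (C0 * (2 * R * wtB r k)) := by
  have hQ0 : ∀ h, 0 < Q h := fun h => lt_trans one_pos (hQ h)
  have hlog : ∀ q : Fin b × ι, (Q q.1 ^ C0) ^ (k q) =
      Real.exp (C0 * ((k q : ℝ) * Real.log (Q q.1))) := by
    intro q
    rw [← Real.rpow_natCast, ← Real.rpow_mul (hQ0 _).le, Real.rpow_def_of_pos (hQ0 _)]
    congr 1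
    ring
  simp_rw [hlog]
  rw [← Real.exp_sum]
  apply Real.exp_le_exp.2
  rw [← Finset.mul_sum]
  refine mul_le_mul_of_nonneg_left ?_ hC0
  rw [Fintype.sum_prod_type]
  unfold wtB
  rw [Finset.mul_sum]
  refine Finset.sum_le_sum fun h _ => ?_
  simp only
  rw [← Finset.sum_mul, ← Nat.cast_sum]
  have hrp : (0 : ℝ) < r h := by exact_mod_cast hr h
  have e1 : ((∑ i, k (h, i) : ℕ) : ℝ) * Real.log (Q h) =
      (((∑ i, k (h, i) : ℕ) : ℝ) / r h) * (r h * Real.log (Q h)) := by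
    field_simp
  rw [e1]
  have e2 : (r h : ℝ) * Real.log (Q h) ≤ 2 * R := by
    have := h2 h
    nlinarith
  calc (((∑ i, k (h, i) : ℕ) : ℝ) / r h) * (r h * Real.log (Q h))
      ≤ (((∑ i, k (h, i) : ℕ) : ℝ) / r h) * (2 * R) :=
        mul_le_mul_of_nonneg_left e2 (by positivity)
    _ = 2 * R * (((∑ i, k (h, i) : ℕ) : ℝ) / r h) := by ring

end numeric

end Pool.Agent.Helper53.Sub
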